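import Mathlib
set_option autoImplicit false
open Filter Topology Function Set
namespace Pool.Agent.K9h46.LP

/-- diagonal choice of slowly growing levels -/
lemma levels (Q : ℕ → ℕ → Prop) (hQ : ∀ k, ∀ᶠ j in atTop, Q k j) :
    ∃ (lev : ℕ → ℕ) (J : ℕ) (B : ℕ → ℕ), (∀ j, J ≤ j → Q (lev j) j) ∧
      (∀ j, J ≤ j → lev (j+1) = lev j ∨ lev (j+1) = lev j + 1) ∧ (∀ j, j ≤ B (lev j)) := by
  classical
  have hT : ∀ k, ∃ T, ∀ j, T ≤ j → Q k j := fun k => eventually_atTop.1 (hQ k)
  choose T hT using hT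
  set S : ℕ → ℕ := fun k => Nat.rec (T 0) (fun k s => max (T (k+1)) (s + 1)) k with hS
  have hSs : ∀ k, S (k+1) = max (T (k+1)) (S k + 1) := fun k => rfl
  have hST : ∀ k, T k ≤ S k := by
    intro k; cases k with
    | zero => exact le_rfl
    | succ k => rw [hSs]; exact le_max_left _ _
  have hSm : StrictMono S := strictMono_nat_of_lt_succ fun k => by
    rw [hSs]; exact lt_of_lt_of_le (Nat.lt_succ_self _) (le_max_right _ _)
  have hSk : ∀ k, k ≤ S k := hSm.id_le
  set lev : ℕ → ℕ := fun j => Nat.findGreatest (fun k => S k ≤ j) j with hlev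
  have hspec : ∀ j, S 0 ≤ j → S (lev j) ≤ j := fun j hj =>
    Nat.findGreatest_spec (P := fun k => S k ≤ j) (Nat.zero_le j) hj
  have hle : ∀ j k, S k ≤ j → k ≤ lev j := fun j k h =>
    Nat.le_findGreatest ((hSk k).trans h) h
  refine ⟨lev, S 0, fun k => S (k+1), ?_, ?_, ?_⟩
  · intro j hj
    exact hT _ _ ((hST _).trans (hspec j hj))
  · intro j hj
    have h1 : lev j ≤ lev (j+1) := hle _ _ ((hspec j hj).trans (Nat.le_succ j))
    have h2 : lev (j+1) ≤ lev j + 1 := by
      have h3 := hspec (j+1) (by omega)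
      rcases Nat.eq_zero_or_pos (lev (j+1)) with h | h
      · omega
      · obtain ⟨k, hk⟩ : ∃ k, lev (j+1) = k + 1 := ⟨lev (j+1) - 1, by omega⟩
        rw [hk] at h3 ⊢
        have h4 : S k < S (k+1) := hSm (Nat.lt_succ_self k)
        have := hle j k (by omega)
        omega
    omega
  · intro j
    by_contra hcon
    rw [not_le] at hcon
    have := hle j (lev j + 1) hcon.le
    omega

section group
variable {Ω : Type} [AddCommGroup Ω] [TopologicalSpace Ω] [IsTopologicalAddGroup Ω]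
  [CompactSpace Ω] [T2Space Ω] [TotallyDisconnectedSpace Ω] [Infinite Ω]

lemma no_period (α : Ω) (hd : Dense (Set.range (fun n : ℤ => n • α))) (d : ℤ) (hd0 : d ≠ 0) :
    d • α ≠ 0 := by
  intro h
  have hfin : (Set.range (fun n : ℤ => n • α)).Finite := by
    apply Set.Finite.subset ((Finset.Icc (0:ℤ) |d|).finite_toSet.image (fun n : ℤ => n • α))
    rintro _ ⟨n, rfl⟩
    refine ⟨n % d, ?_, ?_⟩
    · rw [Finset.mem_coe, Finset.mem_Icc]
      exact ⟨Int.emod_nonneg _ hd0, (Int.emod_lt_abs _ hd0).le⟩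
    · have h1 : n • α = (n % d) • α + (d * (n / d)) • α := by
        rw [← add_smul, Int.emod_add_mul_ediv]
      have h2 : (d * (n / d)) • α = 0 := by rw [mul_comm, mul_smul, h, smul_zero]
      simp only
      rw [h1, h2, add_zero]
  have huniv : (Set.univ : Set Ω).Finite := by
    have h1 : closure (Set.range (fun n : ℤ => n • α)) = Set.univ := hd.closure_eq
    rw [hfin.isClosed.closure_eq] at h1
    rw [← h1]; exact hfin
  exact Set.infinite_univ huniv

lemma separating (α : Ω) (hd : Dense (Set.range (fun n : ℤ => n • α))) (M : ℕ) :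
    ∃ c : Ω → ℕ, Continuous c ∧ ∀ (ω : Ω) (d : ℤ), d ≠ 0 → |d| ≤ M → c (ω + d • α) ≠ c ω := by
  classical
  -- clopen neighbourhoods
  have hW : ∀ ω : Ω, ∃ W : Set Ω, IsClopen W ∧ ω ∈ W ∧ ∀ x ∈ W, ∀ d : ℤ, d ≠ 0 → |d| ≤ M → x + d • α ∉ W := by
    intro ω
    have h1 : ∀ d ∈ (Finset.Icc (-(M:ℤ)) M).erase 0, ∃ W : Set Ω, IsClopen W ∧ ω ∈ W ∧ ∀ x ∈ W, x + d • α ∉ W := by
      intro d hd'
      have hd0 : d ≠ 0 := (Finset.mem_erase.1 hd').1
      have hne : ω + d • α ≠ ω := by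
        intro h
        exact no_period α hd d hd0 (by simpa using h)
      obtain ⟨U1, hU1, hm1, hm2⟩ := exists_isClopen_of_totally_separated hne
      refine ⟨U1ᶜ ∩ (fun x => x + d • α) ⁻¹' U1, hU1.compl.inter (hU1.preimage (by fun_prop)), ⟨hm2, hm1⟩, ?_⟩
      intro x hx hx2
      exact hx2.1 hx.2
    choose! W hW1 hW2 hW3 using h1
    refine ⟨⋂ d ∈ (Finset.Icc (-(M:ℤ)) M).erase 0, W d, isClopen_biInter_finset hW1, ?_, ?_⟩
    · simp only [Set.mem_iInter]
      exact fun d hd' => hW2 d hd'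
    · intro x hx d hd0 hdM hx2
      have hmem : d ∈ (Finset.Icc (-(M:ℤ)) M).erase 0 := by
        rw [Finset.mem_erase, Finset.mem_Icc]
        exact ⟨hd0, abs_le.1 hdM⟩
      simp only [Set.mem_iInter] at hx hx2
      exact hW3 d hmem x (hx d hmem) (hx2 d hmem)
  choose W hW1 hW2 hW3 using hW
  obtain ⟨t, ht⟩ := isCompact_univ.elim_finite_subcover W (fun ω => (hW1 ω).isOpen)
    (fun ω _ => Set.mem_iUnion.2 ⟨ω, hW2 ω⟩)
  -- enumerate the finite cover
  obtain ⟨l, hl⟩ : ∃ l : List Ω, ∀ x, x ∈ l ↔ x ∈ t := ⟨t.toList, fun x => Finset.mem_toList⟩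
  have hex : ∀ ω, ∃ i, ∃ h : i < l.length, ω ∈ W (l[i]) := by
    intro ω
    have := ht (Set.mem_univ ω)
    simp only [Set.mem_iUnion] at this
    obtain ⟨x, hx, hω⟩ := this
    obtain ⟨i, hi, hix⟩ := List.getElem_of_mem ((hl x).2 hx)
    exact ⟨i, hi, by rw [hix]; exact hω⟩
  set A : ℕ → Set Ω := fun i => {ω | ∃ h : i < l.length, ω ∈ W (l[i])} with hA
  have hAc : ∀ i, IsClopen (A i) := by
    intro i
    by_cases h : i < l.length
    · have : A i = W (l[i]) := by
        ext ω; simp only [hA, Set.mem_ofPred_eq]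
        exact ⟨fun ⟨_, h2⟩ => h2, fun h2 => ⟨h, h2⟩⟩
      rw [this]; exact hW1 _
    · have : A i = ∅ := by
        ext ω; simp only [hA, Set.mem_ofPred_eq, Set.mem_empty_iff_false, iff_false]
        rintro ⟨h2, _⟩; exact h h2
      rw [this]; exact isClopen_empty
  refine ⟨fun ω => Nat.find (hex ω), ?_, ?_⟩
  · rw [continuous_discrete_rng]
    intro i
    have : (fun ω => Nat.find (hex ω)) ⁻¹' {i} = A i ∩ ⋂ j ∈ Finset.range i, (A j)ᶜ := by
      ext ω
      simp only [Set.mem_preimage, Set.mem_singleton_iff, Set.mem_inter_iff, Set.mem_iInter,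
        Finset.mem_range, Set.mem_compl_iff]
      rw [Nat.find_eq_iff]
      rfl
    rw [this]
    exact ((hAc i).inter (isClopen_biInter_finset fun j _ => (hAc j).compl)).isOpen
  · intro ω d hd0 hdM heq
    obtain ⟨h1, h2⟩ := Nat.find_spec (hex ω)
    obtain ⟨h3, h4⟩ := Nat.find_spec (hex (ω + d • α))
    simp only at heq
    simp only [heq] at h4
    exact hW3 _ ω h2 d hd0 hdM h4

end group

end Pool.Agent.K9h46.LP
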