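import Pool.Agent.K9h46.LP.Clo
import Pool.Agent.K9h46.LP.Str
set_option autoImplicit false
open MeasureTheory Filter Topology Function Set
namespace Pool.Agent.K9h46.LP

/-- superexponential decay beats everything -/
lemma decay (C r : ℝ) (hr0 : 0 < r) (hr1 : r < 1) :
    ∀ᶠ j : ℕ in atTop, C * ((2:ℝ) ^ j) ^ 10 * r ^ (2 ^ j) ≤ 1 := by
  have h1 : Tendsto (fun n : ℕ => (n:ℝ) ^ 10 * r ^ n) atTop (𝓝 0) :=
    tendsto_pow_const_mul_const_pow_of_lt_one 10 hr0.le hr1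
  have h2 : Tendsto (fun n : ℕ => C * ((n:ℝ) ^ 10 * r ^ n)) atTop (𝓝 (C * 0)) := h1.const_mul C
  rw [mul_zero] at h2
  have h3 : Tendsto (fun j : ℕ => 2 ^ j) atTop (atTop : Filter ℕ) :=
    tendsto_pow_atTop_atTop_of_one_lt (by norm_num)
  have h4 := (h2.comp h3).eventually (gt_mem_nhds (zero_lt_one))
  filter_upwards [h4] with j hj
  simp only [comp_apply, Nat.cast_pow, Nat.cast_ofNat] at hj
  rw [mul_assoc]; exact hj.le

/-- everything is fine at scale `j` with level data `(C, r)` and separations constants `D`, `D'`. -/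
def Qp (C r D D' : ℝ) (j : ℕ) : Prop :=
  (2 * 2 ^ j + 1) * (C * (r ^ 2 ^ j) ^ 2) ≤ (1/2) ^ j ∧
  (Nw (j+1)) ^ 3 * (2 * D * r ^ 2 ^ j) ≤ (1/2) ^ j ∧
  (Nw (j+1)) ^ 3 * (2 * D' * r ^ 2 ^ j) ≤ (1/2) ^ j ∧
  8 * r ^ 2 ^ j * Nw j ^ 2 ≤ tw j

lemma Qp_eventually (C r D D' : ℝ) (hr0 : 0 < r) (hr1 : r < 1) (hC : 0 < C) (hD : 0 < D) (hD' : 0 < D') :
    ∀ᶠ j in atTop, Qp C r D D' j := by
  filter_upwards [decay (3 * C) r hr0 hr1, decay (9 ^ 3 * 2 * D) r hr0 hr1,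
    decay (9 ^ 3 * 2 * D') r hr0 hr1, decay (8 * 5 ^ 2 * 100) r hr0 hr1] with j h1 h2 h3 h4
  set x : ℝ := 2 ^ j with hx
  have hx1 : 1 ≤ x := one_le_pow₀ (by norm_num)
  have hx0 : 0 < x := by positivity
  set y : ℝ := r ^ 2 ^ j with hy
  have hy0 : 0 < y := by positivity
  have hy1 : y ≤ 1 := pow_le_one₀ hr0.le hr1.le
  have e2 : (1/2 : ℝ) ^ j = 1 / x := by rw [hx, one_div_pow]
  have e8 : (1/8 : ℝ) ^ j = 1 / x ^ 3 := by
    rw [hx, ← pow_mul, mul_comm, pow_mul, one_div_pow]; norm_num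
  have eN : Nw (j+1) = 8 * x + 1 := by rw [Nw_eq, pow_succ, hx]; ring
  have hN9 : Nw (j+1) ≤ 9 * x := by rw [eN]; linarith
  have hN5 : Nw j ≤ 5 * x := by rw [Nw_eq]; linarith
  have hxp : ∀ a b : ℕ, a ≤ b → x ^ a ≤ x ^ b := fun a b h => pow_le_pow_right₀ hx1 h
  have hfin : ∀ K : ℝ, 0 < K → ∀ a : ℕ, a ≤ 10 → K * x ^ 10 * y ≤ 1 → K * x ^ a * y ≤ 1 := by
    intro K hK a ha h
    refine le_trans ?_ h
    have := hxp a 10 ha
    gcongr
  have hNp := (Nw_pos (j+1)).le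
  have hNp' := (Nw_pos j).le
  refine ⟨?_, ?_, ?_, ?_⟩
  · rw [e2, le_div_iff₀ hx0]
    have h5 := hfin (3 * C) (by positivity) 2 (by norm_num) h1
    calc (2 * x + 1) * (C * y ^ 2) * x ≤ (3 * x) * (C * (y * 1)) * x := by
          rw [sq]
          gcongr
          linarith
      _ = 3 * C * x ^ 2 * y := by ring
      _ ≤ 1 := h5
  · rw [e2, le_div_iff₀ hx0]
    have h5 := hfin (9 ^ 3 * 2 * D) (by positivity) 4 (by norm_num) h2
    calc (Nw (j+1)) ^ 3 * (2 * D * y) * x ≤ (9 * x) ^ 3 * (2 * D * y) * x := by gcongr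
      _ = 9 ^ 3 * 2 * D * x ^ 4 * y := by ring
      _ ≤ 1 := h5
  · rw [e2, le_div_iff₀ hx0]
    have h5 := hfin (9 ^ 3 * 2 * D') (by positivity) 4 (by norm_num) h3
    calc (Nw (j+1)) ^ 3 * (2 * D' * y) * x ≤ (9 * x) ^ 3 * (2 * D' * y) * x := by gcongr
      _ = 9 ^ 3 * 2 * D' * x ^ 4 * y := by ring
      _ ≤ 1 := h5
  · unfold tw
    rw [e8, div_div, le_div_iff₀ (by positivity)]
    have h5 := hfin (8 * 5 ^ 2 * 100) (by positivity) 5 (by norm_num) h4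
    calc 8 * y * Nw j ^ 2 * (x ^ 3 * 100) ≤ 8 * y * (5 * x) ^ 2 * (x ^ 3 * 100) := by gcongr
      _ = 8 * 5 ^ 2 * 100 * x ^ 5 * y := by ring
      _ ≤ 1 := h5

/-- constants of the localization estimate for the given strength, in the form used below -/
lemma loc_const {δ : ℝ} (hδ : 0 < δ) {A0 : ℝ} (hA0 : 0 ≤ A0) : ∃ r C : ℝ, 0 < r ∧ r < 1 ∧ 0 < C ∧
    ∀ (h : ℕ), 1 ≤ h → ∀ (U b : ℤ → Xi → ℝ) (κ : ℤ → ℕ × ℕ), IndZ δ (2*h) U b κ →
    (∀ n ∈ Wn (2*h), ∀ Z, |U n Z| ≤ A0) →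
    ∀ (m : ℤ), |m| ≤ h → ∀ B : Set Xi, MeasurableSet B →
    (∀ Z ∈ B, BadLoc (fun n => U n Z) (2*h) ((r ^ h) ^ 2) m (2*h:ℕ) ∨
      BadLoc (fun n => U n Z) (2*h) ((r ^ h) ^ 2) m (-(2*h:ℕ))) →
    PP B ≤ ENNReal.ofReal (C * (r ^ h) ^ 2) := by
  obtain ⟨ρ, C, hρ0, hρ1, hC, hK⟩ := ksL hδ hA0
  set r : ℝ := ρ ^ ((1:ℝ)/4) with hr
  have hr0 : 0 < r := by positivity
  have hr1 : r < 1 := Real.rpow_lt_one hρ0.le hρ1 (by norm_num)
  have hr4 : r ^ 4 = ρ := by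
    rw [hr, ← Real.rpow_natCast, ← Real.rpow_mul hρ0.le]; norm_num
  refine ⟨r, C, hr0, hr1, hC, ?_⟩
  intro h hh U b κ hI hU m hm B hB hbad
  have hη : 0 < (r ^ h) ^ 2 := by positivity
  have key := hK h hh U b κ hI hU m hm ((r ^ h) ^ 2) hη B hB hbad
    (meas_BadLoc (fun Z n => U n Z) hI.mU (2*h) _ _ _ A0 (fun Z n hn => hU n hn Z))
    (meas_BadLoc (fun Z n => U n Z) hI.mU (2*h) _ _ _ A0 (fun Z n hn => hU n hn Z))
  refine key.trans (ENNReal.ofReal_le_ofReal (le_of_eq ?_))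
  rw [← hr4, ← pow_mul, ← pow_mul]
  have e : r ^ (4 * h) = r ^ (h * 2) * r ^ (h * 2) := by rw [← pow_add]; congr 1; ring
  rw [e]
  field_simp

section main
variable {Ω : Type}

/-- the random potential function -/
noncomputable def pot (f0 : Ω → ℝ) (c : ℕ → Ω → ℕ) (dl : ℕ → ℝ) (Z : Xi) (ω : Ω) : ℝ :=
  f0 ω + ∑' k, dl k * (Z (k, c k ω) : ℝ)

/-- the part not depending on level `k0` -/
noncomputable def bbg (f0 : Ω → ℝ) (c : ℕ → Ω → ℕ) (dl : ℕ → ℝ) (k0 : ℕ) (Z : Xi) (ω : Ω) : ℝ :=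
  f0 ω + ∑' k, (if k = k0 then 0 else dl k * (Z (k, c k ω) : ℝ))

lemma term_bound {dl : ℕ → ℝ} (h0 : ∀ k, 0 ≤ dl k) (k : ℕ) (v : unitInterval) : |dl k * (v:ℝ)| ≤ dl k := by
  rw [abs_mul, abs_of_nonneg (h0 k), abs_of_nonneg v.2.1]
  exact mul_le_of_le_one_right (h0 k) v.2.2

lemma term_summable {dl : ℕ → ℝ} (h0 : ∀ k, 0 ≤ dl k) (hs : Summable dl) (c : ℕ → Ω → ℕ) (Z : Xi) (ω : Ω) :
    Summable (fun k => dl k * (Z (k, c k ω) : ℝ)) :=
  Summable.of_norm_bounded hs (fun k => by rw [Real.norm_eq_abs]; exact term_bound h0 k _)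

lemma pot_eq {dl : ℕ → ℝ} (h0 : ∀ k, 0 ≤ dl k) (hs : Summable dl) (f0 : Ω → ℝ) (c : ℕ → Ω → ℕ)
    (k0 : ℕ) (Z : Xi) (ω : Ω) :
    pot f0 c dl Z ω = bbg f0 c dl k0 Z ω + dl k0 * (Z (k0, c k0 ω) : ℝ) := by
  unfold pot bbg
  rw [(term_summable h0 hs c Z ω).tsum_eq_add_tsum_ite k0]
  ring

lemma bbg_update (f0 : Ω → ℝ) (c : ℕ → Ω → ℕ) (dl : ℕ → ℝ) (k0 i : ℕ) (Z : Xi) (v : unitInterval) (ω : Ω) :
    bbg f0 c dl k0 (update Z (k0, i) v) ω = bbg f0 c dl k0 Z ω := by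
  unfold bbg
  congr 1
  apply tsum_congr
  intro k
  split_ifs with h
  · rfl
  · rw [update_of_ne]
    intro h'; exact h (congrArg Prod.fst h')

lemma tsum_dev {dl : ℕ → ℝ} (h0 : ∀ k, 0 ≤ dl k) (hs : Summable dl) (c : ℕ → Ω → ℕ) (Z : Xi) (ω : Ω) :
    |∑' k, dl k * (Z (k, c k ω) : ℝ)| ≤ ∑' k, dl k := by
  rw [← Real.norm_eq_abs]
  exact tsum_of_norm_bounded hs.hasSum (fun k => by rw [Real.norm_eq_abs]; exact term_bound h0 k _)

variable [TopologicalSpace Ω]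

lemma eval_cont (k : ℕ) (c : Ω → ℕ) (hc : Continuous c) :
    Continuous (fun p : Xi × Ω => ((p.1 (k, c p.2) : unitInterval) : ℝ)) := by
  have h1 : Continuous (fun q : Xi × ℕ => ((q.1 (k, q.2) : unitInterval) : ℝ)) := by
    rw [continuous_prod_of_discrete_right]
    intro n
    exact continuous_subtype_val.comp (continuous_apply (k, n))
  exact h1.comp (f := fun p : Xi × Ω => (p.1, c p.2)) (by fun_prop)

lemma pot_cont {dl : ℕ → ℝ} (h0 : ∀ k, 0 ≤ dl k) (hs : Summable dl) (f0 : Ω → ℝ) (hf0 : Continuous f0)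
    (c : ℕ → Ω → ℕ) (hc : ∀ k, Continuous (c k)) : Continuous (fun p : Xi × Ω => pot f0 c dl p.1 p.2) := by
  unfold pot
  apply Continuous.add (hf0.comp continuous_snd)
  apply continuous_tsum (u := dl) _ hs
  · intro k p; rw [Real.norm_eq_abs]; exact term_bound h0 k _
  · intro k; exact (eval_cont k (c k) (hc k)).const_mul _

lemma bbg_cont {dl : ℕ → ℝ} (h0 : ∀ k, 0 ≤ dl k) (hs : Summable dl) (f0 : Ω → ℝ) (hf0 : Continuous f0)
    (c : ℕ → Ω → ℕ) (hc : ∀ k, Continuous (c k)) (k0 : ℕ) :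
    Continuous (fun p : Xi × Ω => bbg f0 c dl k0 p.1 p.2) := by
  unfold bbg
  apply Continuous.add (hf0.comp continuous_snd)
  apply continuous_tsum (u := dl) _ hs
  · intro k p
    split_ifs
    · simpa using h0 k
    · rw [Real.norm_eq_abs]; exact term_bound h0 k _
  · intro k
    split_ifs
    · exact continuous_const
    · exact (eval_cont k (c k) (hc k)).const_mul _

lemma indZ_pot [AddCommGroup Ω] {dl : ℕ → ℝ} (h0 : ∀ k, 0 ≤ dl k) (hs : Summable dl) (f0 : Ω → ℝ)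
    (hf0 : Continuous f0) (c : ℕ → Ω → ℕ) (hc : ∀ k, Continuous (c k)) (k0 : ℕ) (L M : ℕ) (hM : 2 * L ≤ M)
    (α : Ω) (hcs : ∀ (ω : Ω) (d : ℤ), d ≠ 0 → |d| ≤ M → c k0 (ω + d • α) ≠ c k0 ω) (ω : Ω) :
    IndZ (dl k0) L (fun n Z => pot f0 c dl Z (ω + n • α)) (fun n Z => bbg f0 c dl k0 Z (ω + n • α))
      (fun n => (k0, c k0 (ω + n • α))) where
  hU := fun n _ Z => pot_eq h0 hs f0 c k0 Z _
  hb := fun n _ m _ Z v => bbg_update f0 c dl k0 _ Z v _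
  hκ := fun n hn m hm e => by
    by_contra hne
    have h1 : c k0 (ω + n • α) = c k0 (ω + m • α) := congrArg Prod.snd e
    have h2 : ω + n • α = (ω + m • α) + (n - m) • α := by rw [sub_smul]; abel
    rw [h2] at h1
    refine hcs (ω + m • α) (n - m) (sub_ne_zero.2 hne) ?_ h1
    rw [Finset.mem_Icc] at hn hm
    rw [abs_le]; constructor <;> omega
  mb := fun n => ((bbg_cont h0 hs f0 hf0 c hc k0).comp
    (f := fun Z : Xi => (Z, ω + n • α)) (by fun_prop)).measurable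
  mU := fun n => ((pot_cont h0 hs f0 hf0 c hc).comp
    (f := fun Z : Xi => (Z, ω + n • α)) (by fun_prop)).measurable

/-- the bad event at scale `j` -/
def BadEv (V : ℤ → ℝ) (η s : ℕ → ℝ) (j : ℕ) : Prop :=
  (∃ m ∈ Finset.Icc (-(2:ℤ)^j) (2^j), BadLoc V (Lw j) (η j) m (Lw j) ∨ BadLoc V (Lw j) (η j) m (-(Lw j))) ∨
  (∃ m ∈ Wn (Lw (j+1)), BadPair V (Lw (j+1)) (s j) m)

lemma meas_BadEv {X : Type*} [MeasurableSpace X] (V : X → ℤ → ℝ) (hV : ∀ n, Measurable fun x => V x n)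
    (η s : ℕ → ℝ) (j : ℕ) (A0 : ℝ) (hb : ∀ x n, |V x n| ≤ A0) :
    MeasurableSet {x | BadEv (V x) η s j} := by
  have h1 : MeasurableSet {x | ∃ m ∈ Finset.Icc (-(2:ℤ)^j) (2^j), BadLoc (V x) (Lw j) (η j) m (Lw j) ∨
      BadLoc (V x) (Lw j) (η j) m (-(Lw j))} := by
    have e : {x | ∃ m ∈ Finset.Icc (-(2:ℤ)^j) (2^j), BadLoc (V x) (Lw j) (η j) m (Lw j) ∨
      BadLoc (V x) (Lw j) (η j) m (-(Lw j))} = ⋃ m ∈ Finset.Icc (-(2:ℤ)^j) (2^j),
        ({x | BadLoc (V x) (Lw j) (η j) m (Lw j)} ∪ {x | BadLoc (V x) (Lw j) (η j) m (-(Lw j))}) := by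
      ext x; simp
    rw [e]
    exact Finset.measurableSet_biUnion _ fun m _ =>
      (meas_BadLoc V hV _ _ _ _ A0 (fun x n _ => hb x n)).union
        (meas_BadLoc V hV _ _ _ _ A0 (fun x n _ => hb x n))
  have h2 : MeasurableSet {x | ∃ m ∈ Wn (Lw (j+1)), BadPair (V x) (Lw (j+1)) (s j) m} := by
    have e : {x | ∃ m ∈ Wn (Lw (j+1)), BadPair (V x) (Lw (j+1)) (s j) m} = ⋃ m ∈ Wn (Lw (j+1)),
        {x | BadPair (V x) (Lw (j+1)) (s j) m} := by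
      ext x; simp
    rw [e]
    exact Finset.measurableSet_biUnion _ fun m _ => meas_BadPair V hV _ _ _ A0 (fun x n _ => hb x n)
  exact h1.union h2

lemma prob_bad [AddCommGroup Ω] {dl : ℕ → ℝ} (h0 : ∀ k, 0 < dl k) (hs : Summable dl) (f0 : Ω → ℝ)
    (hf0 : Continuous f0) (c : ℕ → Ω → ℕ) (hc : ∀ k, Continuous (c k)) (α : Ω) (A0 : ℝ)
    (hA : ∀ Z ω, |pot f0 c dl Z ω| ≤ A0) (k k' j M M' : ℕ) (hk' : k' = k ∨ k' = k + 1)
    (hM : 2 * Lw j ≤ M) (hM' : 2 * Lw (j+1) ≤ M')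
    (hcs : ∀ (ω : Ω) (d : ℤ), d ≠ 0 → |d| ≤ M → c k (ω + d • α) ≠ c k ω)
    (hcs' : ∀ (ω : Ω) (d : ℤ), d ≠ 0 → |d| ≤ M' → c k' (ω + d • α) ≠ c k' ω)
    (r C : ℝ) (hr0 : 0 < r)
    (hloc : ∀ (h : ℕ), 1 ≤ h → ∀ (U b : ℤ → Xi → ℝ) (κ : ℤ → ℕ × ℕ), IndZ (dl k) (2*h) U b κ →
      (∀ n ∈ Wn (2*h), ∀ Z, |U n Z| ≤ A0) →
      ∀ (m : ℤ), |m| ≤ h → ∀ B : Set Xi, MeasurableSet B →
      (∀ Z ∈ B, BadLoc (fun n => U n Z) (2*h) ((r ^ h) ^ 2) m (2*h:ℕ) ∨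
        BadLoc (fun n => U n Z) (2*h) ((r ^ h) ^ 2) m (-(2*h:ℕ))) →
      PP B ≤ ENNReal.ofReal (C * (r ^ h) ^ 2))
    (hQ : Qp C r (dl k)⁻¹ (dl (k+1))⁻¹ j) (η s : ℕ → ℝ) (hη : η j = (r ^ 2 ^ j) ^ 2) (hsj : s j = r ^ 2 ^ j)
    (ω : Ω) :
    PP {Z | BadEv (fun n : ℤ => pot f0 c dl Z (ω + n • α)) η s j} ≤ ENNReal.ofReal (2 * (1/2) ^ j) := by
  have hnn : ∀ k, 0 ≤ dl k := fun k => (h0 k).le
  set V : Xi → ℤ → ℝ := fun Z n => pot f0 c dl Z (ω + n • α) with hV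
  have hmV : ∀ n, Measurable fun Z => V Z n := fun n => ((pot_cont hnn hs f0 hf0 c hc).comp
    (f := fun Z : Xi => (Z, ω + n • α)) (by fun_prop)).measurable
  have hbV : ∀ Z n, |V Z n| ≤ A0 := fun Z n => hA Z _
  have hI := indZ_pot hnn hs f0 hf0 c hc k (Lw j) M hM α hcs ω
  have hI' := indZ_pot hnn hs f0 hf0 c hc k' (Lw (j+1)) M' hM' α hcs' ω
  -- first part
  have p1 : ∀ m ∈ Finset.Icc (-(2:ℤ)^j) (2^j), PP {Z | BadLoc (V Z) (Lw j) (η j) m (Lw j) ∨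
      BadLoc (V Z) (Lw j) (η j) m (-(Lw j))} ≤ ENNReal.ofReal (C * (r ^ 2 ^ j) ^ 2) := by
    intro m hm
    rw [Finset.mem_Icc] at hm
    apply hloc (2^j) Nat.one_le_two_pow _ _ _ hI (fun n _ Z => hA Z _) m
    · rw [abs_le]; push_cast; exact hm
    · exact (meas_BadLoc V hmV _ _ _ _ A0 (fun Z n _ => hbV Z n)).union
        (meas_BadLoc V hmV _ _ _ _ A0 (fun Z n _ => hbV Z n))
    · intro Z hZ
      rw [hη] at hZ
      exact hZ
  have p2 : ∀ m ∈ Wn (Lw (j+1)), PP {Z | BadPair (V Z) (Lw (j+1)) (s j) m} ≤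
      ENNReal.ofReal ((dl k')⁻¹ * (2 * s j * (2 * Lw (j+1) + 1) ^ 2)) := by
    intro m hm
    apply spc (h0 k') (Lw (j+1)) m hm (s j) (by rw [hsj]; positivity) (fun n Z => V Z n)
      (k', c k' (ω + m • α)) (fun Z => bbg f0 c dl k' Z (ω + m • α))
    · intro Z v
      have := hI'.hU m hm (update Z (k', c k' (ω + m • α)) v)
      simp only [update_self] at this
      rw [hV]; simp only
      rw [this, bbg_update]
    · intro n hn hnm Z v
      have h1 := hI'.hU n hn (update Z (k', c k' (ω + m • α)) v)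
      have h2 := hI'.hU n hn Z
      have hne : (k', c k' (ω + n • α)) ≠ (k', c k' (ω + m • α)) := fun h => hnm (hI'.hκ n hn m hm h)
      rw [update_of_ne hne, bbg_update] at h1
      rw [hV]; simp only
      rw [h1, h2]
    · exact meas_BadPair V hmV _ _ _ A0 (fun Z n _ => hbV Z n)
    · intro Z hZ; exact hZ
  have hsub : {Z | BadEv (V Z) η s j} ⊆ (⋃ m ∈ Finset.Icc (-(2:ℤ)^j) (2^j),
      {Z | BadLoc (V Z) (Lw j) (η j) m (Lw j) ∨ BadLoc (V Z) (Lw j) (η j) m (-(Lw j))}) ∪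
      (⋃ m ∈ Wn (Lw (j+1)), {Z | BadPair (V Z) (Lw (j+1)) (s j) m}) := by
    rintro Z (⟨m, hm, h⟩ | ⟨m, hm, h⟩)
    · left; exact mem_biUnion (by exact hm) h
    · right; exact mem_biUnion (by exact hm) h
  have hr2 : 0 < r ^ 2 ^ j := by positivity
  have hq1 := hQ.1
  have hq2 : (Nw (j+1)) ^ 3 * (2 * (dl k')⁻¹ * r ^ 2 ^ j) ≤ (1/2) ^ j := by
    rcases hk' with h | h
    · rw [h]; exact hQ.2.1
    · rw [h]; exact hQ.2.2.1
  have hdk := h0 k'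
  have hN := Nw_pos (j+1)
  calc PP {Z | BadEv (V Z) η s j} ≤ _ := measure_mono hsub
    _ ≤ _ := measure_union_le _ _
    _ ≤ (∑ m ∈ Finset.Icc (-(2:ℤ)^j) (2^j), ENNReal.ofReal (C * (r ^ 2 ^ j) ^ 2)) +
        ∑ m ∈ Wn (Lw (j+1)), ENNReal.ofReal ((dl k')⁻¹ * (2 * s j * (2 * Lw (j+1) + 1) ^ 2)) := by
        gcongr
        · exact (measure_biUnion_finset_le _ _).trans (Finset.sum_le_sum p1)
        · exact (measure_biUnion_finset_le _ _).trans (Finset.sum_le_sum p2)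
    _ = ENNReal.ofReal ((2 * 2 ^ j + 1) * (C * (r ^ 2 ^ j) ^ 2)) +
        ENNReal.ofReal (Nw (j+1) * ((dl k')⁻¹ * (2 * s j * (2 * Lw (j+1) + 1) ^ 2))) := by
        rw [Finset.sum_const, Finset.sum_const, Int.card_Icc, Int.card_Icc, nsmul_eq_mul, nsmul_eq_mul]
        have e1 : (2 ^ j + 1 - (-(2:ℤ) ^ j)).toNat = 2 * 2 ^ j + 1 := by
          have : (2 ^ j + 1 - (-(2:ℤ) ^ j)) = ((2 * 2 ^ j + 1 : ℕ) : ℤ) := by push_cast; ring
          rw [this, Int.toNat_natCast]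
        have e2 : ((Lw (j+1):ℤ) + 1 - (-(Lw (j+1):ℤ))).toNat = 2 * Lw (j+1) + 1 := by omega
        rw [e1, e2]
        have e3 : ((2 * 2 ^ j + 1 : ℕ) : ENNReal) = ENNReal.ofReal (2 * 2 ^ j + 1) := by
          rw [← ENNReal.ofReal_natCast]; congr 1; push_cast; ring
        have e4 : ((2 * Lw (j+1) + 1 : ℕ) : ENNReal) = ENNReal.ofReal (Nw (j+1)) := by
          rw [← ENNReal.ofReal_natCast]; congr 1; unfold Nw; push_cast; ring
        rw [e3, e4, ← ENNReal.ofReal_mul (by positivity), ← ENNReal.ofReal_mul hN.le]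
    _ ≤ ENNReal.ofReal ((1/2) ^ j) + ENNReal.ofReal ((1/2) ^ j) := by
        gcongr
        have e5 : Nw (j+1) * ((dl k')⁻¹ * (2 * s j * (2 * Lw (j+1) + 1) ^ 2))
            = (Nw (j+1)) ^ 3 * (2 * (dl k')⁻¹ * r ^ 2 ^ j) := by
          rw [hsj]; unfold Nw; ring
        rw [e5]; exact hq2
    _ = _ := by
        rw [← ENNReal.ofReal_add (by positivity) (by positivity)]
        congr 1; ring

end main

theorem mainthm (Ω : Type) [AddCommGroup Ω] [TopologicalSpace Ω] [IsTopologicalAddGroup Ω]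
    [CompactSpace Ω] [T2Space Ω] [TotallyDisconnectedSpace Ω]
    [TopologicalSpace.MetrizableSpace Ω] [Infinite Ω] [MeasurableSpace Ω] [BorelSpace Ω]
    (μ : Measure Ω) [IsFiniteMeasure μ] (α : Ω)
    (hd : Dense (Set.range (fun n : ℤ => n • α))) (f0 : C(Ω, ℝ)) (ε : ℝ) (hε : 0 < ε) :
    ∃ f : C(Ω, ℝ), dist f f0 < ε ∧ ∀ᵐ ω ∂μ,
      (Submodule.span ℂ (EigSet (fun n : ℤ => f (ω + n • α)))).topologicalClosure = ⊤ := by
  letI : MetricSpace Ω := TopologicalSpace.metrizableSpaceMetric Ω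
  have : SecondCountableTopology Ω := inferInstance
  set dl : ℕ → ℝ := fun k => (ε / 4) * (1/2) ^ k with hdl
  have h0 : ∀ k, 0 < dl k := fun k => by rw [hdl]; positivity
  have hnn : ∀ k, 0 ≤ dl k := fun k => (h0 k).le
  have hs : Summable dl := summable_geometric_two.mul_left _
  have hts : ∑' k, dl k = ε / 2 := by
    rw [hdl, tsum_mul_left, tsum_geometric_two]; ring
  set A0 : ℝ := ‖f0‖ + ε with hA0
  have hA0' : 0 ≤ A0 := by positivity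
  have hloc := fun k => loc_const (h0 k) hA0'
  choose r C hr0 hr1 hC hloc using hloc
  obtain ⟨lev, J, B, hQ, hlev, hB⟩ := levels (fun k j => Qp (C k) (r k) (dl k)⁻¹ (dl (k+1))⁻¹ j)
    (fun k => Qp_eventually _ _ _ _ (hr0 k) (hr1 k) (hC k) (inv_pos.2 (h0 k)) (inv_pos.2 (h0 (k+1))))
  have hsep := fun k => separating α hd (2 * Lw (B k))
  choose c hc hcs using hsep
  have hLw : ∀ a b, a ≤ b → Lw a ≤ Lw b := by
    intro a b hab
    unfold Lw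
    have := Nat.pow_le_pow_right (n := 2) (by norm_num) hab
    omega
  have hpc := pot_cont hnn hs f0 f0.continuous c hc
  have hA : ∀ Z ω, |pot f0 c dl Z ω| ≤ A0 := by
    intro Z ω
    unfold pot
    have h1 := tsum_dev hnn hs c Z ω
    have h2 : |f0 ω| ≤ ‖f0‖ := f0.norm_coe_le_norm ω
    calc _ ≤ |f0 ω| + |∑' k, dl k * (Z (k, c k ω) : ℝ)| := abs_add_le _ _
      _ ≤ A0 := by rw [hts] at h1; rw [hA0]; linarith
  set η : ℕ → ℝ := fun j => (r (lev j) ^ 2 ^ j) ^ 2 with hη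
  set s : ℕ → ℝ := fun j => r (lev j) ^ 2 ^ j with hsd
  set V : Xi × Ω → ℤ → ℝ := fun p n => pot f0 c dl p.1 (p.2 + n • α) with hV
  have hmV : ∀ n, Measurable fun p => V p n := fun n =>
    (hpc.comp (f := fun p : Xi × Ω => (p.1, p.2 + n • α)) (by fun_prop)).measurable
  have hmB : ∀ j, MeasurableSet {p : Xi × Ω | BadEv (V p) η s j} := fun j =>
    meas_BadEv V hmV η s j A0 (fun p n => hA _ _)
  set T : ℕ → Set (Xi × Ω) := fun j => if J ≤ j then {p | BadEv (V p) η s j} else ∅ with hT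
  have hTb : ∀ j, (PP.prod μ) (T j) ≤ ENNReal.ofReal (2 * (1/2) ^ j) * μ univ := by
    intro j
    by_cases hj : J ≤ j
    · have e : T j = {p | BadEv (V p) η s j} := if_pos hj
      rw [e, Measure.prod_apply_symm (hmB j)]
      calc ∫⁻ ω, PP ((fun Z => (Z, ω)) ⁻¹' {p | BadEv (V p) η s j}) ∂μ
          ≤ ∫⁻ ω, ENNReal.ofReal (2 * (1/2) ^ j) ∂μ := by
            apply lintegral_mono
            intro ω
            exact prob_bad h0 hs f0 f0.continuous c hc α A0 hA (lev j) (lev (j+1)) j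
              (2 * Lw (B (lev j))) (2 * Lw (B (lev (j+1)))) (hlev j hj)
              (Nat.mul_le_mul_left 2 (hLw _ _ (hB j))) (Nat.mul_le_mul_left 2 (hLw _ _ (hB (j+1))))
              (hcs _) (hcs _) (r (lev j)) (C (lev j)) (hr0 _) (hloc (lev j)) (hQ j hj) η s rfl rfl ω
        _ = _ := by rw [lintegral_const]
    · have e : T j = ∅ := if_neg hj
      rw [e]; simp
  have hsum : ∑' j, (PP.prod μ) (T j) ≠ ⊤ := by
    refine ne_top_of_le_ne_top ?_ (ENNReal.tsum_le_tsum hTb)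
    rw [ENNReal.tsum_mul_right, ← ENNReal.ofReal_tsum_of_nonneg (fun j => by positivity)
      (summable_geometric_two.mul_left _)]
    exact ENNReal.mul_ne_top ENNReal.ofReal_ne_top (measure_ne_top μ _)
  have hae := Measure.ae_ae_of_ae_prod (ae_eventually_notMem hsum)
  obtain ⟨Z, hZ⟩ := hae.exists
  refine ⟨⟨fun ω => pot f0 c dl Z ω, hpc.comp (f := fun ω : Ω => (Z, ω)) (by fun_prop)⟩, ?_, ?_⟩
  · refine lt_of_le_of_lt ((ContinuousMap.dist_le (by positivity : 0 ≤ ε / 2)).2 fun ω => ?_)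
      (half_lt_self hε)
    rw [Real.dist_eq]
    have h1 := tsum_dev hnn hs c Z ω
    rw [hts] at h1
    have e : (⟨fun ω => pot f0 c dl Z ω, hpc.comp (f := fun ω : Ω => (Z, ω)) (by fun_prop)⟩ : C(Ω, ℝ)) ω - f0 ω
        = ∑' k, dl k * (Z (k, c k ω) : ℝ) := by
      simp [pot]
    rw [e]; exact h1
  · filter_upwards [hZ] with ω hω
    obtain ⟨J1, hJ1⟩ := eventually_atTop.1 hω
    have hgood : Good (V (Z, ω)) (max J J1) η s := by
      have hnb : ∀ j, max J J1 ≤ j → ¬ BadEv (V (Z, ω)) η s j := by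
        intro j hj hb
        have h1 := hJ1 j (le_trans (le_max_right _ _) hj)
        apply h1
        have e : T j = {p | BadEv (V p) η s j} := if_pos (le_trans (le_max_left _ _) hj)
        rw [e]; exact hb
      refine ⟨fun j => by rw [hη]; positivity, fun j => pow_pos (hr0 _) _, ?_, ?_, ?_⟩
      · intro j hj
        have h1 := (hQ j (le_trans (le_max_left _ _) hj)).2.2.2
        have h2 : 0 < r (lev j) ^ 2 ^ j := pow_pos (hr0 _) _
        rw [hη, hsd]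
        simp only
        calc 8 * (r (lev j) ^ 2 ^ j) ^ 2 * Nw j ^ 2
            = (r (lev j) ^ 2 ^ j) * (8 * r (lev j) ^ 2 ^ j * Nw j ^ 2) := by ring
          _ ≤ (r (lev j) ^ 2 ^ j) * tw j := by gcongr
      · intro j hj m hm
        have h1 := hnb j hj
        have hm2 : m ∈ Finset.Icc (-(2:ℤ)^j) (2^j) := by
          rw [Finset.mem_Icc]; exact abs_le.1 hm
        constructor
        · intro hb; exact h1 (Or.inl ⟨m, hm2, Or.inl hb⟩)
        · intro hb; exact h1 (Or.inl ⟨m, hm2, Or.inr hb⟩)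
      · intro j hj m hm hb
        exact hnb j hj (Or.inr ⟨m, hm, hb⟩)
    exact closure_top hgood

end Pool.Agent.K9h46.LP
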