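import Pool.Agent.K9h46.LP.Win
set_option autoImplicit false
open Filter Topology Function
namespace Pool.Agent.K9h46.LP

noncomputable abbrev Hsp := lp (fun _ : ℤ => ℂ) 2

noncomputable def emb (L : ℕ) (φ : ℤ → ℝ) : Hsp := ∑ n ∈ Wn L, lp.single 2 n ((φ n : ℝ) : ℂ)

lemma emb_apply (L : ℕ) (φ : ℤ → ℝ) (h : ∀ n, n ∉ Wn L → φ n = 0) (n : ℤ) : emb L φ n = (φ n : ℂ) := by
  unfold emb
  rw [lp.coeFn_sum]
  simp only [lp.coeFn_single, Finset.sum_apply, Finset.sum_pi_single]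
  split_ifs with hn
  · rfl
  · rw [h n hn]; simp

lemma emb_norm_sq (L : ℕ) (φ : ℤ → ℝ) : ‖emb L φ‖ ^ 2 = dot L φ φ := by
  have h := lp.norm_sum_single (E := fun _ : ℤ => ℂ) (p := 2) (by norm_num) (fun n => ((φ n : ℝ) : ℂ)) (Wn L)
  have h2 : (2 : ENNReal).toReal = 2 := by norm_num
  rw [h2] at h
  unfold emb dot
  rw [← Real.rpow_natCast, Nat.cast_ofNat, h]
  apply Finset.sum_congr rfl
  intro n _
  rw [Complex.norm_real, Real.norm_eq_abs]
  have : |φ n| ^ (2:ℝ) = |φ n| ^ (2:ℕ) := by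
    rw [← Real.rpow_natCast]; norm_num
  rw [this, sq_abs, sq]

lemma emb_mono {L L' : ℕ} (hL : L ≤ L') (φ : ℤ → ℝ) (h : ∀ n, n ∉ Wn L → φ n = 0) :
    emb L φ = emb L' φ := by
  have h' : ∀ n, n ∉ Wn L' → φ n = 0 := fun n hn => h n (by
    intro hn'; apply hn; rw [Finset.mem_Icc] at *; omega)
  apply lp.ext
  funext n
  rw [emb_apply L φ h, emb_apply L' φ h']

lemma emb_sub (L : ℕ) (φ ψ : ℤ → ℝ) : emb L φ - emb L ψ = emb L (fun n => φ n - ψ n) := by
  unfold emb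
  rw [← Finset.sum_sub_distrib]
  apply Finset.sum_congr rfl
  intro n _
  push_cast
  rw [lp.single_sub]

/-- the ℓ² eigenvectors -/
def EigSet (V : ℤ → ℝ) : Set Hsp :=
  {ψ | ∃ E : ℝ, ∀ n : ℤ, ψ (n + 1) + ψ (n - 1) + (V n : ℂ) * ψ n = (E : ℂ) * ψ n}

/-- limits of window eigenvectors are eigenvectors. -/
lemma limit_eig (V : ℤ → ℝ) (L : ℕ → ℕ) (hL : ∀ i, i ≤ L i) (φ : ℕ → ℤ → ℝ) (E : ℕ → ℝ)
    (hφ : ∀ i, Ev V (L i) (E i) (φ i)) (ψ : Hsp)
    (hlim : Tendsto (fun i => emb (L i) (φ i)) atTop (𝓝 ψ)) : ψ ∈ EigSet V := by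
  -- coordinates converge
  have hc : ∀ n : ℤ, Tendsto (fun i => ((φ i n : ℝ) : ℂ)) atTop (𝓝 (ψ n)) := by
    intro n
    have h1 : Continuous (fun x : Hsp => (x : ∀ _ : ℤ, ℂ) n) :=
      (continuous_apply n).comp (lp.uniformContinuous_coe (E := fun _ : ℤ => ℂ) (p := 2)).continuous
    have h2 := (h1.tendsto ψ).comp hlim
    refine h2.congr ?_
    intro i
    exact emb_apply (L i) (φ i) (hφ i).1 n
  set g : ℤ → ℝ := fun n => (ψ n).re with hg
  have hcr : ∀ n : ℤ, Tendsto (fun i => φ i n) atTop (𝓝 (g n)) := by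
    intro n
    have := (Complex.continuous_re.tendsto (ψ n)).comp (hc n)
    exact this
  have hψ : ∀ n, ψ n = (g n : ℂ) := by
    intro n
    have h1 : Tendsto (fun i => ((φ i n : ℝ) : ℂ)) atTop (𝓝 ((g n : ℝ) : ℂ)) :=
      (Complex.continuous_ofReal.tendsto _).comp (hcr n)
    exact tendsto_nhds_unique (hc n) h1
  have hev : ∀ n : ℤ, ∀ᶠ i in atTop, φ i (n+1) + φ i (n-1) + V n * φ i n = E i * φ i n := by
    intro n
    filter_upwards [eventually_ge_atTop n.natAbs] with i hi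
    apply (hφ i).2
    have := hL i
    rw [Finset.mem_Icc]; omega
  by_cases h0 : ∃ n0, g n0 ≠ 0
  · obtain ⟨n0, hn0⟩ := h0
    have hE : Tendsto E atTop (𝓝 ((g (n0+1) + g (n0-1) + V n0 * g n0) / g n0)) := by
      have h1 : Tendsto (fun i => (φ i (n0+1) + φ i (n0-1) + V n0 * φ i n0) / φ i n0) atTop
          (𝓝 ((g (n0+1) + g (n0-1) + V n0 * g n0) / g n0)) :=
        ((((hcr _).add (hcr _)).add ((hcr _).const_mul _))).div (hcr _) hn0
      refine h1.congr' ?_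
      have hne : ∀ᶠ i in atTop, φ i n0 ≠ 0 := (hcr n0).eventually_ne hn0
      filter_upwards [hne, hev n0] with i hi1 hi2
      rw [hi2]; field_simp
    refine ⟨(g (n0+1) + g (n0-1) + V n0 * g n0) / g n0, fun n => ?_⟩
    have h1 : Tendsto (fun i => φ i (n+1) + φ i (n-1) + V n * φ i n) atTop
        (𝓝 (g (n+1) + g (n-1) + V n * g n)) := ((hcr _).add (hcr _)).add ((hcr _).const_mul _)
    have h2 : Tendsto (fun i => E i * φ i n) atTop
        (𝓝 ((g (n0+1) + g (n0-1) + V n0 * g n0) / g n0 * g n)) := hE.mul (hcr n)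
    have h3 := tendsto_nhds_unique (h1.congr' (hev n)) h2
    rw [hψ, hψ, hψ]
    have h4 := congrArg (fun x : ℝ => (x : ℂ)) h3
    push_cast at h4 ⊢
    exact h4
  · push Not at h0
    refine ⟨0, fun n => ?_⟩
    rw [hψ, hψ, hψ, h0, h0, h0]; simp

def Lw (j : ℕ) : ℕ := 2 * 2 ^ j
noncomputable def Nw (j : ℕ) : ℝ := 2 * (Lw j : ℝ) + 1
noncomputable def tw (j : ℕ) : ℝ := (1/8) ^ j / 100

lemma Nw_eq (j : ℕ) : Nw j = 4 * 2 ^ j + 1 := by unfold Nw Lw; push_cast; ring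

lemma Nw_pos (j : ℕ) : 0 < Nw j := by rw [Nw_eq]; positivity

lemma tw_pos (j : ℕ) : 0 < tw j := by unfold tw; positivity

lemma Lw_succ (j : ℕ) : Lw (j+1) = 2 * Lw j := by unfold Lw; ring

lemma j_lt_Lw (j : ℕ) : j < Lw j := by
  unfold Lw; have := Nat.lt_two_pow_self (n := j); omega

lemma thr (j : ℕ) : 1 / Nw (j+1) ^ 2 ≤ 1 / Nw j ^ 2 - tw j := by
  rw [Nw_eq, Nw_eq, tw]
  set x : ℝ := 2 ^ j with hx
  have hx1 : 1 ≤ x := one_le_pow₀ (by norm_num)
  have e : (1/8 : ℝ) ^ j = 1 / x ^ 3 := by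
    rw [hx, ← pow_mul, mul_comm, pow_mul, one_div_pow]; norm_num
  have e2 : (2:ℝ) ^ (j+1) = x * 2 := by rw [pow_succ, hx]
  rw [e, e2]
  have h1 : 1 / (4 * (x * 2) + 1) ^ 2 + 1 / x ^ 3 / 100 ≤ 1 / (4 * x + 1) ^ 2 := by
    rw [div_div, div_add_div _ _ (by positivity) (by positivity), div_le_div_iff₀ (by positivity) (by positivity)]
    have : x ^ 3 = x * x ^ 2 := by ring
    nlinarith [pow_pos (lt_of_lt_of_le one_pos hx1) 2, pow_pos (lt_of_lt_of_le one_pos hx1) 3,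
      pow_pos (lt_of_lt_of_le one_pos hx1) 4, pow_pos (lt_of_lt_of_le one_pos hx1) 5,
      mul_nonneg (sub_nonneg.2 hx1) (pow_pos (lt_of_lt_of_le one_pos hx1) 2).le,
      mul_nonneg (sub_nonneg.2 hx1) (pow_pos (lt_of_lt_of_le one_pos hx1) 3).le,
      mul_nonneg (sub_nonneg.2 hx1) (pow_pos (lt_of_lt_of_le one_pos hx1) 4).le]
  linarith

/-- hypotheses of the deterministic closure lemma -/
structure Good (V : ℤ → ℝ) (J : ℕ) (η s : ℕ → ℝ) : Prop where
  hη : ∀ j, 0 ≤ η j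
  hs : ∀ j, 0 < s j
  hηs : ∀ j, J ≤ j → 8 * η j * Nw j ^ 2 ≤ s j * tw j
  loc : ∀ j, J ≤ j → ∀ m : ℤ, |m| ≤ 2 ^ j → ¬ BadLoc V (Lw j) (η j) m (Lw j) ∧
    ¬ BadLoc V (Lw j) (η j) m (-(Lw j))
  sep : ∀ j, J ≤ j → ∀ m ∈ Wn (Lw (j+1)), ¬ BadPair V (Lw (j+1)) (s j) m

lemma Ev_smul {V : ℤ → ℝ} {L : ℕ} {E : ℝ} {φ : ℤ → ℝ} (h : Ev V L E φ) (σ : ℝ) :
    Ev V L E (fun n => σ * φ n) := by
  refine ⟨fun n hn => by simp only [h.1 n hn, mul_zero], fun n hn => ?_⟩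
  have := h.2 n hn
  linear_combination σ * this

lemma exists_large (L : ℕ) (φ : ℤ → ℝ) (h : dot L φ φ = 1) :
    ∃ m ∈ Wn L, 1 / (2 * L + 1 : ℝ) ≤ φ m ^ 2 := by
  apply Finset.exists_le_of_sum_le (s := Wn L) (f := fun _ => 1 / (2 * L + 1 : ℝ)) (g := fun m => φ m ^ 2)
  · exact ⟨0, by rw [Finset.mem_Icc]; omega⟩
  · rw [Finset.sum_const, Int.card_Icc, nsmul_eq_mul]
    have : ((L:ℤ) + 1 - (-(L:ℤ))).toNat = 2 * L + 1 := by omega
    rw [this]
    have h2 : ∑ m ∈ Wn L, φ m ^ 2 = 1 := by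
      rw [← h]; unfold dot; exact Finset.sum_congr rfl fun n _ => sq _
    rw [h2]
    push_cast
    rw [mul_one_div_cancel (by positivity)]

lemma sep_of {V : ℤ → ℝ} {L : ℕ} {s : ℝ} (h : ∀ m ∈ Wn L, ¬ BadPair V L s m) (E1 E2 : ℝ) (f1 f2 : ℤ → ℝ)
    (h1 : Ev V L E1 f1) (h2 : Ev V L E2 f2) (h3 : dot L f1 f1 = 1) (h4 : dot L f2 f2 = 1)
    (h5 : dot L f1 f2 = 0) : s < |E1 - E2| := by
  by_contra hcon
  obtain ⟨m, hm, hm2⟩ := exists_large L f1 h3
  exact h m hm ⟨E1, E2, f1, f2, h1, h2, h3, h4, h5, not_lt.1 hcon, hm2⟩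

lemma defect_ext (V : ℤ → ℝ) (L L' : ℕ) (E : ℝ) (φ : ℤ → ℝ) (h : Ev V L E φ) :
    dot L' (defect V E φ) (defect V E φ) ≤ φ L ^ 2 + φ (-(L:ℤ)) ^ 2 := by
  have hpt : ∀ n : ℤ, defect V E φ n * defect V E φ n ≤
      (if n = L + 1 then φ L ^ 2 else 0) + (if n = -(L:ℤ) - 1 then φ (-(L:ℤ)) ^ 2 else 0) := by
    intro n
    by_cases hn : n ∈ Wn L
    · have := h.2 n hn
      have e : defect V E φ n = 0 := by unfold defect; linarith
      rw [e, mul_zero]
      split_ifs <;> positivity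
    · have h0 := h.1 n hn
      rw [Finset.mem_Icc] at hn
      by_cases h1 : n = L + 1
      · subst h1
        have e : defect V E φ ((L:ℤ)+1) = φ L := by
          unfold defect
          rw [h.1 ((L:ℤ)+1+1) (by rw [Finset.mem_Icc]; omega), h0]
          simp
        rw [e, if_pos rfl, if_neg (by omega)]
        nlinarith
      · by_cases h2 : n = -(L:ℤ) - 1
        · subst h2
          have e : defect V E φ (-(L:ℤ)-1) = φ (-(L:ℤ)) := by
            unfold defect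
            rw [h.1 (-(L:ℤ)-1-1) (by rw [Finset.mem_Icc]; omega), h0]
            simp
          rw [e, if_neg (by omega), if_pos rfl]
          nlinarith
        · have e : defect V E φ n = 0 := by
            unfold defect
            rw [h.1 (n+1) (by rw [Finset.mem_Icc]; omega), h.1 (n-1) (by rw [Finset.mem_Icc]; omega), h0]
            simp
          rw [e, mul_zero]
          split_ifs <;> positivity
  unfold dot
  calc ∑ n ∈ Wn L', defect V E φ n * defect V E φ n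
      ≤ ∑ n ∈ Wn L', ((if n = (L:ℤ) + 1 then φ L ^ 2 else 0) + (if n = -(L:ℤ) - 1 then φ (-(L:ℤ)) ^ 2 else 0)) :=
        Finset.sum_le_sum fun n _ => hpt n
    _ ≤ _ := by
        rw [Finset.sum_add_distrib, Finset.sum_ite_eq', Finset.sum_ite_eq']
        gcongr <;> split_ifs <;> first | exact le_rfl | positivity

lemma step {V : ℤ → ℝ} {J : ℕ} {η s : ℕ → ℝ} (hG : Good V J η s) (j : ℕ) (hj : J ≤ j) (m : ℤ)
    (hm : |m| ≤ 2 ^ j) (E : ℝ) (φ : ℤ → ℝ) (h1 : Ev V (Lw j) E φ) (h2 : dot (Lw j) φ φ = 1)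
    (h3 : 1 / Nw j ^ 2 ≤ |φ m|) :
    ∃ (E' : ℝ) (φ' : ℤ → ℝ), (Ev V (Lw (j+1)) E' φ' ∧ dot (Lw (j+1)) φ' φ' = 1 ∧
      1 / Nw (j+1) ^ 2 ≤ |φ' m|) ∧ dot (Lw (j+1)) (fun n => φ n - φ' n) (fun n => φ n - φ' n) ≤ tw j ^ 2 := by
  have hN := Nw_pos j
  have ht := tw_pos j
  have hs := hG.hs j
  have hη := hG.hη j
  have hcond := hG.hηs j hj
  obtain ⟨hl1, hl2⟩ := hG.loc j hj m hm
  have ha : ∀ m' : ℤ, ¬ BadLoc V (Lw j) (η j) m m' → |φ m'| ≤ η j * Nw j ^ 2 := by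
    intro m' hb
    have h4 : |φ m * φ m'| < η j := by
      by_contra hcon
      exact hb ⟨E, φ, h1, h2, not_lt.1 hcon⟩
    rw [abs_mul] at h4
    have h5 : 1 / Nw j ^ 2 * |φ m'| ≤ η j := le_trans (by gcongr) h4.le
    rw [one_div_mul_eq_div, div_le_iff₀ (by positivity)] at h5
    exact h5
  have ha1 := ha _ hl1
  have ha2 := ha _ hl2
  set κ := 2 * (η j * Nw j ^ 2) with hκ
  have hκ0 : 0 ≤ κ := by positivity
  have htw1 : tw j ≤ 1 := by
    unfold tw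
    have : (1/8:ℝ)^j ≤ 1 := pow_le_one₀ (by norm_num) (by norm_num)
    linarith
  have hκs : 2 * κ ≤ s j := by
    calc 2 * κ ≤ 8 * η j * Nw j ^ 2 := by
          have : 0 ≤ η j * Nw j ^ 2 := by positivity
          rw [hκ]; linarith
      _ ≤ s j * tw j := hcond
      _ ≤ s j * 1 := by gcongr
      _ = s j := mul_one _
  have hLL : Lw j ≤ Lw (j+1) := by rw [Lw_succ]; omega
  have hout : ∀ n, n ∉ Wn (Lw (j+1)) → φ n = 0 := fun n hn => h1.1 n (by
    intro hn'; apply hn; rw [Finset.mem_Icc] at *; omega)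
  have hdot : dot (Lw (j+1)) φ φ = 1 := by
    rw [← emb_norm_sq, ← emb_mono hLL φ h1.1, emb_norm_sq, h2]
  have hd : dot (Lw (j+1)) (defect V E φ) (defect V E φ) ≤ κ ^ 2 := by
    refine (defect_ext V (Lw j) (Lw (j+1)) E φ h1).trans ?_
    have e1 : φ (Lw j) ^ 2 ≤ (η j * Nw j ^ 2) ^ 2 := by
      rw [← sq_abs]; gcongr
    have e2 : φ (-(Lw j : ℤ)) ^ 2 ≤ (η j * Nw j ^ 2) ^ 2 := by
      rw [← sq_abs]; gcongr
    have : κ ^ 2 = 4 * (η j * Nw j ^ 2) ^ 2 := by rw [hκ]; ring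
    rw [this]
    nlinarith [sq_nonneg (η j * Nw j ^ 2)]
  obtain ⟨E', f, σ, g1, g2, g3, g4⟩ := near_eigenvector V (Lw (j+1)) E κ (s j) hκ0 hs hκs
    (sep_of (hG.sep j hj)) φ hout hdot hd
  have hbound : dot (Lw (j+1)) (fun n => φ n - σ * f n) (fun n => φ n - σ * f n) ≤ tw j ^ 2 := by
    refine g4.trans ?_
    rw [div_le_iff₀ (by positivity)]
    have e1 : 8 * κ ^ 2 = (8 * η j * Nw j ^ 2) ^ 2 / 2 := by rw [hκ]; ring
    have e2 : (8 * η j * Nw j ^ 2) ^ 2 ≤ (s j * tw j) ^ 2 := by gcongr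
    rw [e1]
    have e3 : (s j * tw j) ^ 2 = tw j ^ 2 * s j ^ 2 := by ring
    have e4 : 0 ≤ (8 * η j * Nw j ^ 2) ^ 2 := sq_nonneg _
    linarith
  refine ⟨E', fun n => σ * f n, ⟨Ev_smul g1 σ, ?_, ?_⟩, hbound⟩
  · have : dot (Lw (j+1)) (fun n => σ * f n) (fun n => σ * f n) = σ ^ 2 * dot (Lw (j+1)) f f := by
      unfold dot; rw [Finset.mul_sum]; exact Finset.sum_congr rfl fun n _ => by ring
    rw [this, g3, g2, one_mul]
  · have hmW : m ∈ Wn (Lw (j+1)) := by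
      rw [Finset.mem_Icc]
      have := abs_le.1 hm
      have e : ((Lw (j+1) : ℕ) : ℤ) = 4 * 2 ^ j := by unfold Lw; push_cast; ring
      rw [e]
      have : (0:ℤ) < 2 ^ j := by positivity
      constructor <;> omega
    have h5 : (φ m - σ * f m) * (φ m - σ * f m) ≤ tw j ^ 2 :=
      le_trans (Finset.single_le_sum (f := fun n => (φ n - σ * f n) * (φ n - σ * f n))
        (fun i _ => mul_self_nonneg _) hmW) hbound
    have h6 : |φ m - σ * f m| ≤ tw j := by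
      rw [← abs_of_pos ht]
      exact sq_le_sq.1 (by rw [sq]; exact h5)
    have h7 : |φ m| ≤ |φ m - σ * f m| + |σ * f m| := by
      have := abs_add_le (φ m - σ * f m) (σ * f m)
      simpa using this
    have := thr j
    linarith

lemma orbit {V : ℤ → ℝ} {J : ℕ} {η s : ℕ → ℝ} (hG : Good V J η s) (j : ℕ) (hj : J ≤ j) (m : ℤ)
    (hm : |m| ≤ 2 ^ j) (E : ℝ) (φ : ℤ → ℝ) (h1 : Ev V (Lw j) E φ) (h2 : dot (Lw j) φ φ = 1)
    (h3 : 1 / Nw j ^ 2 ≤ |φ m|) : ∃ ψ ∈ EigSet V, ‖emb (Lw j) φ - ψ‖ ≤ 2 * tw j := by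
  set P : ℕ → ℝ × (ℤ → ℝ) → Prop := fun i p => Ev V (Lw (j+i)) p.1 p.2 ∧ dot (Lw (j+i)) p.2 p.2 = 1 ∧
    1 / Nw (j+i) ^ 2 ≤ |p.2 m| with hP
  have hstep : ∀ i p, P i p → ∃ p' : ℝ × (ℤ → ℝ), P (i+1) p' ∧
      dot (Lw (j+(i+1))) (fun n => p.2 n - p'.2 n) (fun n => p.2 n - p'.2 n) ≤ tw (j+i) ^ 2 := by
    intro i p hp
    have hm' : |m| ≤ 2 ^ (j+i) := hm.trans (pow_le_pow_right₀ (by norm_num) (by omega))
    obtain ⟨E', φ', g1, g2⟩ := step hG (j+i) (by omega) m hm' p.1 p.2 hp.1 hp.2.1 hp.2.2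
    exact ⟨(E', φ'), g1, g2⟩
  choose! nxt hn1 hn2 using hstep
  set F : ℕ → ℝ × (ℤ → ℝ) := fun i => Nat.rec (E, φ) (fun i p => nxt i p) i with hF
  have hF0 : F 0 = (E, φ) := rfl
  have hFs : ∀ i, F (i+1) = nxt i (F i) := fun i => rfl
  have hPF : ∀ i, P i (F i) := by
    intro i
    induction i with
    | zero => rw [hF0]; exact ⟨h1, h2, h3⟩
    | succ i ih => rw [hFs]; exact hn1 i _ ih
  set x : ℕ → Hsp := fun i => emb (Lw (j+i)) (F i).2 with hx
  have hdist : ∀ i, dist (x i) (x (i+1)) ≤ tw j * (1/8) ^ i := by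
    intro i
    have hle : Lw (j+i) ≤ Lw (j+(i+1)) := by
      have := Lw_succ (j+i); rw [← add_assoc, this]; omega
    rw [dist_eq_norm, hx]
    simp only
    rw [emb_mono hle _ (hPF i).1.1, emb_sub]
    have h4 := hn2 i (F i) (hPF i)
    rw [← hFs, ← emb_norm_sq] at h4
    have h5 : tw (j+i) = tw j * (1/8) ^ i := by unfold tw; rw [pow_add]; ring
    rw [← h5]
    exact le_of_sq_le_sq h4 (tw_pos _).le
  have hc := cauchySeq_of_le_geometric (1/8) (tw j) (by norm_num) hdist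
  obtain ⟨ψ, hψ⟩ := cauchySeq_tendsto_of_complete hc
  refine ⟨ψ, ?_, ?_⟩
  · refine limit_eig V (fun i => Lw (j+i)) (fun i => ?_) (fun i => (F i).2) (fun i => (F i).1)
      (fun i => (hPF i).1) ψ hψ
    have := j_lt_Lw (j+i); omega
  · have h4 := dist_le_of_le_geometric_of_tendsto₀ (1/8) (tw j) (by norm_num) hdist hψ
    rw [dist_eq_norm] at h4
    have h5 : x 0 = emb (Lw j) φ := rfl
    rw [h5] at h4
    refine h4.trans ?_
    have := tw_pos j
    rw [div_le_iff₀ (by norm_num)]; linarith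

lemma err_bound (j : ℕ) : Nw j * (1 / Nw j ^ 2 + 2 * tw j) ≤ (1/2) ^ j := by
  have hN := Nw_pos j
  have e1 : Nw j * (1 / Nw j ^ 2 + 2 * tw j) = 1 / Nw j + 2 * Nw j * tw j := by
    field_simp
  rw [e1, Nw_eq, tw]
  set x : ℝ := 2 ^ j with hx
  have hx1 : 1 ≤ x := one_le_pow₀ (by norm_num)
  have e : (1/8 : ℝ) ^ j = 1 / x ^ 3 := by
    rw [hx, ← pow_mul, mul_comm, pow_mul, one_div_pow]; norm_num
  have e2 : (1/2 : ℝ) ^ j = 1 / x := by
    rw [hx, one_div_pow]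
  rw [e, e2]
  have h1 : 1 / (4 * x + 1) ≤ (1/4) * (1 / x) := by
    rw [div_mul_div_comm, one_mul]
    apply one_div_le_one_div_of_le (by positivity)
    linarith
  have h2 : 2 * (4 * x + 1) * (1 / x ^ 3 / 100) ≤ (1/2) * (1 / x) := by
    rw [div_div, mul_one_div, div_mul_div_comm, one_mul, div_le_div_iff₀ (by positivity) (by positivity)]
    nlinarith [mul_nonneg (sub_nonneg.2 hx1) (sub_nonneg.2 hx1)]
  have h3 : 0 < 1 / x := by positivity
  linarith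

theorem closure_top {V : ℤ → ℝ} {J : ℕ} {η s : ℕ → ℝ} (hG : Good V J η s) :
    (Submodule.span ℂ (EigSet V)).topologicalClosure = ⊤ := by
  set S := Submodule.span ℂ (EigSet V) with hS
  have hsingle : ∀ m : ℤ, lp.single (E := fun _ : ℤ => ℂ) 2 m (1:ℂ) ∈ S.topologicalClosure := by
    intro m
    rw [← SetLike.mem_coe, Submodule.topologicalClosure_coe, Metric.mem_closure_iff]
    intro ε hε
    obtain ⟨j0, hj0⟩ := exists_pow_lt_of_lt_one hε (by norm_num : (1/2:ℝ) < 1)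
    set j := max j0 (max J m.natAbs) with hj
    have hjJ : J ≤ j := by omega
    have hjm : m.natAbs ≤ j := by omega
    have hm : |m| ≤ 2 ^ j := by
      have h1 : m.natAbs < 2 ^ j := lt_of_le_of_lt hjm Nat.lt_two_pow_self
      have h2 : |m| = (m.natAbs : ℤ) := by simp
      rw [h2]; exact_mod_cast h1.le
    obtain ⟨e, f, he, ho, hf⟩ := spectral V (Lw j)
    have hmW : m ∈ Wn (Lw j) := by
      rw [Finset.mem_Icc]
      have := abs_le.1 hm
      have e : ((Lw j : ℕ) : ℤ) = 2 * 2 ^ j := by unfold Lw; push_cast; ring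
      rw [e]
      have : (0:ℤ) < 2 ^ j := by positivity
      constructor <;> omega
    have hN := Nw_pos j
    have ht := tw_pos j
    -- approximants
    have hψ : ∀ i, ∃ ψ ∈ S, ‖((f i m : ℝ) : ℂ) • emb (Lw j) (f i) - ((f i m : ℝ) : ℂ) • ψ‖
        ≤ 1 / Nw j ^ 2 + 2 * tw j := by
      intro i
      have hfi : dot (Lw j) (f i) (f i) = 1 := by rw [ho]; simp
      have hle1 : |f i m| ≤ 1 := abs_le.2 (abs_le_one_of_dot (he i).1 hfi m)
      by_cases hc : 1 / Nw j ^ 2 ≤ |f i m|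
      · obtain ⟨ψ, h1, h2⟩ := orbit hG j hjJ m hm (e i) (f i) (he i) hfi hc
        refine ⟨ψ, Submodule.subset_span h1, ?_⟩
        rw [← smul_sub, norm_smul, Complex.norm_real, Real.norm_eq_abs]
        calc |f i m| * ‖emb (Lw j) (f i) - ψ‖ ≤ 1 * (2 * tw j) := by gcongr
          _ ≤ _ := by
            have : 0 < 1 / Nw j ^ 2 := by positivity
            linarith
      · refine ⟨0, Submodule.zero_mem _, ?_⟩
        rw [smul_zero, sub_zero, norm_smul, Complex.norm_real, Real.norm_eq_abs]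
        have hn : ‖emb (Lw j) (f i)‖ = 1 := by
          have := emb_norm_sq (Lw j) (f i)
          rw [hfi] at this
          exact (pow_eq_one_iff_of_nonneg (norm_nonneg _) (by norm_num)).1 this
        rw [hn, mul_one]
        have := (not_le.1 hc).le
        linarith
    choose ψ hψS hψn using hψ
    refine ⟨∑ i, ((f i m : ℝ) : ℂ) • ψ i, S.sum_mem fun i _ => S.smul_mem _ (hψS i), ?_⟩
    have hdelta : lp.single (E := fun _ : ℤ => ℂ) 2 m (1:ℂ) = ∑ i, ((f i m : ℝ) : ℂ) • emb (Lw j) (f i) := by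
      apply lp.ext
      funext n
      rw [lp.coeFn_sum, Finset.sum_apply]
      have h1 : ∀ i, (((f i m : ℝ) : ℂ) • emb (Lw j) (f i)) n = ((f i m * f i n : ℝ) : ℂ) := by
        intro i
        rw [lp.coeFn_smul, Pi.smul_apply, emb_apply _ _ (he i).1, smul_eq_mul]
        push_cast; rfl
      simp only [h1]
      rw [← Complex.ofReal_sum, lp.single_apply]
      by_cases hn : n ∈ Wn (Lw j)
      · rw [hf m hmW n hn]
        by_cases hmn : m = n
        · subst hmn; simp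
        · rw [if_neg hmn, Pi.single_eq_of_ne (fun h => hmn h.symm)]; simp
      · have hmn : n ≠ m := fun h => hn (h ▸ hmW)
        rw [Pi.single_eq_of_ne hmn]
        symm
        rw [Finset.sum_eq_zero]
        · simp
        · intro i _; rw [(he i).1 n hn, mul_zero]
    rw [dist_eq_norm, hdelta, ← Finset.sum_sub_distrib]
    calc ‖∑ i, (((f i m : ℝ) : ℂ) • emb (Lw j) (f i) - ((f i m : ℝ) : ℂ) • ψ i)‖
        ≤ ∑ i, ‖((f i m : ℝ) : ℂ) • emb (Lw j) (f i) - ((f i m : ℝ) : ℂ) • ψ i‖ := norm_sum_le _ _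
      _ ≤ ∑ i : Wn (Lw j), (1 / Nw j ^ 2 + 2 * tw j) := Finset.sum_le_sum fun i _ => hψn i
      _ = Nw j * (1 / Nw j ^ 2 + 2 * tw j) := by
          rw [Finset.sum_const, Finset.card_univ, Fintype.card_coe, Int.card_Icc, nsmul_eq_mul]
          congr 1
          have : ((Lw j:ℤ) + 1 - (-(Lw j:ℤ))).toNat = 2 * Lw j + 1 := by omega
          rw [this]; unfold Nw; push_cast; ring
      _ ≤ (1/2) ^ j := err_bound j
      _ ≤ (1/2) ^ j0 := pow_le_pow_of_le_one (by norm_num) (by norm_num) (by omega)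
      _ < ε := hj0
  rw [Submodule.eq_top_iff']
  intro x
  have hx := lp.hasSum_single (E := fun _ : ℤ => ℂ) (p := 2) (by norm_num) x
  have hclosed : IsClosed (S.topologicalClosure : Set Hsp) := Submodule.isClosed_topologicalClosure _
  refine hclosed.mem_of_tendsto hx (Filter.Eventually.of_forall fun F => ?_)
  refine Submodule.sum_mem _ fun m _ => ?_
  have h1 : lp.single (E := fun _ : ℤ => ℂ) 2 m (x m) = (x m) • lp.single (E := fun _ : ℤ => ℂ) 2 m (1:ℂ) := by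
    rw [← lp.single_smul]; simp
  rw [h1]
  exact Submodule.smul_mem _ _ (hsingle m)

end Pool.Agent.K9h46.LP
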