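import Mathlib
set_option autoImplicit false
open MeasureTheory ENNReal Set
namespace Pool.Agent.K9h46.LP

/-- Average of `f` over the interval `[y-δ, y]`. -/
noncomputable def KK (δ : ℝ) (f : ℝ → ℝ≥0∞) (y : ℝ) : ℝ≥0∞ :=
  ∫⁻ v in Icc (0:ℝ) 1, f (y - δ * v)

noncomputable def SS (c : ℝ) (G : ℝ → ℝ≥0∞) (x : ℝ) : ℝ≥0∞ :=
  ENNReal.ofReal (|x|⁻¹) * G (c - 1 / x)

lemma measurable_KK (δ : ℝ) {f : ℝ → ℝ≥0∞} (hf : Measurable f) : Measurable (KK δ f) := by
  unfold KK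
  apply Measurable.lintegral_prod_right' (f := fun p : ℝ × ℝ => f (p.1 - δ * p.2))
  exact hf.comp (by fun_prop)

lemma measurable_SS (c : ℝ) {G : ℝ → ℝ≥0∞} (hG : Measurable G) : Measurable (SS c G) := by
  unfold SS
  apply Measurable.mul
  · fun_prop
  · exact hG.comp (by fun_prop)

instance : IsProbabilityMeasure (volume.restrict (Icc (0:ℝ) 1)) := by
  constructor; simp

lemma sq_lintegral_le {α : Type*} [MeasurableSpace α] (μ : Measure α) [IsProbabilityMeasure μ]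
    {f : α → ℝ≥0∞} (hf : Measurable f) : (∫⁻ x, f x ∂μ) ^ 2 ≤ ∫⁻ x, f x ^ 2 ∂μ := by
  have h := ENNReal.lintegral_mul_le_Lp_mul_Lq μ (p := 2) (q := 2) (by
    constructor <;> norm_num) hf.aemeasurable (g := fun _ => 1) aemeasurable_const
  simp only [Pi.mul_apply, mul_one, ENNReal.one_rpow, lintegral_const, measure_univ] at h
  have h2 : (∫⁻ x, f x ∂μ) ^ 2 ≤ ((∫⁻ x, f x ^ (2:ℝ) ∂μ) ^ (1/2 : ℝ)) ^ 2 := by gcongr
  refine h2.trans (le_of_eq ?_)
  rw [← ENNReal.rpow_natCast, ← ENNReal.rpow_mul]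
  norm_num

lemma KK_sq_le (δ : ℝ) {f : ℝ → ℝ≥0∞} (hf : Measurable f) (y : ℝ) :
    (KK δ f y) ^ 2 ≤ KK δ (fun x => f x ^ 2) y := by
  unfold KK
  exact sq_lintegral_le _ (hf.comp (by fun_prop))

lemma lintegral_KK (δ : ℝ) {f : ℝ → ℝ≥0∞} (hf : Measurable f) :
    ∫⁻ y, KK δ f y = ∫⁻ y, f y := by
  unfold KK
  rw [lintegral_lintegral_swap]
  · have : ∀ v : ℝ, ∫⁻ y, f (y - δ * v) = ∫⁻ y, f y := fun v =>
      lintegral_sub_right_eq_self f (δ * v)
    simp [this]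
  · exact (hf.comp (by fun_prop : Measurable fun p : ℝ × ℝ => p.1 - δ * p.2)).aemeasurable

lemma KK_half (δ : ℝ) {f : ℝ → ℝ≥0∞} (hf : Measurable f) (y : ℝ) :
    KK δ f y = KK (δ/2) (fun x => (f x + f (x - δ/2)) / 2) y := by
  unfold KK
  have h1 : ∀ F : ℝ → ℝ≥0∞, ∫⁻ v in Icc (0:ℝ) 1, F v = ∫⁻ v in Ico (0:ℝ) 1, F v := by
    intro F
    rw [Measure.restrict_congr_set (Ico_ae_eq_Icc (a := (0:ℝ)) (b := 1))]
  rw [h1, h1]
  have hsplit : Ico (0:ℝ) 1 = Ico (0:ℝ) (1/2) ∪ Ico (1/2:ℝ) 1 :=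
    (Ico_union_Ico_eq_Ico (by norm_num) (by norm_num)).symm
  have hd : Disjoint (Ico (0:ℝ) (1/2)) (Ico (1/2:ℝ) 1) := by
    rw [Set.disjoint_left]; intro x hx hx'; exact absurd hx.2 (not_lt.2 hx'.1)
  have e1 : ∫⁻ v in Ico (0:ℝ) 1, f (y - δ * v)
      = (∫⁻ v in Ico (0:ℝ) (1/2), f (y - δ * v)) + ∫⁻ v in Ico (1/2:ℝ) 1, f (y - δ * v) := by
    rw [hsplit, lintegral_union measurableSet_Ico hd]
  have i1 : (fun w : ℝ => w / 2) '' (Ico (0:ℝ) 1) = Ico (0:ℝ) (1/2) := by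
    ext x; simp only [mem_image, mem_Ico]
    constructor
    · rintro ⟨w, ⟨h0, h1⟩, rfl⟩; constructor <;> linarith
    · rintro ⟨h0, h1⟩; exact ⟨2 * x, ⟨by linarith, by linarith⟩, by ring⟩
  have i2 : (fun w : ℝ => (1 + w) / 2) '' (Ico (0:ℝ) 1) = Ico (1/2:ℝ) 1 := by
    ext x; simp only [mem_image, mem_Ico]
    constructor
    · rintro ⟨w, ⟨h0, h1⟩, rfl⟩; constructor <;> linarith
    · rintro ⟨h0, h1⟩; exact ⟨2 * x - 1, ⟨by linarith, by linarith⟩, by ring⟩
  have e2 : ∫⁻ v in Ico (0:ℝ) (1/2), f (y - δ * v)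
      = ∫⁻ w in Ico (0:ℝ) 1, ENNReal.ofReal |1/2| * f (y - δ * (w / 2)) := by
    rw [← i1]
    apply lintegral_image_eq_lintegral_abs_deriv_mul (f' := fun _ => (1/2 : ℝ)) measurableSet_Ico
      (g := fun v => f (y - δ * v))
    · intro x _; exact ((hasDerivAt_id x).div_const 2).hasDerivWithinAt
    · intro a _ b _ h; simpa using h
  have e3 : ∫⁻ v in Ico (1/2:ℝ) 1, f (y - δ * v)
      = ∫⁻ w in Ico (0:ℝ) 1, ENNReal.ofReal |1/2| * f (y - δ * ((1 + w) / 2)) := by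
    rw [← i2]
    apply lintegral_image_eq_lintegral_abs_deriv_mul (f' := fun _ => (1/2 : ℝ)) measurableSet_Ico
      (g := fun v => f (y - δ * v))
    · intro x _; exact (((hasDerivAt_id x).const_add 1).div_const 2).hasDerivWithinAt
    · intro a _ b _ h
      have : (1 + a)/2 = (1 + b)/2 := h
      linarith
  rw [e1, e2, e3, ← lintegral_add_left]
  · apply lintegral_congr
    intro w
    have hh : ENNReal.ofReal |(1:ℝ)/2| = 2⁻¹ := by
      rw [abs_of_pos (by norm_num), one_div, ENNReal.ofReal_inv_of_pos (by norm_num)]; simp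
    simp only [hh, ENNReal.div_eq_inv_mul, mul_add]
    congr 3 <;> ring_nf
  · exact (hf.comp (by fun_prop)).const_mul _

lemma parallelogram (a b : ℝ≥0∞) :
    ((a + b) / 2) ^ 2 + (a - b) ^ 2 / 4 ≤ (a ^ 2 + b ^ 2) / 2 := by
  by_cases ha : a = ∞
  · subst ha
    simp [ENNReal.top_pow, ENNReal.top_div]
  by_cases hb : b = ∞
  · subst hb
    simp [ENNReal.top_pow, ENNReal.top_div]
  lift a to NNReal using ha
  lift b to NNReal using hb
  have key : ((a + b) / 2) ^ 2 + (a - b) ^ 2 / 4 ≤ (a ^ 2 + b ^ 2) / 2 := by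
    rcases le_total b a with h | h
    · rw [← NNReal.coe_le_coe]
      push_cast [NNReal.coe_sub h]
      nlinarith [sq_nonneg ((a:ℝ) - b)]
    · rw [tsub_eq_zero_of_le h]
      rw [← NNReal.coe_le_coe]
      push_cast
      nlinarith [sq_nonneg ((a:ℝ) - b)]
  have := ENNReal.coe_le_coe.2 key
  push_cast at this
  exact this

/-- the defect of translation invariance -/
noncomputable def DD (δ : ℝ) (f : ℝ → ℝ≥0∞) : ℝ≥0∞ :=
  ∫⁻ x, (f x - f (x + δ/2)) ^ 2

lemma KK_energy (δ : ℝ) {f : ℝ → ℝ≥0∞} (hf : Measurable f) :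
    (∫⁻ y, (KK δ f y) ^ 2) + DD δ f / 4 ≤ ∫⁻ y, f y ^ 2 := by
  have hf' : Measurable (fun x => f (x - δ/2)) := hf.comp (by fun_prop)
  have hh : Measurable (fun x => (f x + f (x - δ/2)) / 2) := (hf.add hf').div_const _
  have h1 : ∫⁻ y, (KK δ f y) ^ 2 ≤ ∫⁻ x, ((f x + f (x - δ/2)) / 2) ^ 2 := by
    calc ∫⁻ y, (KK δ f y) ^ 2
        = ∫⁻ y, (KK (δ/2) (fun x => (f x + f (x - δ/2)) / 2) y) ^ 2 := by
          apply lintegral_congr; intro y; rw [KK_half δ hf y]
      _ ≤ ∫⁻ y, KK (δ/2) (fun x => ((f x + f (x - δ/2)) / 2) ^ 2) y := by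
          apply lintegral_mono; intro y; exact KK_sq_le _ hh y
      _ = _ := lintegral_KK _ (hh.pow_const 2)
  have h2 : DD δ f = ∫⁻ x, (f (x - δ/2) - f x) ^ 2 := by
    unfold DD
    rw [← lintegral_sub_right_eq_self (fun x => (f x - f (x + δ/2)) ^ 2) (δ/2)]
    apply lintegral_congr; intro x
    simp
  have h3 : (∫⁻ x, ((f x + f (x - δ/2)) / 2) ^ 2) + (∫⁻ x, (f (x - δ/2) - f x) ^ 2) / 4
      ≤ ∫⁻ x, (f (x - δ/2) ^ 2 + f x ^ 2) / 2 := by
    rw [ENNReal.div_eq_inv_mul, ← lintegral_const_mul' _ _ (by simp), ← lintegral_add_left (hh.pow_const 2)]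
    apply lintegral_mono
    intro x
    have := parallelogram (f (x - δ/2)) (f x)
    rw [add_comm (f (x - δ/2)) (f x)] at this
    rw [ENNReal.div_eq_inv_mul (a := (f (x - δ/2) - f x)^2) (b := 4)] at this
    exact this
  have h4 : ∫⁻ x, (f (x - δ/2) ^ 2 + f x ^ 2) / 2 = ∫⁻ y, f y ^ 2 := by
    simp only [ENNReal.div_eq_inv_mul]
    rw [lintegral_const_mul' _ _ (by simp), lintegral_add_left (hf'.pow_const 2),
      lintegral_sub_right_eq_self (fun x => f x ^ 2) (δ/2), ← two_mul, ← mul_assoc,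
      ENNReal.inv_mul_cancel (by norm_num) (by norm_num), one_mul]
  calc (∫⁻ y, (KK δ f y) ^ 2) + DD δ f / 4
      ≤ (∫⁻ x, ((f x + f (x - δ/2)) / 2) ^ 2) + (∫⁻ x, (f (x - δ/2) - f x) ^ 2) / 4 := by
        rw [h2]; gcongr
    _ ≤ _ := h3
    _ = _ := h4

lemma sq_add_le (a b : ℝ≥0∞) : (a + b) ^ 2 ≤ 2 * a ^ 2 + 2 * b ^ 2 := by
  by_cases ha : a = ∞
  · subst ha; simp [ENNReal.top_pow]
  by_cases hb : b = ∞
  · subst hb; simp [ENNReal.top_pow]
  lift a to NNReal using ha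
  lift b to NNReal using hb
  have key : (a + b) ^ 2 ≤ 2 * a ^ 2 + 2 * b ^ 2 := by
    rw [← NNReal.coe_le_coe]
    push_cast
    nlinarith [sq_nonneg ((a:ℝ) - b)]
  have := ENNReal.coe_le_coe.2 key
  push_cast at this
  exact this

lemma sq_sum_le (m : ℕ) (d : ℕ → ℝ≥0∞) :
    (∑ i ∈ Finset.range m, d i) ^ 2 ≤ 2 ^ m * ∑ i ∈ Finset.range m, d i ^ 2 := by
  induction m with
  | zero => simp
  | succ m ih =>
    rw [Finset.sum_range_succ, Finset.sum_range_succ]
    calc (∑ i ∈ Finset.range m, d i + d m) ^ 2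
        ≤ 2 * (∑ i ∈ Finset.range m, d i) ^ 2 + 2 * d m ^ 2 := sq_add_le _ _
      _ ≤ 2 * (2 ^ m * ∑ i ∈ Finset.range m, d i ^ 2) + 2 ^ (m+1) * d m ^ 2 := by
        gcongr
        calc (2:ℝ≥0∞) = 2 ^ 1 := by norm_num
          _ ≤ 2 ^ (m+1) := pow_le_pow_right₀ (by norm_num) (by omega)
      _ = _ := by ring

lemma tele (f : ℝ → ℝ≥0∞) (d x : ℝ) (m : ℕ) :
    f x ≤ (∑ i ∈ Finset.range m, (f (x + i * d) - f (x + (i+1:ℕ) * d))) + f (x + m * d) := by
  induction m with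
  | zero => simp
  | succ m ih =>
    rw [Finset.sum_range_succ, add_assoc]
    refine ih.trans ?_
    gcongr
    exact le_tsub_add

lemma mass_le {δ : ℝ} (hδ : 0 < δ) (r : ℕ) {f : ℝ → ℝ≥0∞} (hf : Measurable f) (a : ℝ) :
    8 * ∫⁻ x in Ico a (a + r * (δ/2)), f x ^ 2
      ≤ 16 * (2 ^ (8 * r) * ((8 * r : ℕ) * DD δ f)) + 2 * ∫⁻ x, f x ^ 2 := by
  set d : ℝ := δ / 2 with hd
  have hdpos : 0 < d := by positivity
  set J : Set ℝ := Ico a (a + r * d) with hJ
  set S : ℝ → ℝ≥0∞ := fun x => ∑ i ∈ Finset.range (8 * r), (f (x + i * d) - f (x + (i+1:ℕ) * d))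
    with hS
  have hmS : Measurable S := by
    apply Finset.measurable_sum
    intro i _
    exact (hf.comp (by fun_prop)).sub (hf.comp (by fun_prop))
  -- pointwise
  have hpt : ∀ j ∈ Finset.range 8, ∀ x, f x ^ 2 ≤ 2 * S x ^ 2 + 2 * f (x + j * (r * d)) ^ 2 := by
    intro j hj x
    have h1 : f x ≤ S x + f (x + j * (r * d)) := by
      refine (tele f d x (j * r)).trans ?_
      have hle : j * r ≤ 8 * r := Nat.mul_le_mul_right _ (Finset.mem_range.1 hj).le
      have e : ((j * r : ℕ) : ℝ) * d = j * (r * d) := by push_cast; ring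
      rw [e]
      gcongr
      exact Finset.sum_le_sum_of_subset (Finset.range_subset_range.2 hle)
    calc f x ^ 2 ≤ (S x + f (x + j * (r * d))) ^ 2 := by gcongr
      _ ≤ _ := sq_add_le _ _
  have hSsq : ∫⁻ x, S x ^ 2 ≤ 2 ^ (8 * r) * ((8 * r : ℕ) * DD δ f) := by
    calc ∫⁻ x, S x ^ 2
        ≤ ∫⁻ x, 2 ^ (8 * r) * ∑ i ∈ Finset.range (8 * r),
            (f (x + i * d) - f (x + (i+1:ℕ) * d)) ^ 2 := by
          apply lintegral_mono; intro x; exact sq_sum_le _ _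
      _ = 2 ^ (8 * r) * ∑ i ∈ Finset.range (8 * r), ∫⁻ x,
            (f (x + i * d) - f (x + (i+1:ℕ) * d)) ^ 2 := by
          rw [lintegral_const_mul' _ _ (by finiteness), lintegral_finsetSum]
          intro i _
          exact ((hf.comp (by fun_prop)).sub (hf.comp (by fun_prop))).pow_const 2
      _ = 2 ^ (8 * r) * ∑ i ∈ Finset.range (8 * r), DD δ f := by
          congr 1
          apply Finset.sum_congr rfl
          intro i _
          unfold DD
          rw [← lintegral_add_right_eq_self (fun x => (f x - f (x + δ/2)) ^ 2) (i * d)]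
          apply lintegral_congr; intro x
          congr 3
          push_cast; rw [hd]; ring
      _ = _ := by simp
  have hpart : ∑ j ∈ Finset.range 8, ∫⁻ x in J, f (x + j * (r * d)) ^ 2 ≤ ∫⁻ x, f x ^ 2 := by
    have e : ∀ j ∈ Finset.range 8, ∫⁻ x in J, f (x + j * (r * d)) ^ 2
        = ∫⁻ x in Ico (a + j * (r * d)) (a + (j+1:ℕ) * (r * d)), f x ^ 2 := by
      intro j _
      rw [← (measurePreserving_add_right volume ((j:ℝ) * (r * d))).setLIntegral_comp_preimage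
        measurableSet_Ico (hf.pow_const 2)]
      rw [Set.preimage_add_const_Ico, hJ]
      congr 3
      · ring
      · push_cast; ring
    rw [Finset.sum_congr rfl e]
    have hmono : Monotone (fun j : ℕ => a + (j:ℝ) * (r * d)) := by
      intro j k hjk
      have : (j:ℝ) ≤ k := by exact_mod_cast hjk
      have h0 : 0 ≤ (r:ℝ) * d := by positivity
      simp only
      nlinarith
    have hdis := hmono.pairwise_disjoint_on_Ico_succ
    rw [← lintegral_biUnion_finset (s := Finset.range 8)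
      (t := fun j : ℕ => Ico (a + (j:ℝ) * (r * d)) (a + ((j+1:ℕ):ℝ) * (r * d)))]
    · exact setLIntegral_le_lintegral _ _
    · intro i _ j _ hij
      exact hdis hij
    · intro j _; exact measurableSet_Ico
  calc 8 * ∫⁻ x in J, f x ^ 2
      = ∑ j ∈ Finset.range 8, ∫⁻ x in J, f x ^ 2 := by simp
    _ ≤ ∑ j ∈ Finset.range 8, (2 * (∫⁻ x, S x ^ 2) + 2 * ∫⁻ x in J, f (x + j * (r * d)) ^ 2) := by
        apply Finset.sum_le_sum
        intro j hj
        calc ∫⁻ x in J, f x ^ 2 ≤ ∫⁻ x in J, (2 * S x ^ 2 + 2 * f (x + j * (r * d)) ^ 2) := by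
              apply lintegral_mono; intro x; exact hpt j hj x
          _ = 2 * (∫⁻ x in J, S x ^ 2) + 2 * ∫⁻ x in J, f (x + j * (r * d)) ^ 2 := by
              rw [lintegral_add_left ((hmS.pow_const 2).const_mul 2),
                lintegral_const_mul' _ _ (by simp), lintegral_const_mul' _ _ (by simp)]
          _ ≤ _ := by
              gcongr
              exact Measure.restrict_le_self
    _ = 16 * (∫⁻ x, S x ^ 2) + 2 * ∑ j ∈ Finset.range 8, ∫⁻ x in J, f (x + j * (r * d)) ^ 2 := by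
        rw [Finset.sum_add_distrib, Finset.mul_sum]
        simp
        ring
    _ ≤ _ := by gcongr

lemma mass_K {δ : ℝ} (hδ : 0 < δ) {f : ℝ → ℝ≥0∞} (hf : Measurable f) (a b c : ℝ) (hab : b - a + δ ≤ c) :
    ∫⁻ y in Ico a b, (KK δ f y) ^ 2 ≤ ∫⁻ x in Ico (a - δ) (a - δ + c), f x ^ 2 := by
  calc ∫⁻ y in Ico a b, (KK δ f y) ^ 2
      ≤ ∫⁻ y in Ico a b, KK δ (fun x => f x ^ 2) y := by
        apply lintegral_mono; intro y; exact KK_sq_le δ hf y
    _ = ∫⁻ v in Icc (0:ℝ) 1, ∫⁻ y in Ico a b, f (y - δ * v) ^ 2 := by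
        unfold KK
        rw [lintegral_lintegral_swap]
        exact ((hf.comp (by fun_prop : Measurable fun p : ℝ × ℝ => p.1 - δ * p.2)).pow_const 2).aemeasurable
    _ ≤ ∫⁻ v in Icc (0:ℝ) 1, ∫⁻ x in Ico (a - δ) (a - δ + c), f x ^ 2 := by
        apply setLIntegral_mono measurable_const
        intro v hv
        have : ∫⁻ y in Ico a b, f (y - δ * v) ^ 2
            = ∫⁻ y in Ico (a - δ * v) (b - δ * v), f y ^ 2 := by
          rw [← (measurePreserving_sub_right volume (δ * v)).setLIntegral_comp_preimage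
            measurableSet_Ico (hf.pow_const 2)]
          congr 2
          ext x; simp
        rw [this]
        apply lintegral_mono_set
        intro x hx
        have h1 : δ * v ≤ δ := by nlinarith [hv.2]
        have h2 : 0 ≤ δ * v := by nlinarith [hv.1]
        constructor
        · linarith [hx.1]
        · linarith [hx.2]
    _ = _ := by simp

lemma subst_SS (c : ℝ) (G : ℝ → ℝ≥0∞) (s A : Set ℝ) (hs : MeasurableSet s) (h0 : (0:ℝ) ∉ s)
    (hA : ∀ x ∈ s, c - 1 / x ∈ A) :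
    ∫⁻ x in s, (SS c G x) ^ 2 ≤ ∫⁻ z in A, (G z) ^ 2 := by
  have hne : ∀ x ∈ s, x ≠ 0 := fun x hx h => h0 (h ▸ hx)
  have key := lintegral_image_eq_lintegral_abs_deriv_mul (s := s) (f := fun x => c - 1 / x)
    (f' := fun x => 1 / x ^ 2) hs (fun x hx => by
      have h := ((hasDerivAt_inv (hne x hx)).const_sub c).hasDerivWithinAt (s := s)
      have e1 : (fun x : ℝ => c - 1 / x) = fun x => c - x⁻¹ := by funext y; simp
      have e2 : 1 / x ^ 2 = - -(x ^ 2)⁻¹ := by simp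
      rw [e1, e2]
      exact h) (by
      intro a ha b hb h
      have : 1 / a = 1 / b := by simpa using h
      field_simp [hne a ha, hne b hb] at this
      exact this.symm) (fun z => G z ^ 2)
  calc ∫⁻ x in s, (SS c G x) ^ 2
      = ∫⁻ x in s, ENNReal.ofReal |1 / x ^ 2| * G (c - 1 / x) ^ 2 := by
        apply setLIntegral_congr_fun hs
        intro x hx
        simp only [SS]
        rw [mul_pow, ← ENNReal.ofReal_pow (by positivity)]
        congr 2
        rw [inv_pow, sq_abs, abs_of_nonneg (by positivity), one_div]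
    _ = ∫⁻ z in (fun x => c - 1 / x) '' s, (G z) ^ 2 := key.symm
    _ ≤ _ := by
        apply lintegral_mono_set
        rintro _ ⟨x, hx, rfl⟩
        exact hA x hx

theorem contr {δ : ℝ} (hδ : 0 < δ) : ∃ q : ℝ≥0∞, q < 1 ∧ ∀ (c : ℝ) (f : ℝ → ℝ≥0∞), Measurable f →
    ∫⁻ y, (KK δ (SS c (KK δ f)) y) ^ 2 ≤ q * ∫⁻ y, f y ^ 2 := by
  obtain ⟨r, hr⟩ := exists_nat_gt ((2 + δ) / (δ / 2))
  have hr' : 2 + δ ≤ r * (δ/2) := by
    rw [div_lt_iff₀ (by positivity)] at hr; exact hr.le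
  set B : ℝ≥0∞ := 2 * (2 ^ (8 * r) * (8 * r : ℕ)) with hB
  have hBfin : B ≠ ∞ := by rw [hB]; finiteness
  have hden : 4 * B + 1 ≠ 0 := by simp
  have hden' : 4 * B + 1 ≠ ∞ := by finiteness
  refine ⟨(4 * B + 1/2) / (4 * B + 1), ?_, ?_⟩
  · rw [ENNReal.div_lt_iff (Or.inl hden) (Or.inl hden'), one_mul]
    apply ENNReal.add_lt_add_left (by finiteness)
    rw [one_div]; exact ENNReal.inv_lt_one.2 (by norm_num)
  intro c f hf
  set g := SS c (KK δ f) with hg
  have hKf := measurable_KK δ hf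
  have hmg : Measurable g := measurable_SS c hKf
  -- isometry
  have hiso : ∫⁻ x, g x ^ 2 ≤ ∫⁻ z, (KK δ f z) ^ 2 := by
    have h := subst_SS c (KK δ f) ({0}ᶜ) univ (measurableSet_singleton 0).compl (by simp) (by simp)
    rw [Measure.restrict_univ] at h
    refine le_trans (le_of_eq ?_) h
    have hae : (({0}:Set ℝ)ᶜ : Set ℝ) =ᵐ[volume] univ := by
      rw [ae_eq_univ]; simp
    rw [Measure.restrict_congr_set hae, Measure.restrict_univ]
  -- masses
  have hm8 : ∀ (h : ℝ → ℝ≥0∞), Measurable h → ∀ a, ∫⁻ x in Ico a (a + r * (δ/2)), h x ^ 2 ≤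
      B * DD δ h + (∫⁻ x, h x ^ 2) / 4 := by
    intro h hh a
    have := mass_le hδ r hh a
    have h8 : ∫⁻ x in Ico a (a + r * (δ/2)), h x ^ 2 ≤
      (16 * (2 ^ (8 * r) * ((8 * r : ℕ) * DD δ h)) + 2 * ∫⁻ x, h x ^ 2) / 8 := by
      rw [ENNReal.le_div_iff_mul_le (by norm_num) (by norm_num), mul_comm]
      exact this
    refine h8.trans (le_of_eq ?_)
    rw [ENNReal.add_div]
    congr 1
    · rw [hB]
      have : (16:ℝ≥0∞) = 2 * 8 := by norm_num
      rw [this, ENNReal.div_eq_inv_mul]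
      calc (8:ℝ≥0∞)⁻¹ * (2 * 8 * (2 ^ (8 * r) * ((8 * r : ℕ) * DD δ h)))
          = (8⁻¹ * 8) * (2 * (2 ^ (8 * r) * (8 * r : ℕ)) * DD δ h) := by ring
        _ = _ := by rw [ENNReal.inv_mul_cancel (by norm_num) (by norm_num), one_mul]
    · rw [ENNReal.div_eq_inv_mul, ENNReal.div_eq_inv_mul, ← mul_assoc]
      congr 1
      have : (8:ℝ≥0∞) = 4 * 2 := by norm_num
      rw [this, ENNReal.mul_inv (by norm_num) (by norm_num), mul_assoc,
        ENNReal.inv_mul_cancel (by norm_num) (by norm_num), mul_one]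
  have hmf := hm8 f hf (c - 1 - δ)
  have hmg' := hm8 g hmg (-1)
  -- mass of g outside [-1,1)
  have hout : ∫⁻ x in {x : ℝ | 1 < |x|}, g x ^ 2 ≤ ∫⁻ x in Ico (c - 1 - δ) (c - 1 - δ + r * (δ/2)), f x ^ 2 := by
    refine le_trans (subst_SS c (KK δ f) {x : ℝ | 1 < |x|} (Ico (c - 1) (c + 1)) ?_ ?_ ?_) ?_
    · exact measurableSet_lt measurable_const (by fun_prop)
    · simp
    · intro x hx
      have hx1 : 1 < |x| := hx
      have hx0 : x ≠ 0 := by rintro rfl; simp at hx1; linarith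
      have : |1 / x| < 1 := by
        rw [abs_div, abs_one, div_lt_one (by positivity)]; exact hx1
      rw [abs_lt] at this
      constructor
      · linarith
      · linarith
    · exact mass_K hδ hf (c - 1) (c + 1) _ (by linarith)
  have hsplit : ∫⁻ x, g x ^ 2 ≤ (∫⁻ x in Ico (-1) (-1 + r * (δ/2)), g x ^ 2)
      + ∫⁻ x in {x : ℝ | 1 < |x|}, g x ^ 2 := by
    have hcov : (univ : Set ℝ) ⊆ Ico (-1) (-1 + r * (δ/2)) ∪ {x : ℝ | 1 < |x|} := by
      intro x _
      by_cases h : 1 < |x|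
      · right; exact h
      · left
        rw [not_lt, abs_le] at h
        exact ⟨h.1, by linarith [h.2]⟩
    calc ∫⁻ x, g x ^ 2 = ∫⁻ x in univ, g x ^ 2 := by rw [Measure.restrict_univ]
      _ ≤ ∫⁻ x in Ico (-1) (-1 + r * (δ/2)) ∪ {x : ℝ | 1 < |x|}, g x ^ 2 := lintegral_mono_set hcov
      _ ≤ _ := lintegral_union_le _ _ _
  have hE1 := KK_energy δ hf
  have hE2 := KK_energy δ hmg
  set X := ∫⁻ y, f y ^ 2
  set Ig := ∫⁻ y, g y ^ 2
  set IK := ∫⁻ y, (KK δ f y) ^ 2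
  set IG := ∫⁻ y, (KK δ g y) ^ 2
  have hIgX : Ig ≤ X := hiso.trans (le_self_add.trans hE1)
  have hsum : IG + DD δ g / 4 + DD δ f / 4 ≤ X := by
    calc IG + DD δ g / 4 + DD δ f / 4 ≤ Ig + DD δ f / 4 := by gcongr
      _ ≤ IK + DD δ f / 4 := by gcongr
      _ ≤ X := hE1
  have hIG : IG ≤ (B * DD δ g + X / 4) + (B * DD δ f + X / 4) := by
    calc IG ≤ Ig := le_self_add.trans hE2
      _ ≤ _ := hsplit
      _ ≤ (B * DD δ g + Ig / 4) + (B * DD δ f + X / 4) := by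
          gcongr
          exact hout.trans hmf
      _ ≤ _ := by gcongr
  rw [mul_comm, ← mul_div_assoc, ENNReal.le_div_iff_mul_le (Or.inl hden) (Or.inl hden')]
  have h4 : ∀ t : ℝ≥0∞, t = 4 * (t / 4) := fun t => by
    rw [ENNReal.mul_div_cancel (by norm_num) (by norm_num)]
  calc IG * (4 * B + 1) = 4 * B * IG + IG := by ring
    _ ≤ 4 * B * IG + ((B * DD δ g + X / 4) + (B * DD δ f + X / 4)) := by gcongr
    _ = 4 * B * IG + ((B * (4 * (DD δ g / 4)) + X / 4) + (B * (4 * (DD δ f / 4)) + X / 4)) := by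
        rw [← h4, ← h4]
    _ = 4 * B * (IG + DD δ g / 4 + DD δ f / 4) + (X / 4 + X / 4) := by ring
    _ ≤ 4 * B * X + (X / 4 + X / 4) := by gcongr
    _ = 4 * B * X + X / 2 := by
        congr 1
        rw [ENNReal.div_eq_inv_mul, ENNReal.div_eq_inv_mul, ← two_mul, ← mul_assoc]
        congr 1
        have : (4:ℝ≥0∞) = 2 * 2 := by norm_num
        rw [this, ENNReal.mul_inv (by norm_num) (by norm_num), ← mul_assoc,
          ENNReal.mul_inv_cancel (by norm_num) (by norm_num), one_mul]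
    _ = X * (4 * B + 1/2) := by
        rw [mul_add, mul_comm X (4 * B), ENNReal.div_eq_inv_mul, one_div, mul_comm X]

end Pool.Agent.K9h46.LP
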