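import Pool.Agent.K9h46.LP.Contr
set_option autoImplicit false
open MeasureTheory ENNReal Set
namespace Pool.Agent.K9h46.LP

/-- The `m` times integrated observable. -/
noncomputable def GG (A δ : ℝ) (c : ℕ → ℝ) : ℕ → ℝ → ℝ → ℝ≥0∞
  | 0, u, w => if |w| ≤ A * |u| ∧ u ≠ 0 then ENNReal.ofReal (|u|⁻¹) else 0
  | m+1, u, w => ∫⁻ v in Icc (0:ℝ) 1, GG A δ c m ((c m - δ * v) * u - w) u

lemma measurable_GG (A δ : ℝ) (m : ℕ) :
    Measurable (fun p : (ℕ → ℝ) × ℝ × ℝ => GG A δ p.1 m p.2.1 p.2.2) := by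
  induction m with
  | zero =>
    simp only [GG]
    apply Measurable.ite
    · have h1 : MeasurableSet {p : (ℕ → ℝ) × ℝ × ℝ | |p.2.2| ≤ A * |p.2.1|} :=
        measurableSet_le (by fun_prop) (by fun_prop)
      have h2 : MeasurableSet {p : (ℕ → ℝ) × ℝ × ℝ | p.2.1 = 0} :=
        measurableSet_eq_fun (by fun_prop) measurable_const
      exact h1.inter h2.compl
    · fun_prop
    · exact measurable_const
  | succ m ih =>
    simp only [GG]
    apply Measurable.lintegral_prod_right'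
      (f := fun p : ((ℕ → ℝ) × ℝ × ℝ) × ℝ =>
        GG A δ p.1.1 m ((p.1.1 m - δ * p.2) * p.1.2.1 - p.1.2.2) p.1.2.1)
    exact ih.comp (g := fun p : (ℕ → ℝ) × ℝ × ℝ => GG A δ p.1 m p.2.1 p.2.2)
      (f := fun p : ((ℕ → ℝ) × ℝ × ℝ) × ℝ =>
        (p.1.1, (p.1.1 m - δ * p.2) * p.1.2.1 - p.1.2.2, p.1.2.1)) (by fun_prop)

lemma GG_homog (A δ : ℝ) (c : ℕ → ℝ) (m : ℕ) : ∀ (t u w : ℝ), t ≠ 0 →
    GG A δ c m (t * u) (t * w) = ENNReal.ofReal (|t|⁻¹) * GG A δ c m u w := by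
  induction m with
  | zero =>
    intro t u w ht
    simp only [GG]
    have ht' : 0 < |t| := abs_pos.2 ht
    have h : (|t * w| ≤ A * |t * u| ∧ t * u ≠ 0) ↔ (|w| ≤ A * |u| ∧ u ≠ 0) := by
      rw [abs_mul, abs_mul]
      constructor
      · rintro ⟨h1, h2⟩
        refine ⟨?_, fun h => h2 (by rw [h, mul_zero])⟩
        have : |t| * |w| ≤ |t| * (A * |u|) := by linarith
        exact le_of_mul_le_mul_left this ht'
      · rintro ⟨h1, h2⟩
        refine ⟨?_, mul_ne_zero ht h2⟩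
        nlinarith
    by_cases hc : |w| ≤ A * |u| ∧ u ≠ 0
    · rw [if_pos hc, if_pos (h.2 hc), abs_mul, mul_inv, ENNReal.ofReal_mul (by positivity)]
    · rw [if_neg hc, if_neg (fun h' => hc (h.1 h')), mul_zero]
  | succ m ih =>
    intro t u w ht
    simp only [GG]
    rw [← lintegral_const_mul' _ _ (by finiteness)]
    apply lintegral_congr
    intro v
    rw [← ih t _ _ ht]
    congr 1
    ring

noncomputable def psi (A δ : ℝ) (c : ℕ → ℝ) (m : ℕ) (x : ℝ) : ℝ≥0∞ := GG A δ c m x 1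

lemma measurable_psi (A δ : ℝ) (c : ℕ → ℝ) (m : ℕ) : Measurable (psi A δ c m) :=
  (measurable_GG A δ m).comp (f := fun x : ℝ => (c, x, (1:ℝ))) (by fun_prop)

lemma GG_succ (A δ : ℝ) (c : ℕ → ℝ) (m : ℕ) (u w : ℝ) (hu : u ≠ 0) :
    GG A δ c (m+1) u w = ENNReal.ofReal (|u|⁻¹) * KK δ (psi A δ c m) (c m - w / u) := by
  simp only [GG, KK, psi]
  rw [← lintegral_const_mul' _ _ (by finiteness)]
  apply lintegral_congr
  intro v
  rw [← GG_homog A δ c m u _ _ hu]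
  congr 1
  · field_simp
    ring
  · ring

lemma psi_succ (A δ : ℝ) (c : ℕ → ℝ) (m : ℕ) (x : ℝ) (hx : x ≠ 0) :
    psi A δ c (m+1) x = SS (c m) (KK δ (psi A δ c m)) x := by
  rw [psi, GG_succ A δ c m x 1 hx, SS]

lemma KK_congr {δ : ℝ} (hδ : 0 < δ) {f g : ℝ → ℝ≥0∞} (h : ∀ x, x ≠ 0 → f x = g x) (y : ℝ) :
    KK δ f y = KK δ g y := by
  unfold KK
  apply lintegral_congr_ae
  have h1 : ∀ᵐ v : ℝ, v ≠ y / δ := by
    rw [ae_iff]; simp
  have h2 := ae_restrict_of_ae (s := Icc (0:ℝ) 1) h1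
  filter_upwards [h2] with v hv
  apply h
  intro h0
  apply hv
  field_simp
  linarith

lemma lintegral_sq_congr {f g : ℝ → ℝ≥0∞} (h : ∀ x, x ≠ 0 → f x = g x) :
    ∫⁻ x, f x ^ 2 = ∫⁻ x, g x ^ 2 := by
  apply lintegral_congr_ae
  have h1 : ∀ᵐ v : ℝ, v ≠ 0 := by
    rw [ae_iff]; simp
  filter_upwards [h1] with v hv
  rw [h v hv]

lemma SS_iso (c : ℝ) (G : ℝ → ℝ≥0∞) : ∫⁻ x, (SS c G x) ^ 2 ≤ ∫⁻ z, (G z) ^ 2 := by
  have h := subst_SS c G ({0}ᶜ) univ (measurableSet_singleton 0).compl (by simp) (by simp)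
  rw [Measure.restrict_univ] at h
  refine le_trans (le_of_eq ?_) h
  have hae : (({0}:Set ℝ)ᶜ : Set ℝ) =ᵐ[volume] univ := by
    rw [ae_eq_univ]; simp
  rw [Measure.restrict_congr_set hae, Measure.restrict_univ]

lemma KK_iso (δ : ℝ) {f : ℝ → ℝ≥0∞} (hf : Measurable f) :
    ∫⁻ y, (KK δ f y) ^ 2 ≤ ∫⁻ y, f y ^ 2 := le_self_add.trans (KK_energy δ hf)

lemma psi_sq_zero {A : ℝ} (hA : 0 < A) (δ : ℝ) (c : ℕ → ℝ) :
    ∫⁻ x, psi A δ c 0 x ^ 2 ≤ ENNReal.ofReal (2 * A) := by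
  set s : Set ℝ := {x | |(1:ℝ)| ≤ A * |x| ∧ x ≠ 0} with hs
  have hms : MeasurableSet s := by
    have h1 : MeasurableSet {x : ℝ | |(1:ℝ)| ≤ A * |x|} :=
      measurableSet_le (by fun_prop) (by fun_prop)
    exact h1.inter (measurableSet_singleton 0).compl
  have h1 : ∫⁻ x, psi A δ c 0 x ^ 2 = ∫⁻ x in s, (SS 0 (fun _ => 1) x) ^ 2 := by
    rw [← lintegral_indicator hms]
    apply lintegral_congr
    intro x
    simp only [psi, GG, indicator, SS, hs, mem_ofPred_eq, mul_one]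
    split_ifs <;> simp
  rw [h1]
  refine (subst_SS 0 (fun _ => 1) s (Icc (-A) A) hms (by simp [hs]) ?_).trans ?_
  · intro x hx
    have hx0 : 0 < |x| := abs_pos.2 hx.2
    have h2 : |1 / x| ≤ A := by
      rw [abs_div, div_le_iff₀ hx0]; exact hx.1
    rw [abs_le] at h2
    constructor <;> linarith [h2.1, h2.2]
  · simp only [one_pow, lintegral_const, Measure.restrict_apply, MeasurableSet.univ, univ_inter,
      Real.volume_Icc, one_mul]
    apply ENNReal.ofReal_le_ofReal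
    linarith

lemma psi_sq_le {A δ : ℝ} (hA : 0 < A) (hδ : 0 < δ) {q : ℝ≥0∞}
    (hq : ∀ (c : ℝ) (f : ℝ → ℝ≥0∞), Measurable f →
      ∫⁻ y, (KK δ (SS c (KK δ f)) y) ^ 2 ≤ q * ∫⁻ y, f y ^ 2) (c : ℕ → ℝ) : ∀ m,
    ∫⁻ x, psi A δ c m x ^ 2 ≤ q ^ (m / 2) * ENNReal.ofReal (2 * A) := by
  have hstep : ∀ m, ∫⁻ x, psi A δ c (m+1) x ^ 2 ≤ ∫⁻ x, (KK δ (psi A δ c m) x) ^ 2 := by
    intro m
    rw [lintegral_sq_congr (psi_succ A δ c m)]
    exact SS_iso _ _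
  have htwo : ∀ m, ∫⁻ x, psi A δ c (m+2) x ^ 2 ≤ q * ∫⁻ x, psi A δ c m x ^ 2 := by
    intro m
    refine (hstep (m+1)).trans ?_
    have : ∀ y, KK δ (psi A δ c (m+1)) y = KK δ (SS (c m) (KK δ (psi A δ c m))) y :=
      fun y => KK_congr hδ (psi_succ A δ c m) y
    simp only [this]
    exact hq _ _ (measurable_psi A δ c m)
  intro m
  induction m using Nat.twoStepInduction with
  | zero => simpa using psi_sq_zero hA δ c
  | one =>
    refine (hstep 0).trans ((KK_iso δ (measurable_psi A δ c 0)).trans ?_)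
    simpa using psi_sq_zero hA δ c
  | more m ih _ =>
    refine (htwo m).trans ?_
    have : (m + 2) / 2 = m / 2 + 1 := by omega
    rw [this, pow_succ, mul_comm (q ^ (m/2)) q, mul_assoc]
    gcongr

lemma KK_sup {δ : ℝ} (hδ : 0 < δ) {f : ℝ → ℝ≥0∞} (hf : Measurable f) (y : ℝ) :
    (KK δ f y) ^ 2 ≤ ENNReal.ofReal δ⁻¹ * ∫⁻ x, f x ^ 2 := by
  refine (KK_sq_le δ hf y).trans ?_
  unfold KK
  have key := lintegral_image_eq_lintegral_abs_deriv_mul (s := Icc (0:ℝ) 1)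
    (f := fun v => y - δ * v) (f' := fun _ => -δ) measurableSet_Icc (fun x _ => by
      have h := (((hasDerivAt_id x).const_mul δ).const_sub y).hasDerivWithinAt (s := Icc (0:ℝ) 1)
      simpa using h) (by
      intro a _ b _ h
      have h' : y - δ * a = y - δ * b := h
      have : δ * a = δ * b := by linarith
      exact mul_left_cancel₀ hδ.ne' this) (fun z => f z ^ 2)
  rw [abs_neg, abs_of_pos hδ, lintegral_const_mul' _ _ (by simp)] at key
  have h2 : ∫⁻ v in Icc (0:ℝ) 1, f (y - δ * v) ^ 2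
      = ENNReal.ofReal δ⁻¹ * (ENNReal.ofReal δ * ∫⁻ v in Icc (0:ℝ) 1, f (y - δ * v) ^ 2) := by
    rw [← mul_assoc, ← ENNReal.ofReal_mul (by positivity), inv_mul_cancel₀ hδ.ne']; simp
  rw [h2, ← key]
  gcongr
  exact Measure.restrict_le_self

/-- contraction with a convenient rate -/
theorem contr' {δ : ℝ} (hδ : 0 < δ) : ∃ ρ : ℝ, 0 < ρ ∧ ρ < 1 ∧ ∀ (A : ℝ) (c : ℕ → ℝ) (m : ℕ)
    (y : ℝ), 0 < A → KK δ (psi A δ c m) y ≤ ENNReal.ofReal (Real.sqrt (2 * A / δ) * ρ⁻¹ * ρ ^ m) := by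
  obtain ⟨q, hq1, hq⟩ := contr hδ
  obtain ⟨ρ, hρ0, hρ1, hρq⟩ : ∃ ρ : ℝ, 0 < ρ ∧ ρ < 1 ∧ q ≤ ENNReal.ofReal (ρ ^ 4) := by
    set q' := max q.toReal (1/2) with hq'
    have hq'0 : 0 < q' := lt_of_lt_of_le (by norm_num) (le_max_right _ _)
    have hq'1 : q' < 1 := by
      apply max_lt
      · have := (ENNReal.toReal_lt_toReal (ne_top_of_lt hq1) (by simp)).2 hq1
        simpa using this
      · norm_num
    refine ⟨q' ^ ((1:ℝ)/4), by positivity, Real.rpow_lt_one hq'0.le hq'1 (by norm_num), ?_⟩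
    rw [← Real.rpow_natCast, ← Real.rpow_mul hq'0.le]
    norm_num
    rw [ENNReal.le_ofReal_iff_toReal_le (ne_top_of_lt hq1) hq'0.le]
    exact le_max_left _ _
  refine ⟨ρ, hρ0, hρ1, ?_⟩
  intro A c m y hA
  have h1 := KK_sup hδ (measurable_psi A δ c m) y
  have h2 := psi_sq_le hA hδ hq c m
  have h3 : (KK δ (psi A δ c m) y) ^ 2 ≤ (ENNReal.ofReal (Real.sqrt (2 * A / δ) * ρ⁻¹ * ρ ^ m)) ^ 2 := by
    refine h1.trans ?_
    calc ENNReal.ofReal δ⁻¹ * ∫⁻ x, psi A δ c m x ^ 2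
        ≤ ENNReal.ofReal δ⁻¹ * ((ENNReal.ofReal (ρ ^ 4)) ^ (m / 2) * ENNReal.ofReal (2 * A)) := by
          gcongr
          exact h2.trans (by gcongr)
      _ = ENNReal.ofReal (δ⁻¹ * ((ρ ^ 4) ^ (m / 2) * (2 * A))) := by
          rw [← ENNReal.ofReal_pow (by positivity), ← ENNReal.ofReal_mul (by positivity),
            ← ENNReal.ofReal_mul (by positivity)]
      _ ≤ ENNReal.ofReal ((Real.sqrt (2 * A / δ) * ρ⁻¹ * ρ ^ m) ^ 2) := by
          apply ENNReal.ofReal_le_ofReal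
          rw [mul_pow, mul_pow, Real.sq_sqrt (by positivity)]
          have h4 : (ρ ^ 4) ^ (m / 2) ≤ ρ⁻¹ ^ 2 * (ρ ^ m) ^ 2 := by
            have e : ρ⁻¹ ^ 2 * (ρ ^ m) ^ 2 = ρ⁻¹ ^ 2 * ρ ^ (2 * m) := by
              rw [← pow_mul]; ring_nf
            rw [e, ← pow_mul]
            have h5 : ρ ^ (4 * (m / 2)) * ρ ^ 2 ≤ ρ ^ (2 * m) := by
              rw [← pow_add]
              apply pow_le_pow_of_le_one hρ0.le hρ1.le
              omega
            have h6 : ρ⁻¹ ^ 2 * (ρ ^ (4 * (m / 2)) * ρ ^ 2) ≤ ρ⁻¹ ^ 2 * ρ ^ (2 * m) := by gcongr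
            refine le_trans (le_of_eq ?_) h6
            field_simp
          calc δ⁻¹ * ((ρ ^ 4) ^ (m / 2) * (2 * A)) = (2 * A / δ) * (ρ ^ 4) ^ (m / 2) := by
                field_simp
            _ ≤ (2 * A / δ) * (ρ⁻¹ ^ 2 * (ρ ^ m) ^ 2) := by gcongr
            _ = _ := by ring
      _ = _ := by rw [ENNReal.ofReal_pow (by positivity)]
  exact (ENNReal.pow_le_pow_left_iff (by norm_num)).1 h3

end Pool.Agent.K9h46.LP
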