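import Pool.Agent.K9h46.LP.Prob
set_option autoImplicit false
open MeasureTheory ENNReal Set Function
namespace Pool.Agent.K9h46.LP

/-- `N` sites whose potentials contain independent uniform parts of strength `δ`. -/
structure Ind (δ : ℝ) (N : ℕ) (U b : ℕ → Xi → ℝ) (κ : ℕ → ℕ × ℕ) : Prop where
  hU : ∀ n < N, ∀ Z, U n Z = b n Z + δ * (Z (κ n) : ℝ)
  hb : ∀ n < N, ∀ m < N, ∀ Z v, b n (update Z (κ m) v) = b n Z
  hκ : ∀ n < N, ∀ m < N, κ n = κ m → n = m
  mb : ∀ n, Measurable (b n)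
  mU : ∀ n, Measurable (U n)

lemma Ind.self {δ : ℝ} {N : ℕ} {U b : ℕ → Xi → ℝ} {κ : ℕ → ℕ × ℕ} (h : Ind δ N U b κ)
    (n : ℕ) (hn : n < N) (Z : Xi) (v : unitInterval) :
    U n (update Z (κ n) v) = b n Z + δ * (v : ℝ) := by
  rw [h.hU n hn, h.hb n hn n hn, update_self]

lemma Ind.ne {δ : ℝ} {N : ℕ} {U b : ℕ → Xi → ℝ} {κ : ℕ → ℕ × ℕ} (h : Ind δ N U b κ)
    (n : ℕ) (hn : n < N) (k : ℕ) (hk : k < N) (hkn : k ≠ n) (Z : Xi) (v : unitInterval) :
    U k (update Z (κ n) v) = U k Z := by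
  rw [h.hU k hk, h.hb k hk n hn, update_of_ne (fun h' => hkn (h.hκ k hk n hn h')), h.hU k hk]

/-- the observable after `m` integrations -/
noncomputable def FF (A δ : ℝ) (M q : ℕ) (U b : ℕ → Xi → ℝ) (E : ℝ) (m : ℕ) (Z : Xi) : ℝ≥0∞ :=
  ENNReal.ofReal |pp (fun n => U n Z) E (q+1)| *
    GG A δ (fun k => E - b (M - k) Z) m (pp (fun n => U n Z) E (M+2-m)) (pp (fun n => U n Z) E (M+1-m))

lemma measurable_FF (A δ : ℝ) (M q : ℕ) {U b : ℕ → Xi → ℝ} (mU : ∀ n, Measurable (U n))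
    (mb : ∀ n, Measurable (b n)) (m : ℕ) :
    Measurable (fun p : Xi × ℝ => FF A δ M q U b p.2 m p.1) := by
  have hp : ∀ k, Measurable (fun p : Xi × ℝ => pp (fun n => U n p.1) p.2 k) := by
    intro k
    exact (pp_cont k).measurable.comp (f := fun p : Xi × ℝ => ((fun n => U n p.1), p.2)) (by
      refine Measurable.prodMk (measurable_pi_lambda _ fun n => (mU n).comp measurable_fst) measurable_snd)
  unfold FF
  apply Measurable.mul
  · exact (hp _).abs.ennreal_ofReal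
  · exact (measurable_GG A δ m).comp (f := fun p : Xi × ℝ =>
      ((fun k => p.2 - b (M - k) p.1), pp (fun n => U n p.1) p.2 (M+2-m),
        pp (fun n => U n p.1) p.2 (M+1-m))) (by
      refine Measurable.prodMk (measurable_pi_lambda _ fun n =>
        measurable_snd.sub ((mb _).comp measurable_fst)) (Measurable.prodMk (hp _) (hp _)))

lemma FF_step (A : ℝ) {δ : ℝ} {M q : ℕ} {U b : ℕ → Xi → ℝ} {κ : ℕ → ℕ × ℕ}
    (h : Ind δ (M+2) U b κ) (E : ℝ) (m : ℕ) (hm : m + q ≤ M) :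
    ∫⁻ Z, FF A δ M q U b E m Z ∂PP = ∫⁻ Z, FF A δ M q U b E (m+1) Z ∂PP := by
  have hmF : Measurable (fun Z => FF A δ M q U b E m Z) :=
    (measurable_FF A δ M q h.mU h.mb m).comp (f := fun Z : Xi => (Z, E)) (by fun_prop)
  rw [resample (κ (M-m)) hmF]
  apply lintegral_congr
  intro Z
  set n := M - m with hn
  have hn2 : n < M + 2 := by omega
  have hMm : M + 2 - m = n + 2 := by omega
  have hMm1 : M + 1 - m = n + 1 := by omega
  have hMm2 : M + 2 - (m+1) = n + 1 := by omega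
  have hMm3 : M + 1 - (m+1) = n := by omega
  have e1 : ∀ v : unitInterval, pp (fun k => U k (update Z (κ n) v)) E (q+1) = pp (fun k => U k Z) E (q+1) := by
    intro v
    apply pp_congr
    intro k hk
    exact h.ne n hn2 k (by omega) (by omega) Z v
  have e2 : ∀ v : unitInterval, pp (fun k => U k (update Z (κ n) v)) E (n+1) = pp (fun k => U k Z) E (n+1) := by
    intro v
    apply pp_congr
    intro k hk
    exact h.ne n hn2 k (by omega) (by omega) Z v
  have e3 : ∀ v : unitInterval, pp (fun k => U k (update Z (κ n) v)) E n = pp (fun k => U k Z) E n := by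
    intro v
    apply pp_congr
    intro k hk
    exact h.ne n hn2 k (by omega) (by omega) Z v
  have e4 : ∀ v : unitInterval, (fun k => E - b (M - k) (update Z (κ n) v)) = fun k => E - b (M - k) Z := by
    intro v
    funext k
    rw [h.hb (M-k) (by omega) n hn2]
  have e5 : ∀ v : unitInterval, FF A δ M q U b E m (update Z (κ n) v)
      = ENNReal.ofReal |pp (fun k => U k Z) E (q+1)| *
        GG A δ (fun k => E - b (M - k) Z) m (((E - b n Z) - δ * (v:ℝ)) * pp (fun k => U k Z) E (n+1)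
          - pp (fun k => U k Z) E n) (pp (fun k => U k Z) E (n+1)) := by
    intro v
    simp only [FF, hMm, hMm1]
    rw [e1, e4]
    have : pp (fun k => U k (update Z (κ n) v)) E (n+2)
        = ((E - b n Z) - δ * (v:ℝ)) * pp (fun k => U k Z) E (n+1) - pp (fun k => U k Z) E n := by
      simp only [pp]
      rw [e2, e3, h.self n hn2]
      ring
    rw [this, e2]
  simp only [e5]
  rw [lintegral_const_mul' _ _ (by finiteness),
    lintegral_unit (fun v => GG A δ (fun k => E - b (M - k) Z) m (((E - b n Z) - δ * v) *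
      pp (fun k => U k Z) E (n+1) - pp (fun k => U k Z) E n) (pp (fun k => U k Z) E (n+1)))]
  simp only [FF, hMm2, hMm3, GG]
  rfl

lemma FF_bound {A : ℝ} (hA : 0 < A) {δ : ℝ} {ρ : ℝ}
    (hρ : ∀ (A : ℝ) (c : ℕ → ℝ) (m : ℕ) (y : ℝ), 0 < A → KK δ (psi A δ c m) y ≤
      ENNReal.ofReal (Real.sqrt (2 * A / δ) * ρ⁻¹ * ρ ^ m))
    {M q : ℕ} {U b : ℕ → Xi → ℝ} {κ : ℕ → ℕ × ℕ}
    (h : Ind δ (M+2) U b κ) (E : ℝ) (hq : q ≤ M) :
    ∫⁻ Z, FF A δ M q U b E 0 Z ∂PP ≤ ENNReal.ofReal (Real.sqrt (2 * A / δ) * ρ⁻¹ * ρ ^ (M-q)) := by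
  have hall : ∀ m, m + q ≤ M + 1 → ∫⁻ Z, FF A δ M q U b E 0 Z ∂PP = ∫⁻ Z, FF A δ M q U b E m Z ∂PP := by
    intro m
    induction m with
    | zero => intro _; rfl
    | succ m ih => intro hm; rw [ih (by omega), FF_step A h E m (by omega)]
  rw [hall (M - q + 1) (by omega)]
  have hpt : ∀ Z, FF A δ M q U b E (M-q+1) Z ≤
      ENNReal.ofReal (Real.sqrt (2 * A / δ) * ρ⁻¹ * ρ ^ (M-q)) := by
    intro Z
    simp only [FF]
    have hMq : M + 2 - (M - q + 1) = q + 1 := by omega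
    have hMq1 : M + 1 - (M - q + 1) = q := by omega
    rw [hMq, hMq1]
    by_cases hu : pp (fun n => U n Z) E (q+1) = 0
    · rw [hu]; simp
    · rw [GG_succ A δ _ _ _ _ hu, ← mul_assoc, ← ENNReal.ofReal_mul (abs_nonneg _),
        mul_inv_cancel₀ (abs_ne_zero.2 hu), ENNReal.ofReal_one, one_mul]
      exact hρ A _ _ _ hA
  calc ∫⁻ Z, FF A δ M q U b E (M-q+1) Z ∂PP
      ≤ ∫⁻ Z, ENNReal.ofReal (Real.sqrt (2 * A / δ) * ρ⁻¹ * ρ ^ (M-q)) ∂PP :=
        lintegral_mono hpt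
    _ = _ := by simp

/-- scaling of an outer measure -/
lemma vol_unit_le {δ : ℝ} (hδ : 0 < δ) (b : ℝ) (T : Set ℝ) :
    (volume : Measure unitInterval) {v : unitInterval | b + δ * (v:ℝ) ∈ T} ≤ ENNReal.ofReal δ⁻¹ * volume T := by
  have h1 : (volume : Measure unitInterval) {v : unitInterval | b + δ * (v:ℝ) ∈ T}
      = volume ((fun v : unitInterval => (v:ℝ)) '' {v : unitInterval | b + δ * (v:ℝ) ∈ T}) :=
    (volume_image_subtype_coe measurableSet_Icc _).symm
  rw [h1]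
  have h2 : ((fun v : unitInterval => (v:ℝ)) '' {v : unitInterval | b + δ * (v:ℝ) ∈ T})
      ⊆ (fun v : ℝ => δ * v) ⁻¹' ((fun x : ℝ => b + x) ⁻¹' T) := by
    rintro _ ⟨v, hv, rfl⟩
    exact hv
  refine (measure_mono h2).trans ?_
  rw [Real.volume_preimage_mul_left hδ.ne', measure_preimage_add, abs_of_pos (by positivity)]

/-- The set of energies relevant for the localization bound. -/
def Sset (V : ℕ → ℝ) (A1 A2 η : ℝ) (M q : ℕ) : Set ℝ :=
  {E | |E| ≤ A1 ∧ pp V E (M+2) ≠ 0 ∧ |pp V E (M+1)| ≤ A2 * |pp V E (M+2)| ∧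
    η * (∑ k ∈ Finset.range (M+2), pp V E (k+1) ^ 2) ≤ |pp V E (q+1) * pp V E (M+2)|}

lemma measurableSet_Sset (V : ℕ → ℝ) (A1 A2 η : ℝ) (M q : ℕ) : MeasurableSet (Sset V A1 A2 η M q) := by
  have hc : ∀ n, Continuous (fun E : ℝ => pp V E n) := pp_cont_E V
  have h1 : MeasurableSet {E : ℝ | |E| ≤ A1} := measurableSet_le (by fun_prop) (by fun_prop)
  have h2 : MeasurableSet {E : ℝ | pp V E (M+2) = 0} :=
    measurableSet_eq_fun (hc _).measurable measurable_const
  have h3 : MeasurableSet {E : ℝ | |pp V E (M+1)| ≤ A2 * |pp V E (M+2)|} :=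
    measurableSet_le (hc _).abs.measurable ((hc _).abs.measurable.const_mul _)
  have h4 : MeasurableSet {E : ℝ | η * (∑ k ∈ Finset.range (M+2), pp V E (k+1) ^ 2) ≤
      |pp V E (q+1) * pp V E (M+2)|} := by
    apply measurableSet_le
    · apply Continuous.measurable
      fun_prop
    · apply Continuous.measurable
      fun_prop
  exact h1.inter (h2.compl.inter (h3.inter h4))

lemma Sset_bound (V : ℕ → ℝ) (A1 A2 : ℝ) {η : ℝ} (hη : 0 < η) (M q : ℕ) (δ : ℝ) (c : ℕ → ℝ) (E : ℝ)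
    (hE : E ∈ Sset V A1 A2 η M q) :
    ENNReal.ofReal ((∑ k ∈ Finset.range (M+2), pp V E (k+1) ^ 2) / pp V E (M+2) ^ 2)
      ≤ ENNReal.ofReal η⁻¹ * (ENNReal.ofReal |pp V E (q+1)| * GG A2 δ c 0 (pp V E (M+2)) (pp V E (M+1))) := by
  obtain ⟨_, h2, h3, h4⟩ := hE
  simp only [GG]
  rw [if_pos ⟨h3, h2⟩, ← ENNReal.ofReal_mul (abs_nonneg _), ← ENNReal.ofReal_mul (by positivity)]
  apply ENNReal.ofReal_le_ofReal
  have hpos : 0 < |pp V E (M+2)| := abs_pos.2 h2
  have hsq : pp V E (M+2) ^ 2 = |pp V E (M+2)| * |pp V E (M+2)| := by rw [← sq, sq_abs]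
  rw [abs_mul] at h4
  rw [hsq, div_le_iff₀ (by positivity)]
  have e : η⁻¹ * (|pp V E (q+1)| * |pp V E (M+2)|⁻¹) * (|pp V E (M+2)| * |pp V E (M+2)|)
      = η⁻¹ * (|pp V E (q+1)| * |pp V E (M+2)|) := by
    field_simp
  rw [e]
  calc (∑ k ∈ Finset.range (M+2), pp V E (k+1) ^ 2)
      = η⁻¹ * (η * (∑ k ∈ Finset.range (M+2), pp V E (k+1) ^ 2)) := by
        rw [← mul_assoc, inv_mul_cancel₀ hη.ne', one_mul]
    _ ≤ _ := by gcongr

/-- **Kunz–Souillard localization estimate** in a window of `M+2` sites. -/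
theorem KS {δ : ℝ} (hδ : 0 < δ) : ∃ ρ : ℝ, 0 < ρ ∧ ρ < 1 ∧ ∀ (A0 : ℝ), 0 ≤ A0 →
    ∀ (M q : ℕ) (U b : ℕ → Xi → ℝ) (κ : ℕ → ℕ × ℕ), Ind δ (M+2) U b κ → q ≤ M →
    ∀ (η : ℝ), 0 < η → ∀ B : Set Xi, MeasurableSet B →
    (∀ Z ∈ B, |U (M+1) Z| ≤ A0 ∧ ∃ E : ℝ, |E| ≤ A0 + 2 ∧ pp (fun n => U n Z) E (M+3) = 0 ∧
      η * (∑ k ∈ Finset.range (M+2), pp (fun n => U n Z) E (k+1) ^ 2) ≤
        |pp (fun n => U n Z) E (q+1) * pp (fun n => U n Z) E (M+2)|) →
    PP B ≤ ENNReal.ofReal (δ⁻¹ * η⁻¹ * (2 * (A0 + 2)) *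
      (Real.sqrt (2 * (2 * A0 + 2) / δ) * ρ⁻¹ * ρ ^ (M-q))) := by
  obtain ⟨ρ, hρ0, hρ1, hρ⟩ := contr' hδ
  refine ⟨ρ, hρ0, hρ1, ?_⟩
  intro A0 hA0 M q U b κ h hq η hη B hB hbad
  set R : ℝ := Real.sqrt (2 * (2 * A0 + 2) / δ) * ρ⁻¹ * ρ ^ (M-q) with hR
  have hR0 : 0 ≤ R := by positivity
  -- pointwise bound of the inner integral
  have hinner : ∀ Z, ∫⁻ v : unitInterval, B.indicator 1 (update Z (κ (M+1)) v)
      ≤ ENNReal.ofReal δ⁻¹ * (∫⁻ E in Icc (-(A0+2)) (A0+2),
        ENNReal.ofReal η⁻¹ * FF (2 * A0 + 2) δ M q U b E 0 Z) := by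
    intro Z
    have hm : MeasurableSet {v : unitInterval | update Z (κ (M+1)) v ∈ B} :=
      (measurable_update Z) hB
    have h1 : ∫⁻ v : unitInterval, B.indicator (1 : Xi → ℝ≥0∞) (update Z (κ (M+1)) v)
        = (volume : Measure unitInterval) {v : unitInterval | update Z (κ (M+1)) v ∈ B} := by
      rw [← lintegral_indicator_one hm]
      rfl
    rw [h1]
    have hsub : {v : unitInterval | update Z (κ (M+1)) v ∈ B} ⊆
        {v : unitInterval | b (M+1) Z + δ * (v:ℝ) ∈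
          gl (fun n => U n Z) M '' Sset (fun n => U n Z) (A0+2) (2*A0+2) η M q} := by
      intro v hv
      obtain ⟨hUb, E, hE1, hE2, hE3⟩ := hbad _ hv
      have hc : ∀ n, n ≤ M + 2 → pp (fun k => U k (update Z (κ (M+1)) v)) E n = pp (fun k => U k Z) E n := by
        intro n hn
        apply pp_congr
        intro k hk
        exact h.ne (M+1) (by omega) k (by omega) (by omega) Z v
      have hs : ∑ k ∈ Finset.range (M+2), pp (fun n => U n (update Z (κ (M+1)) v)) E (k+1) ^ 2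
          = ∑ k ∈ Finset.range (M+2), pp (fun n => U n Z) E (k+1) ^ 2 := by
        apply Finset.sum_congr rfl
        intro k hk
        rw [hc (k+1) (by have := Finset.mem_range.1 hk; omega)]
      rw [hs, hc (q+1) (by omega), hc (M+2) le_rfl] at hE3
      have hpos : 0 < ∑ k ∈ Finset.range (M+2), pp (fun n => U n Z) E (k+1) ^ 2 := by
        rw [Finset.sum_range_succ']
        have : pp (fun n => U n Z) E (0+1) = 1 := rfl
        rw [this]
        have : 0 ≤ ∑ k ∈ Finset.range (M+1), pp (fun n => U n Z) E (k+1+1) ^ 2 :=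
          Finset.sum_nonneg fun i _ => sq_nonneg _
        linarith
      have hne : pp (fun n => U n Z) E (M+2) ≠ 0 := by
        intro h0
        rw [h0, mul_zero, abs_zero] at hE3
        have := mul_pos hη hpos
        linarith
      have hE2' : (E - U (M+1) (update Z (κ (M+1)) v)) * pp (fun n => U n Z) E (M+2)
          - pp (fun n => U n Z) E (M+1) = 0 := by
        have e : pp (fun n => U n (update Z (κ (M+1)) v)) E (M+3)
            = (E - U (M+1) (update Z (κ (M+1)) v)) * pp (fun n => U n (update Z (κ (M+1)) v)) E (M+2)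
              - pp (fun n => U n (update Z (κ (M+1)) v)) E (M+1) := rfl
        rw [e, hc (M+2) le_rfl, hc (M+1) (by omega)] at hE2
        exact hE2
      refine ⟨E, ⟨hE1, hne, ?_, hE3⟩, ?_⟩
      · have e : pp (fun n => U n Z) E (M+1)
            = (E - U (M+1) (update Z (κ (M+1)) v)) * pp (fun n => U n Z) E (M+2) := by linarith
        rw [e, abs_mul]
        gcongr
        calc |E - U (M+1) (update Z (κ (M+1)) v)| ≤ |E| + |U (M+1) (update Z (κ (M+1)) v)| := abs_sub _ _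
          _ ≤ (A0 + 2) + A0 := by gcongr
          _ = _ := by ring
      · simp only [gl]
        rw [← h.self (M+1) (by omega) Z v]
        field_simp
        linarith
    calc (volume : Measure unitInterval) {v : unitInterval | update Z (κ (M+1)) v ∈ B}
        ≤ _ := measure_mono hsub
      _ ≤ ENNReal.ofReal δ⁻¹ * volume (gl (fun n => U n Z) M '' Sset (fun n => U n Z) (A0+2) (2*A0+2) η M q) :=
          vol_unit_le hδ _ _
      _ ≤ ENNReal.ofReal δ⁻¹ * (∫⁻ E in Icc (-(A0+2)) (A0+2),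
            ENNReal.ofReal η⁻¹ * FF (2 * A0 + 2) δ M q U b E 0 Z) := by
          gcongr
          refine (vol_image_gl _ M _ (measurableSet_Sset _ _ _ _ _ _) (fun E hE => hE.2.1)).trans ?_
          calc ∫⁻ E in Sset (fun n => U n Z) (A0+2) (2*A0+2) η M q,
                ENNReal.ofReal ((∑ k ∈ Finset.range (M+2), pp (fun n => U n Z) E (k+1) ^ 2) /
                  pp (fun n => U n Z) E (M+2) ^ 2)
              ≤ ∫⁻ E in Sset (fun n => U n Z) (A0+2) (2*A0+2) η M q,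
                ENNReal.ofReal η⁻¹ * FF (2 * A0 + 2) δ M q U b E 0 Z := by
                apply setLIntegral_mono' (measurableSet_Sset _ _ _ _ _ _)
                intro E hE
                exact Sset_bound _ _ _ hη M q δ _ E hE
            _ ≤ _ := by
                apply lintegral_mono_set
                intro E hE
                have := abs_le.1 hE.1
                exact ⟨this.1, this.2⟩
  have hmB : Measurable (B.indicator (1 : Xi → ℝ≥0∞)) := measurable_one.indicator hB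
  have hmF := measurable_FF (2 * A0 + 2) δ M q h.mU h.mb 0
  calc PP B = ∫⁻ Z, B.indicator 1 Z ∂PP := (lintegral_indicator_one hB).symm
    _ = ∫⁻ Z, (∫⁻ v : unitInterval, B.indicator 1 (update Z (κ (M+1)) v)) ∂PP := resample _ hmB
    _ ≤ ∫⁻ Z, ENNReal.ofReal δ⁻¹ * (∫⁻ E in Icc (-(A0+2)) (A0+2),
        ENNReal.ofReal η⁻¹ * FF (2 * A0 + 2) δ M q U b E 0 Z) ∂PP := lintegral_mono hinner
    _ = ENNReal.ofReal δ⁻¹ * (ENNReal.ofReal η⁻¹ * ∫⁻ Z, (∫⁻ E in Icc (-(A0+2)) (A0+2),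
        FF (2 * A0 + 2) δ M q U b E 0 Z) ∂PP) := by
        rw [lintegral_const_mul' _ _ (by finiteness)]
        congr 1
        rw [← lintegral_const_mul' _ _ (by finiteness)]
        apply lintegral_congr
        intro Z
        rw [lintegral_const_mul' _ _ (by finiteness)]
    _ = ENNReal.ofReal δ⁻¹ * (ENNReal.ofReal η⁻¹ * ∫⁻ E in Icc (-(A0+2)) (A0+2), (∫⁻ Z,
        FF (2 * A0 + 2) δ M q U b E 0 Z ∂PP)) := by
        rw [lintegral_lintegral_swap hmF.aemeasurable]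
    _ ≤ ENNReal.ofReal δ⁻¹ * (ENNReal.ofReal η⁻¹ * ∫⁻ E in Icc (-(A0+2)) (A0+2), ENNReal.ofReal R) := by
        gcongr with E
        exact FF_bound (by linarith) hρ h E hq
    _ = ENNReal.ofReal (δ⁻¹ * η⁻¹ * (2 * (A0 + 2)) * R) := by
        rw [lintegral_const, Measure.restrict_apply MeasurableSet.univ, univ_inter, Real.volume_Icc,
          ← ENNReal.ofReal_mul hR0, ← ENNReal.ofReal_mul (by positivity),
          ← ENNReal.ofReal_mul (by positivity)]
        congr 1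
        ring

end Pool.Agent.K9h46.LP
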