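import Pool.Agent.K9h46.LP.Iter
set_option autoImplicit false
open MeasureTheory ENNReal Set Function
namespace Pool.Agent.K9h46.LP

abbrev Xi := ℕ × ℕ → unitInterval

noncomputable def PP : Measure Xi := Measure.infinitePi (fun _ => (volume : Measure unitInterval))

instance : IsProbabilityMeasure PP := by unfold PP; infer_instance

lemma map_update (i : ℕ × ℕ) :
    Measure.map (fun p : Xi × unitInterval => update p.1 i p.2) (PP.prod volume) = PP := by
  unfold PP
  apply Measure.eq_infinitePi
  intro s t ht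
  have hm : Measurable (fun p : Xi × unitInterval => update p.1 i p.2) := by fun_prop
  rw [Measure.map_apply hm (MeasurableSet.pi s.countable_toSet (fun j _ => ht j))]
  by_cases hi : i ∈ s
  · have : (fun p : Xi × unitInterval => update p.1 i p.2) ⁻¹' ((s : Set (ℕ × ℕ)).pi t)
        = (((s.erase i : Finset (ℕ × ℕ)) : Set (ℕ × ℕ)).pi t) ×ˢ (t i) := by
      ext ⟨Z, v⟩
      simp only [mem_preimage, Set.mem_pi, Finset.mem_coe, mem_prod, Finset.mem_erase]
      constructor
      · intro h
        refine ⟨fun j hj => ?_, ?_⟩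
        · have := h j hj.2
          rwa [update_of_ne hj.1] at this
        · have := h i hi
          rwa [update_self] at this
      · rintro ⟨h1, h2⟩ j hj
        by_cases hji : j = i
        · subst hji; rwa [update_self]
        · rw [update_of_ne hji]; exact h1 j ⟨hji, hj⟩
    rw [this, Measure.prod_prod, Measure.infinitePi_pi _ (fun j _ => ht j),
      Finset.prod_erase_mul _ _ hi]
  · have : (fun p : Xi × unitInterval => update p.1 i p.2) ⁻¹' ((s : Set (ℕ × ℕ)).pi t)
        = ((s : Set (ℕ × ℕ)).pi t) ×ˢ univ := by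
      ext ⟨Z, v⟩
      simp only [mem_preimage, Set.mem_pi, Finset.mem_coe, mem_prod, mem_univ, and_true]
      constructor
      · intro h j hj
        have := h j hj
        rwa [update_of_ne (by rintro rfl; exact hi hj)] at this
      · intro h j hj
        rw [update_of_ne (by rintro rfl; exact hi hj)]; exact h j hj
    rw [this, Measure.prod_prod, Measure.infinitePi_pi _ (fun j _ => ht j)]
    simp

lemma resample (i : ℕ × ℕ) {F : Xi → ℝ≥0∞} (hF : Measurable F) :
    ∫⁻ Z, F Z ∂PP = ∫⁻ Z, (∫⁻ v : unitInterval, F (update Z i v)) ∂PP := by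
  conv_lhs => rw [← map_update i]
  rw [lintegral_map hF (by fun_prop), lintegral_prod _ (by
    exact (hF.comp (by fun_prop : Measurable fun p : Xi × unitInterval => update p.1 i p.2)).aemeasurable)]

lemma lintegral_unit (f : ℝ → ℝ≥0∞) :
    ∫⁻ v : unitInterval, f v = ∫⁻ v in Icc (0:ℝ) 1, f v :=
  lintegral_subtype_comap measurableSet_Icc f

/-- transfer recursion, shifted by one -/
noncomputable def pp (V : ℕ → ℝ) (E : ℝ) : ℕ → ℝ
  | 0 => 0
  | 1 => 1
  | n+2 => (E - V n) * pp V E (n+1) - pp V E n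

lemma pp_congr (V V' : ℕ → ℝ) (E : ℝ) : ∀ n, (∀ k, k + 2 ≤ n → V k = V' k) → pp V E n = pp V' E n := by
  intro n
  induction n using Nat.twoStepInduction with
  | zero => intro _; rfl
  | one => intro _; rfl
  | more n ih1 ih2 =>
    intro h
    simp only [pp]
    rw [ih1 (fun k hk => h k (by omega)), ih2 (fun k hk => h k (by omega)), h n le_rfl]

lemma pp_cont (n : ℕ) : Continuous (fun p : (ℕ → ℝ) × ℝ => pp p.1 p.2 n) := by
  induction n using Nat.twoStepInduction with
  | zero => simpa [pp] using continuous_const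
  | one => simpa [pp] using continuous_const
  | more n ih1 ih2 =>
    simp only [pp]
    fun_prop

lemma pp_cont_E (V : ℕ → ℝ) (n : ℕ) : Continuous (fun E : ℝ => pp V E n) :=
  (pp_cont n).comp (f := fun E : ℝ => (V, E)) (by fun_prop)

/-- derivative in the energy -/
noncomputable def pd (V : ℕ → ℝ) (E : ℝ) : ℕ → ℝ
  | 0 => 0
  | 1 => 0
  | n+2 => pp V E (n+1) + (E - V n) * pd V E (n+1) - pd V E n

lemma pp_deriv (V : ℕ → ℝ) (E : ℝ) (n : ℕ) : HasDerivAt (fun e => pp V e n) (pd V E n) E := by
  induction n using Nat.twoStepInduction with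
  | zero => simpa [pp, pd] using hasDerivAt_const E (0:ℝ)
  | one => simpa [pp, pd] using hasDerivAt_const E (1:ℝ)
  | more n ih1 ih2 =>
    simp only [pp, pd]
    have h := (((hasDerivAt_id E).sub_const (V n)).mul ih2).sub ih1
    refine h.congr_deriv ?_
    simp

lemma CD (V : ℕ → ℝ) (E : ℝ) (n : ℕ) :
    pd V E (n+1) * pp V E n - pd V E n * pp V E (n+1) = ∑ k ∈ Finset.range n, pp V E (k+1) ^ 2 := by
  induction n with
  | zero => simp [pp, pd]
  | succ n ih =>
    rw [Finset.sum_range_succ, ← ih]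
    simp only [pp, pd]
    ring

/-- the last potential as a function of the energy -/
noncomputable def gl (V : ℕ → ℝ) (M : ℕ) (E : ℝ) : ℝ := E - pp V E (M+1) / pp V E (M+2)

lemma gl_deriv (V : ℕ → ℝ) (M : ℕ) (E : ℝ) (h : pp V E (M+2) ≠ 0) :
    HasDerivAt (gl V M) ((∑ k ∈ Finset.range (M+2), pp V E (k+1) ^ 2) / pp V E (M+2) ^ 2) E := by
  unfold gl
  have h1 := (hasDerivAt_id E).sub ((pp_deriv V E (M+1)).div (pp_deriv V E (M+2)) h)
  refine h1.congr_deriv ?_
  rw [Finset.sum_range_succ, ← CD V E (M+1)]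
  field_simp
  ring

lemma vol_image_gl (V : ℕ → ℝ) (M : ℕ) (S : Set ℝ) (hS : MeasurableSet S)
    (h0 : ∀ E ∈ S, pp V E (M+2) ≠ 0) :
    volume (gl V M '' S) ≤ ∫⁻ E in S,
      ENNReal.ofReal ((∑ k ∈ Finset.range (M+2), pp V E (k+1) ^ 2) / pp V E (M+2) ^ 2) := by
  have h := addHaar_image_le_lintegral_abs_det_fderiv (volume : Measure ℝ) hS
    (f := gl V M) (fun x hx => ((gl_deriv V M x (h0 x hx)).hasDerivWithinAt (s := S)).hasFDerivWithinAt)
  refine h.trans (le_of_eq ?_)
  apply lintegral_congr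
  intro x
  rw [ContinuousLinearMap.det_toSpanSingleton, abs_of_nonneg]
  exact div_nonneg (Finset.sum_nonneg fun i _ => sq_nonneg _) (sq_nonneg _)

end Pool.Agent.K9h46.LP
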