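import Mathlib
set_option autoImplicit false
open Finset
namespace Pool.Agent.K9h46.LP

noncomputable abbrev Wn (L : ℕ) : Finset ℤ := Finset.Icc (-(L:ℤ)) L

/-- eigenvector of the window `[-L, L]` -/
def Ev (V : ℤ → ℝ) (L : ℕ) (E : ℝ) (φ : ℤ → ℝ) : Prop :=
  (∀ n, n ∉ Wn L → φ n = 0) ∧ (∀ n ∈ Wn L, φ (n+1) + φ (n-1) + V n * φ n = E * φ n)

noncomputable def dot (L : ℕ) (φ ψ : ℤ → ℝ) : ℝ := ∑ n ∈ Wn L, φ n * ψ n

lemma dot_comm (L : ℕ) (φ ψ : ℤ → ℝ) : dot L φ ψ = dot L ψ φ := by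
  unfold dot; exact Finset.sum_congr rfl fun n _ => mul_comm _ _

lemma shift_sum (L : ℕ) (x f : ℤ → ℝ) (hx : ∀ n, n ∉ Wn L → x n = 0) (hf : ∀ n, n ∉ Wn L → f n = 0) :
    ∑ n ∈ Wn L, x (n+1) * f n = ∑ n ∈ Wn L, x n * f (n-1) := by
  have h1 : ∑' n : ℤ, x (n+1) * f n = ∑ n ∈ Wn L, x (n+1) * f n :=
    tsum_eq_sum (fun n hn => by rw [hf n hn, mul_zero])
  have h2 : ∑' n : ℤ, x n * f (n-1) = ∑ n ∈ Wn L, x n * f (n-1) :=
    tsum_eq_sum (fun n hn => by rw [hx n hn, zero_mul])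
  rw [← h1, ← h2, ← (Equiv.addRight (1:ℤ)).tsum_eq (fun n => x n * f (n-1))]
  simp

lemma hop_symm (L : ℕ) (x f : ℤ → ℝ) (hx : ∀ n, n ∉ Wn L → x n = 0) (hf : ∀ n, n ∉ Wn L → f n = 0) :
    dot L (fun n => x (n+1) + x (n-1)) f = dot L x (fun n => f (n+1) + f (n-1)) := by
  unfold dot
  have h1 := shift_sum L x f hx hf
  have h2 := shift_sum L f x hf hx
  simp only [add_mul, mul_add, Finset.sum_add_distrib]
  have e1 : ∑ n ∈ Wn L, x (n-1) * f n = ∑ n ∈ Wn L, f n * x (n-1) :=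
    Finset.sum_congr rfl fun n _ => mul_comm _ _
  have e2 : ∑ n ∈ Wn L, x n * f (n+1) = ∑ n ∈ Wn L, f (n+1) * x n :=
    Finset.sum_congr rfl fun n _ => mul_comm _ _
  rw [e1, e2, h1, h2]
  ring

/-- spectral theorem for the window -/
theorem spectral (V : ℤ → ℝ) (L : ℕ) : ∃ (e : Wn L → ℝ) (f : Wn L → ℤ → ℝ),
    (∀ i, Ev V L (e i) (f i)) ∧ (∀ i j, dot L (f i) (f j) = if i = j then 1 else 0) ∧
    (∀ n ∈ Wn L, ∀ m ∈ Wn L, ∑ i, f i n * f i m = if n = m then 1 else 0) := by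
  classical
  set A : Matrix (Wn L) (Wn L) ℝ := Matrix.of fun i j =>
    (if (j:ℤ) = i + 1 then 1 else 0) + (if (j:ℤ) = i - 1 then 1 else 0) + (if (j:ℤ) = i then V i else 0)
    with hA
  have hsym : A.IsHermitian := by
    ext i j
    simp only [hA, Matrix.conjTranspose_apply, Matrix.of_apply, star_trivial]
    have h1 : ((i:ℤ) = j + 1) ↔ ((j:ℤ) = i - 1) := by constructor <;> intro h <;> omega
    have h2 : ((i:ℤ) = j - 1) ↔ ((j:ℤ) = i + 1) := by constructor <;> intro h <;> omega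
    simp only [h1, h2]
    by_cases h3 : (i:ℤ) = j
    · simp [h3]
    · have h4 : ¬ ((j:ℤ) = i) := fun h => h3 h.symm
      simp only [if_neg h3, if_neg h4]
      ring
  let ext0 : (Wn L → ℝ) → ℤ → ℝ := fun x n => if h : n ∈ Wn L then x ⟨n, h⟩ else 0
  have hext : ∀ (x : Wn L → ℝ) (i : Wn L), ext0 x i = x i := by
    intro x i; simp only [ext0]; rw [dif_pos i.2]
  have hmul : ∀ (x : Wn L → ℝ) (i : Wn L), (A.mulVec x) i
      = ext0 x (i+1) + ext0 x (i-1) + V i * ext0 x i := by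
    intro x i
    have h1 : (A.mulVec x) i = ∑ j ∈ Wn L, ((if (j:ℤ) = i + 1 then 1 else 0) +
      (if (j:ℤ) = i - 1 then 1 else 0) + (if (j:ℤ) = i then V i else 0)) * ext0 x j := by
      rw [← Finset.sum_coe_sort (Wn L)]
      simp only [Matrix.mulVec, dotProduct, hA, Matrix.of_apply]
      apply Finset.sum_congr rfl
      intro j _
      rw [hext]
    rw [h1]
    simp only [add_mul, Finset.sum_add_distrib, ite_mul, one_mul, zero_mul]
    rw [Finset.sum_ite_eq', Finset.sum_ite_eq', Finset.sum_ite_eq']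
    have hz : ∀ n, n ∉ Wn L → ext0 x n = 0 := by
      intro n hn; simp only [ext0]; rw [dif_neg hn]
    rw [if_pos i.2]
    congr 2
    · split_ifs with h
      · rfl
      · rw [hz _ h]
    · split_ifs with h
      · rfl
      · rw [hz _ h]
  set b := hsym.eigenvectorBasis with hb
  refine ⟨hsym.eigenvalues, fun i => ext0 (b i), ?_, ?_, ?_⟩
  · intro i
    refine ⟨fun n hn => by simp only [ext0]; rw [dif_neg hn], fun n hn => ?_⟩
    have h := congrFun (hsym.mulVec_eigenvectorBasis i) ⟨n, hn⟩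
    rw [hmul] at h
    rw [h]
    simp only [Pi.smul_apply, smul_eq_mul, ext0]
    rw [dif_pos hn]
  · intro i j
    have h := (orthonormal_iff_ite.1 b.orthonormal) i j
    rw [← h]
    unfold dot
    rw [← Finset.sum_coe_sort (Wn L), PiLp.inner_apply]
    apply Finset.sum_congr rfl
    intro k _
    show ext0 (b i) k * ext0 (b j) k = _
    rw [hext, hext]
    simp [mul_comm]
  · intro n hn m hm
    have h := b.sum_inner_mul_inner (EuclideanSpace.single (⟨n, hn⟩ : Wn L) (1:ℝ))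
      (EuclideanSpace.single (⟨m, hm⟩ : Wn L) (1:ℝ))
    rw [EuclideanSpace.inner_single_left] at h
    simp only [EuclideanSpace.inner_single_left, EuclideanSpace.inner_single_right] at h
    simp only [ext0, dif_pos hn, dif_pos hm]
    simp only [map_one, one_mul, mul_one, conj_trivial] at h
    rw [h]
    by_cases hnm : n = m
    · subst hnm; simp
    · rw [if_neg hnm, PiLp.single_apply, if_neg]
      intro h'; exact hnm (by simpa using h')

/-- the defect `(H - E) x` in the window -/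
noncomputable def defect (V : ℤ → ℝ) (E : ℝ) (x : ℤ → ℝ) (n : ℤ) : ℝ :=
  x (n+1) + x (n-1) + V n * x n - E * x n

lemma parseval (L : ℕ) (f : Wn L → ℤ → ℝ)
    (hf : ∀ n ∈ Wn L, ∀ m ∈ Wn L, ∑ i, f i n * f i m = if n = m then 1 else 0) (x : ℤ → ℝ) :
    ∑ i, (dot L (f i) x) ^ 2 = dot L x x := by
  unfold dot
  have h1 : ∀ i, (∑ n ∈ Wn L, f i n * x n) ^ 2
      = ∑ n ∈ Wn L, ∑ m ∈ Wn L, (f i n * f i m) * (x n * x m) := by
    intro i
    rw [sq, Finset.sum_mul_sum]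
    apply Finset.sum_congr rfl; intro n _
    apply Finset.sum_congr rfl; intro m _
    ring
  simp only [h1]
  rw [Finset.sum_comm]
  apply Finset.sum_congr rfl
  intro n hn
  rw [Finset.sum_comm]
  have h2 : ∀ m ∈ Wn L, ∑ i, (f i n * f i m) * (x n * x m) = (if n = m then 1 else 0) * (x n * x m) := by
    intro m hm
    rw [← Finset.sum_mul, hf n hn m hm]
  rw [Finset.sum_congr rfl h2]
  simp only [ite_mul, one_mul, zero_mul]
  rw [Finset.sum_ite_eq, if_pos hn]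

lemma dot_defect (V : ℤ → ℝ) (L : ℕ) (E e : ℝ) (f x : ℤ → ℝ) (hf : Ev V L e f)
    (hx : ∀ n, n ∉ Wn L → x n = 0) : dot L f (defect V E x) = (e - E) * dot L f x := by
  have h := hop_symm L x f hx hf.1
  unfold dot defect at *
  have h1 : ∑ n ∈ Wn L, f n * (x (n+1) + x (n-1) + V n * x n - E * x n)
      = ∑ n ∈ Wn L, (x (n+1) + x (n-1)) * f n + ∑ n ∈ Wn L, (V n * x n * f n - E * (f n * x n)) := by
    rw [← Finset.sum_add_distrib]
    apply Finset.sum_congr rfl; intro n _; ring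
  rw [h1, h, Finset.mul_sum, ← Finset.sum_add_distrib]
  apply Finset.sum_congr rfl
  intro n hn
  have h2 := hf.2 n hn
  have h3 : f (n+1) + f (n-1) = e * f n - V n * f n := by linarith
  simp only [h3]; ring

lemma parseval_defect (V : ℤ → ℝ) (L : ℕ) (E : ℝ) (e : Wn L → ℝ) (f : Wn L → ℤ → ℝ)
    (he : ∀ i, Ev V L (e i) (f i))
    (hf : ∀ n ∈ Wn L, ∀ m ∈ Wn L, ∑ i, f i n * f i m = if n = m then 1 else 0) (x : ℤ → ℝ)
    (hx : ∀ n, n ∉ Wn L → x n = 0) :
    ∑ i, ((e i - E) * dot L (f i) x) ^ 2 = dot L (defect V E x) (defect V E x) := by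
  rw [← parseval L f hf]
  apply Finset.sum_congr rfl
  intro i _
  rw [dot_defect V L E (e i) (f i) x (he i) hx]

/-- an approximate eigenvector forces an eigenvalue nearby -/
lemma near_eigenvalue (V : ℤ → ℝ) (L : ℕ) (E κ : ℝ) (hκ : 0 ≤ κ) (e : Wn L → ℝ) (f : Wn L → ℤ → ℝ)
    (he : ∀ i, Ev V L (e i) (f i))
    (hf : ∀ n ∈ Wn L, ∀ m ∈ Wn L, ∑ i, f i n * f i m = if n = m then 1 else 0) (x : ℤ → ℝ)
    (hx : ∀ n, n ∉ Wn L → x n = 0) (hx1 : dot L x x = 1)
    (hd : dot L (defect V E x) (defect V E x) ≤ κ ^ 2) : ∃ i, |e i - E| ≤ κ := by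
  by_contra hcon
  push Not at hcon
  have h1 := parseval L f hf x
  have h2 := parseval_defect V L E e f he hf x hx
  have h3 : ∀ i, κ ^ 2 * (dot L (f i) x) ^ 2 ≤ ((e i - E) * dot L (f i) x) ^ 2 := by
    intro i
    rw [mul_pow]
    have : κ ^ 2 ≤ (e i - E) ^ 2 := by
      rw [← sq_abs (e i - E)]
      have := hcon i
      gcongr
    gcongr
  have h4 : ∑ i, (((e i - E) * dot L (f i) x) ^ 2 - κ ^ 2 * (dot L (f i) x) ^ 2) ≤ 0 := by
    rw [Finset.sum_sub_distrib, ← Finset.mul_sum, h1, h2, hx1]; linarith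
  have h5 : ∀ i, ((e i - E) * dot L (f i) x) ^ 2 - κ ^ 2 * (dot L (f i) x) ^ 2 = 0 := by
    have := (Finset.sum_eq_zero_iff_of_nonneg (fun i _ => sub_nonneg.2 (h3 i))).1
      (le_antisymm h4 (Finset.sum_nonneg fun i _ => sub_nonneg.2 (h3 i)))
    intro i; exact this i (Finset.mem_univ i)
  have h6 : ∀ i, dot L (f i) x ^ 2 = 0 := by
    intro i
    have h := h5 i
    rw [mul_pow, ← sub_mul] at h
    rcases mul_eq_zero.1 h with h | h
    · exfalso
      have h7 := hcon i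
      have : κ ^ 2 < |e i - E| ^ 2 := by gcongr
      rw [sq_abs] at this
      linarith
    · exact h
  have : ∑ i, (dot L (f i) x) ^ 2 = 0 := Finset.sum_eq_zero fun i _ => h6 i
  rw [h1, hx1] at this
  norm_num at this

/-- perturbation lemma: with separated eigenvalues an approximate eigenvector is close to an
eigenvector. -/
lemma near_eigenvector (V : ℤ → ℝ) (L : ℕ) (E κ s : ℝ) (hκ : 0 ≤ κ) (hs : 0 < s) (hκs : 2 * κ ≤ s)
    (hsep : ∀ (E1 E2 : ℝ) (f1 f2 : ℤ → ℝ), Ev V L E1 f1 → Ev V L E2 f2 → dot L f1 f1 = 1 →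
      dot L f2 f2 = 1 → dot L f1 f2 = 0 → s < |E1 - E2|) (x : ℤ → ℝ)
    (hx : ∀ n, n ∉ Wn L → x n = 0) (hx1 : dot L x x = 1)
    (hd : dot L (defect V E x) (defect V E x) ≤ κ ^ 2) :
    ∃ (E' : ℝ) (φ : ℤ → ℝ) (σ : ℝ), Ev V L E' φ ∧ dot L φ φ = 1 ∧ σ ^ 2 = 1 ∧
      dot L (fun n => x n - σ * φ n) (fun n => x n - σ * φ n) ≤ 8 * κ ^ 2 / s ^ 2 := by
  classical
  obtain ⟨e, f, he, ho, hf⟩ := spectral V L
  obtain ⟨i0, hi0⟩ := near_eigenvalue V L E κ hκ e f he hf x hx hx1 hd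
  have h1 := parseval L f hf x
  have h2 := parseval_defect V L E e f he hf x hx
  have hfar : ∀ i, i ≠ i0 → s / 2 ≤ |e i - E| := by
    intro i hi
    have h := hsep (e i) (e i0) (f i) (f i0) (he i) (he i0) (by rw [ho]; simp) (by rw [ho]; simp)
      (by rw [ho, if_neg hi])
    have h3 : |e i - e i0| ≤ |e i - E| + |e i0 - E| := by
      have := abs_sub_le (e i) E (e i0)
      rw [abs_sub_comm E (e i0)] at this
      exact this
    linarith
  set d : Wn L → ℝ := fun i => dot L (f i) x with hdd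
  have h3 : (s / 2) ^ 2 * ∑ i ∈ Finset.univ.erase i0, d i ^ 2 ≤ κ ^ 2 := by
    calc (s / 2) ^ 2 * ∑ i ∈ Finset.univ.erase i0, d i ^ 2
        = ∑ i ∈ Finset.univ.erase i0, (s / 2) ^ 2 * d i ^ 2 := Finset.mul_sum _ _ _
      _ ≤ ∑ i ∈ Finset.univ.erase i0, ((e i - E) * d i) ^ 2 := by
          apply Finset.sum_le_sum
          intro i hi
          rw [mul_pow]
          have : (s / 2) ^ 2 ≤ (e i - E) ^ 2 := by
            rw [← sq_abs (e i - E)]
            have := hfar i (Finset.ne_of_mem_erase hi)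
            gcongr
          gcongr
      _ ≤ ∑ i, ((e i - E) * d i) ^ 2 :=
          Finset.sum_le_sum_of_subset_of_nonneg (Finset.erase_subset _ _) (fun i _ _ => sq_nonneg _)
      _ ≤ κ ^ 2 := by rw [h2]; exact hd
  have h4 : ∑ i ∈ Finset.univ.erase i0, d i ^ 2 = 1 - d i0 ^ 2 := by
    have h9 : d i0 ^ 2 + ∑ i ∈ Finset.univ.erase i0, d i ^ 2 = ∑ i, d i ^ 2 :=
      Finset.add_sum_erase Finset.univ (fun i => d i ^ 2) (Finset.mem_univ i0)
    rw [h1, hx1] at h9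
    linarith
  rw [h4] at h3
  have hd1 : d i0 ^ 2 ≤ 1 := by
    have : 0 ≤ ∑ i ∈ Finset.univ.erase i0, d i ^ 2 := Finset.sum_nonneg fun i _ => sq_nonneg _
    linarith
  have habs : |d i0| ≤ 1 := by
    rw [← sq_abs] at hd1
    nlinarith [abs_nonneg (d i0)]
  have hsig : ∃ σ : ℝ, σ ^ 2 = 1 ∧ σ * d i0 = |d i0| := by
    rcases le_total 0 (d i0) with h | h
    · exact ⟨1, by norm_num, by rw [one_mul, abs_of_nonneg h]⟩
    · exact ⟨-1, by norm_num, by rw [abs_of_nonpos h]; ring⟩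
  obtain ⟨σ, hσ, hσd⟩ := hsig
  refine ⟨e i0, f i0, σ, he i0, by rw [ho]; simp, hσ, ?_⟩
  have h5 : dot L (fun n => x n - σ * f i0 n) (fun n => x n - σ * f i0 n)
      = dot L x x - 2 * (σ * d i0) + σ ^ 2 * dot L (f i0) (f i0) := by
    simp only [hdd, dot, Finset.mul_sum]
    rw [← Finset.sum_sub_distrib, ← Finset.sum_add_distrib]
    apply Finset.sum_congr rfl
    intro n _
    ring
  rw [h5, hx1, hσd, hσ, ho, if_pos rfl]
  have h6 : 1 - |d i0| ≤ 1 - d i0 ^ 2 := by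
    have : d i0 ^ 2 ≤ |d i0| := by
      rw [← sq_abs, sq]
      nlinarith [abs_nonneg (d i0)]
    linarith
  rw [le_div_iff₀ (by positivity)]
  have h7 : (s/2)^2 * (1 - |d i0|) ≤ κ ^ 2 := le_trans (by gcongr) h3
  nlinarith

end Pool.Agent.K9h46.LP
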