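import Pool.Agent.K9h46.LP.KS
import Pool.Agent.K9h46.LP.Spec
set_option autoImplicit false
open MeasureTheory ENNReal Set Function
namespace Pool.Agent.K9h46.LP

lemma Ev_congr {V V' : ℤ → ℝ} {L : ℕ} {E : ℝ} {φ : ℤ → ℝ} (h : ∀ n ∈ Wn L, V n = V' n)
    (hE : Ev V L E φ) : Ev V' L E φ :=
  ⟨hE.1, fun n hn => by rw [← h n hn]; exact hE.2 n hn⟩

/-- A pair of orthonormal window eigenvectors with close energies, the first being large at `m0`. -/
def BadPair (V : ℤ → ℝ) (L : ℕ) (s : ℝ) (m0 : ℤ) : Prop :=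
  ∃ (E E' : ℝ) (φ φ' : ℤ → ℝ), Ev V L E φ ∧ Ev V L E' φ' ∧ dot L φ φ = 1 ∧ dot L φ' φ' = 1 ∧
    dot L φ φ' = 0 ∧ |E - E'| ≤ s ∧ 1 / (2 * L + 1 : ℝ) ≤ φ m0 ^ 2

lemma BadPair_congr {V V' : ℤ → ℝ} {L : ℕ} {s : ℝ} {m0 : ℤ} (h : ∀ n ∈ Wn L, V n = V' n)
    (hb : BadPair V L s m0) : BadPair V' L s m0 := by
  obtain ⟨E, E', φ, φ', h1, h2, h3⟩ := hb
  exact ⟨E, E', φ, φ', Ev_congr h h1, Ev_congr h h2, h3⟩

lemma dot_add_smul (L : ℕ) (a b : ℝ) (x y z : ℤ → ℝ) :
    dot L (fun n => a * x n + b * y n) z = a * dot L x z + b * dot L y z := by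
  simp only [dot, Finset.mul_sum]
  rw [← Finset.sum_add_distrib]
  exact Finset.sum_congr rfl fun n _ => by ring

lemma dot_self_nonneg (L : ℕ) (x : ℤ → ℝ) : 0 ≤ dot L x x :=
  Finset.sum_nonneg fun n _ => mul_self_nonneg _

lemma dot_abs_le_one (L : ℕ) (x y : ℤ → ℝ) (hx : dot L x x = 1) (hy : dot L y y = 1) :
    |dot L x y| ≤ 1 := by
  have h1 : 0 ≤ dot L (fun n => x n - y n) (fun n => x n - y n) := dot_self_nonneg _ _
  have h2 : 0 ≤ dot L (fun n => x n + y n) (fun n => x n + y n) := dot_self_nonneg _ _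
  have e1 : dot L (fun n => x n - y n) (fun n => x n - y n) = dot L x x - 2 * dot L x y + dot L y y := by
    simp only [dot, Finset.mul_sum]
    rw [← Finset.sum_sub_distrib, ← Finset.sum_add_distrib]
    exact Finset.sum_congr rfl fun n _ => by ring
  have e2 : dot L (fun n => x n + y n) (fun n => x n + y n) = dot L x x + 2 * dot L x y + dot L y y := by
    simp only [dot, Finset.mul_sum]
    rw [← Finset.sum_add_distrib, ← Finset.sum_add_distrib]
    exact Finset.sum_congr rfl fun n _ => by ring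
  rw [e1, hx, hy] at h1
  rw [e2, hx, hy] at h2
  rw [abs_le]
  constructor <;> linarith

lemma rank_one (V : ℤ → ℝ) (L : ℕ) (m0 : ℤ) (hm0 : m0 ∈ Wn L) (t1 t2 E1 E2 : ℝ) (φ1 φ2 : ℤ → ℝ)
    (h1 : Ev (update V m0 t1) L E1 φ1) (h2 : Ev (update V m0 t2) L E2 φ2) :
    (E1 - E2) * dot L φ1 φ2 = (t1 - t2) * (φ1 m0 * φ2 m0) := by
  rw [← dot_defect (update V m0 t1) L E2 E1 φ1 φ2 h1 h2.1]
  unfold dot
  rw [Finset.sum_eq_single_of_mem m0 hm0]
  · have := h2.2 m0 hm0
    rw [update_self] at this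
    simp only [defect, update_self]
    have e : φ2 (m0+1) + φ2 (m0-1) = E2 * φ2 m0 - t2 * φ2 m0 := by linarith
    rw [e]; ring
  · intro n hn hne
    have := h2.2 n hn
    rw [update_of_ne hne] at this
    simp only [defect, update_of_ne hne]
    have e : φ2 (n+1) + φ2 (n-1) = E2 * φ2 n - V n * φ2 n := by linarith
    rw [e]; ring

lemma spc_det (V : ℤ → ℝ) (L : ℕ) (m0 : ℤ) (hm0 : m0 ∈ Wn L) (s : ℝ) (hs : 0 ≤ s) :
    volume {t : ℝ | BadPair (update V m0 t) L s m0} ≤ ENNReal.ofReal (2 * s * (2 * L + 1) ^ 2) := by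
  obtain ⟨e, f, he, ho, hf⟩ := spectral (update V m0 0) L
  set N : ℝ := 2 * L + 1 with hN
  have hNpos : 0 < N := by positivity
  set T : Wn L → Set ℝ := fun i => {t | ∃ (E : ℝ) (φ : ℤ → ℝ), Ev (update V m0 t) L E φ ∧
    dot L φ φ = 1 ∧ 1 / N ≤ φ m0 ^ 2 ∧ |e i - E| ≤ s} with hT
  have hsub : {t : ℝ | BadPair (update V m0 t) L s m0} ⊆ ⋃ i, T i := by
    rintro t ⟨E, E', φ, φ', h1, h2, h3, h4, h5, h6, h7⟩
    have hr : 0 < φ m0 ^ 2 + φ' m0 ^ 2 := by
      have : 0 < 1 / N := by positivity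
      have := sq_nonneg (φ' m0)
      linarith
    set r := Real.sqrt (φ m0 ^ 2 + φ' m0 ^ 2) with hrr
    have hrpos : 0 < r := Real.sqrt_pos.2 hr
    have hrsq : r ^ 2 = φ m0 ^ 2 + φ' m0 ^ 2 := Real.sq_sqrt hr.le
    set a := φ' m0 / r with ha
    set b := - φ m0 / r with hb
    have hab : a ^ 2 + b ^ 2 = 1 := by
      rw [ha, hb, div_pow, div_pow, ← add_div, div_eq_one_iff_eq (by positivity), hrsq]; ring
    set x : ℤ → ℝ := fun n => a * φ n + b * φ' n with hx
    have hx0 : x m0 = 0 := by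
      simp only [hx, ha, hb]; field_simp; ring
    have hxout : ∀ n, n ∉ Wn L → x n = 0 := by
      intro n hn; simp only [hx]; rw [h1.1 n hn, h2.1 n hn]; ring
    have hx1 : dot L x x = 1 := by
      have e1 : dot L x x = a * dot L φ x + b * dot L φ' x := dot_add_smul L a b φ φ' x
      have e2 : dot L φ x = a * dot L φ φ + b * dot L φ φ' := by
        rw [dot_comm, dot_add_smul, dot_comm L φ' φ]
      have e3 : dot L φ' x = a * dot L φ φ' + b * dot L φ' φ' := by
        rw [dot_comm, dot_add_smul]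
      rw [e1, e2, e3, h3, h4, h5]
      have : a * (a * 1 + b * 0) + b * (a * 0 + b * 1) = a ^ 2 + b ^ 2 := by ring
      rw [this]; exact hab
    have hdef : ∀ n ∈ Wn L, defect (update V m0 0) E x n = b * (E' - E) * φ' n := by
      intro n hn
      have g1 := h1.2 n hn
      have g2 := h2.2 n hn
      have hVx : (update V m0 0) n * x n = (update V m0 t) n * x n := by
        by_cases hnm : n = m0
        · subst hnm; rw [hx0]; ring
        · rw [update_of_ne hnm, update_of_ne hnm]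
      simp only [defect]
      rw [hVx]
      simp only [hx]
      have g1' : φ (n+1) + φ (n-1) = E * φ n - (update V m0 t) n * φ n := by linarith
      have g2' : φ' (n+1) + φ' (n-1) = E' * φ' n - (update V m0 t) n * φ' n := by linarith
      have : a * φ (n+1) + b * φ' (n+1) + (a * φ (n-1) + b * φ' (n-1))
        = a * (φ (n+1) + φ (n-1)) + b * (φ' (n+1) + φ' (n-1)) := by ring
      rw [this, g1', g2']; ring
    have hd : dot L (defect (update V m0 0) E x) (defect (update V m0 0) E x) ≤ s ^ 2 := by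
      have e1 : dot L (defect (update V m0 0) E x) (defect (update V m0 0) E x)
          = (b * (E' - E)) ^ 2 * dot L φ' φ' := by
        simp only [dot, Finset.mul_sum]
        apply Finset.sum_congr rfl
        intro n hn
        rw [hdef n hn]; ring
      rw [e1, h4, mul_one, mul_pow]
      have hb1 : b ^ 2 ≤ 1 := by nlinarith [sq_nonneg a]
      have hE : (E' - E) ^ 2 ≤ s ^ 2 := by
        rw [← sq_abs (E' - E), abs_sub_comm]; gcongr
      calc b ^ 2 * (E' - E) ^ 2 ≤ 1 * s ^ 2 := by gcongr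
        _ = s ^ 2 := one_mul _
    obtain ⟨i, hi⟩ := near_eigenvalue (update V m0 0) L E s hs e f he hf x hxout hx1 hd
    exact mem_iUnion.2 ⟨i, E, φ, h1, h3, h7, hi⟩
  have hdiam : ∀ i, volume (T i) ≤ ENNReal.ofReal (2 * s * N) := by
    intro i
    refine (Real.volume_le_diam _).trans ?_
    apply Metric.ediam_le
    rintro t1 ⟨E1, φ1, g1, g2, g3, g4⟩ t2 ⟨E2, φ2, k1, k2, k3, k4⟩
    rw [edist_dist, Real.dist_eq]
    apply ENNReal.ofReal_le_ofReal
    have hr := rank_one V L m0 hm0 t1 t2 E1 E2 φ1 φ2 g1 k1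
    have hle : |(t1 - t2)| * (|φ1 m0| * |φ2 m0|) ≤ 2 * s := by
      rw [← abs_mul, ← abs_mul, ← hr, abs_mul]
      have hE : |E1 - E2| ≤ 2 * s := by
        have := abs_sub_le E1 (e i) E2
        rw [abs_sub_comm E1 (e i)] at this
        linarith
      have hd := dot_abs_le_one L φ1 φ2 g2 k2
      calc |E1 - E2| * |dot L φ1 φ2| ≤ (2 * s) * 1 := by gcongr
        _ = _ := by ring
    have hlow : 1 / N ≤ |φ1 m0| * |φ2 m0| := by
      have : (1 / N) ^ 2 ≤ (|φ1 m0| * |φ2 m0|) ^ 2 := by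
        rw [mul_pow, sq_abs, sq_abs, sq]
        have : (0:ℝ) ≤ 1 / N := by positivity
        gcongr
      exact le_of_sq_le_sq this (by positivity)
    have h3 : |t1 - t2| * (1 / N) ≤ 2 * s := le_trans (by gcongr) hle
    rw [mul_one_div, div_le_iff₀ hNpos] at h3
    exact h3
  calc volume {t : ℝ | BadPair (update V m0 t) L s m0} ≤ volume (⋃ i, T i) := measure_mono hsub
    _ ≤ ∑ i, volume (T i) := measure_iUnion_fintype_le _ _
    _ ≤ ∑ i : Wn L, ENNReal.ofReal (2 * s * N) := Finset.sum_le_sum fun i _ => hdiam i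
    _ = ENNReal.ofReal (2 * s * N ^ 2) := by
        rw [Finset.sum_const, Finset.card_univ, Fintype.card_coe, Int.card_Icc, nsmul_eq_mul]
        have h1 : ((((L:ℤ) + 1 - (-(L:ℤ))).toNat : ℕ) : ℝ≥0∞) = ENNReal.ofReal N := by
          have : ((L:ℤ) + 1 - (-(L:ℤ))).toNat = 2 * L + 1 := by omega
          rw [this, hN, ← ENNReal.ofReal_natCast]
          congr 1; push_cast; ring
        rw [h1, ← ENNReal.ofReal_mul hNpos.le]
        congr 1; ring

/-- **Spacing estimate.** -/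
theorem spc {δ : ℝ} (hδ : 0 < δ) (L : ℕ) (m0 : ℤ) (hm0 : m0 ∈ Wn L) (s : ℝ) (hs : 0 ≤ s)
    (U : ℤ → Xi → ℝ) (i : ℕ × ℕ) (b0 : Xi → ℝ)
    (h1 : ∀ Z v, U m0 (update Z i v) = b0 Z + δ * (v:ℝ))
    (h2 : ∀ n ∈ Wn L, n ≠ m0 → ∀ Z v, U n (update Z i v) = U n Z)
    (B : Set Xi) (hB : MeasurableSet B) (hbad : ∀ Z ∈ B, BadPair (fun n => U n Z) L s m0) :
    PP B ≤ ENNReal.ofReal (δ⁻¹ * (2 * s * (2 * L + 1) ^ 2)) := by
  have hmB : Measurable (B.indicator (1 : Xi → ℝ≥0∞)) := measurable_one.indicator hB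
  have hinner : ∀ Z, ∫⁻ v : unitInterval, B.indicator (1 : Xi → ℝ≥0∞) (update Z i v)
      ≤ ENNReal.ofReal (δ⁻¹ * (2 * s * (2 * L + 1) ^ 2)) := by
    intro Z
    have hm : MeasurableSet {v : unitInterval | update Z i v ∈ B} :=
      (measurable_update Z) hB
    have e1 : ∫⁻ v : unitInterval, B.indicator (1 : Xi → ℝ≥0∞) (update Z i v)
        = (volume : Measure unitInterval) {v : unitInterval | update Z i v ∈ B} := by
      rw [← lintegral_indicator_one hm]
      rfl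
    rw [e1]
    have hsub : {v : unitInterval | update Z i v ∈ B} ⊆
        {v : unitInterval | b0 Z + δ * (v:ℝ) ∈ {t : ℝ | BadPair (update (fun n => U n Z) m0 t) L s m0}} := by
      intro v hv
      have := hbad _ hv
      refine BadPair_congr ?_ this
      intro n hn
      by_cases hnm : n = m0
      · subst hnm; rw [update_self, h1]
      · rw [update_of_ne hnm, h2 n hn hnm]
    refine (measure_mono hsub).trans ((vol_unit_le hδ _ _).trans ?_)
    rw [ENNReal.ofReal_mul (by positivity)]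
    gcongr
    exact spc_det _ L m0 hm0 s hs
  calc PP B = ∫⁻ Z, B.indicator 1 Z ∂PP := (lintegral_indicator_one hB).symm
    _ = ∫⁻ Z, (∫⁻ v : unitInterval, B.indicator 1 (update Z i v)) ∂PP := resample _ hmB
    _ ≤ ∫⁻ Z, ENNReal.ofReal (δ⁻¹ * (2 * s * (2 * L + 1) ^ 2)) ∂PP := lintegral_mono hinner
    _ = _ := by simp

end Pool.Agent.K9h46.LP
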