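import Pool.Agent.K9h46.LP.Spc
set_option autoImplicit false
open MeasureTheory ENNReal Set Function
namespace Pool.Agent.K9h46.LP

/-- the window potentials contain independent uniform parts of strength `δ`. -/
structure IndZ (δ : ℝ) (L : ℕ) (U b : ℤ → Xi → ℝ) (κ : ℤ → ℕ × ℕ) : Prop where
  hU : ∀ n ∈ Wn L, ∀ Z, U n Z = b n Z + δ * (Z (κ n) : ℝ)
  hb : ∀ n ∈ Wn L, ∀ m ∈ Wn L, ∀ Z v, b n (update Z (κ m) v) = b n Z
  hκ : ∀ n ∈ Wn L, ∀ m ∈ Wn L, κ n = κ m → n = m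
  mb : ∀ n, Measurable (b n)
  mU : ∀ n, Measurable (U n)

lemma IndZ.toInd {δ : ℝ} {L : ℕ} {U b : ℤ → Xi → ℝ} {κ : ℤ → ℕ × ℕ} (h : IndZ δ L U b κ) (M : ℕ)
    (hM : M + 2 = 2 * L + 1) :
    Ind δ (M+2) (fun k => U ((k:ℤ) - L)) (fun k => b ((k:ℤ) - L)) (fun k => κ ((k:ℤ) - L)) where
  hU := fun n hn Z => h.hU _ (by rw [Finset.mem_Icc]; omega) Z
  hb := fun n hn m hm Z v => h.hb _ (by rw [Finset.mem_Icc]; omega) _ (by rw [Finset.mem_Icc]; omega) Z v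
  hκ := fun n hn m hm e => by
    have := h.hκ _ (by rw [Finset.mem_Icc]; omega) _ (by rw [Finset.mem_Icc]; omega) e
    omega
  mb := fun n => h.mb _
  mU := fun n => h.mU _

lemma IndZ.refl {δ : ℝ} {L : ℕ} {U b : ℤ → Xi → ℝ} {κ : ℤ → ℕ × ℕ} (h : IndZ δ L U b κ) :
    IndZ δ L (fun n => U (-n)) (fun n => b (-n)) (fun n => κ (-n)) where
  hU := fun n hn Z => h.hU _ (by rw [Finset.mem_Icc] at *; omega) Z
  hb := fun n hn m hm Z v => h.hb _ (by rw [Finset.mem_Icc] at *; omega) _ (by rw [Finset.mem_Icc] at *; omega) Z v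
  hκ := fun n hn m hm e => by
    have := h.hκ _ (by rw [Finset.mem_Icc] at *; omega) _ (by rw [Finset.mem_Icc] at *; omega) e
    omega
  mb := fun n => h.mb _
  mU := fun n => h.mU _

lemma Ev_pp {V : ℤ → ℝ} {L : ℕ} {E : ℝ} {φ : ℤ → ℝ} (h : Ev V L E φ) :
    ∀ k : ℕ, k ≤ 2 * L + 2 → φ (-(L:ℤ) - 1 + k) = φ (-(L:ℤ)) * pp (fun j => V ((j:ℤ) - L)) E k := by
  intro k
  induction k using Nat.twoStepInduction with
  | zero =>
    intro _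
    rw [h.1 _ (by rw [Finset.mem_Icc]; push_cast; omega)]
    simp [pp]
  | one =>
    intro _
    simp [pp]
  | more k ih1 ih2 =>
    intro hk
    have h1 := h.2 (-(L:ℤ) + k) (by rw [Finset.mem_Icc]; omega)
    have e1 : -(L:ℤ) - 1 + ((k+2:ℕ):ℤ) = -(L:ℤ) + k + 1 := by push_cast; ring
    have e2 : -(L:ℤ) - 1 + ((k+1:ℕ):ℤ) = -(L:ℤ) + k := by push_cast; ring
    have e3 : -(L:ℤ) - 1 + (k:ℤ) = -(L:ℤ) + k - 1 := by ring
    have g1 := ih1 (by omega)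
    have g2 := ih2 (by omega)
    rw [e3] at g1
    rw [e2] at g2
    rw [e1]
    simp only [pp]
    have e4 : ((k:ℤ) - L) = -(L:ℤ) + k := by ring
    rw [e4]
    have : φ (-(L:ℤ) + k + 1) = (E - V (-(L:ℤ) + k)) * φ (-(L:ℤ) + k) - φ (-(L:ℤ) + k - 1) := by linarith
    rw [this, g1, g2]; ring

lemma Ev_energy {V : ℤ → ℝ} {L : ℕ} {E : ℝ} {φ : ℤ → ℝ} (h : Ev V L E φ) (h1 : dot L φ φ = 1)
    {A0 : ℝ} (hV : ∀ n ∈ Wn L, |V n| ≤ A0) : |E| ≤ A0 + 2 := by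
  obtain ⟨n0, hn0, hmax⟩ := Finset.exists_max_image (Wn L) (fun n => |φ n|)
    ⟨0, by rw [Finset.mem_Icc]; omega⟩
  have hpos : 0 < |φ n0| := by
    by_contra hcon
    have h0 : |φ n0| = 0 := le_antisymm (not_lt.1 hcon) (abs_nonneg _)
    have : dot L φ φ = 0 := by
      apply Finset.sum_eq_zero
      intro n hn
      have := hmax n hn
      rw [h0] at this
      have : φ n = 0 := abs_eq_zero.1 (le_antisymm this (abs_nonneg _))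
      rw [this]; ring
    rw [h1] at this; norm_num at this
  have hall : ∀ n, |φ n| ≤ |φ n0| := by
    intro n
    by_cases hn : n ∈ Wn L
    · exact hmax n hn
    · rw [h.1 n hn, abs_zero]; exact hpos.le
  have h2 := h.2 n0 hn0
  have h3 : E * φ n0 = φ (n0+1) + φ (n0-1) + V n0 * φ n0 := h2.symm
  have h4 : |E| * |φ n0| ≤ (A0 + 2) * |φ n0| := by
    rw [← abs_mul, h3]
    calc |φ (n0+1) + φ (n0-1) + V n0 * φ n0| ≤ |φ (n0+1)| + |φ (n0-1)| + |V n0| * |φ n0| := by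
          refine (abs_add_le _ _).trans ?_
          rw [abs_mul]
          gcongr
          exact abs_add_le _ _
      _ ≤ |φ n0| + |φ n0| + A0 * |φ n0| := by
          have h5 := hall (n0+1)
          have h6 := hall (n0-1)
          have h7 : |V n0| * |φ n0| ≤ A0 * |φ n0| :=
            mul_le_mul_of_nonneg_right (hV n0 hn0) (abs_nonneg _)
          linarith
      _ = _ := by ring
  exact le_of_mul_le_mul_right h4 hpos

/-- window eigenvector which is not small at both `m` and `m'`. -/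
def BadLoc (V : ℤ → ℝ) (L : ℕ) (η : ℝ) (m m' : ℤ) : Prop :=
  ∃ (E : ℝ) (φ : ℤ → ℝ), Ev V L E φ ∧ dot L φ φ = 1 ∧ η ≤ |φ m * φ m'|

lemma BadLoc_pp {V : ℤ → ℝ} {L : ℕ} (hL : 1 ≤ L) {η : ℝ} {m : ℤ} (hm : m ∈ Wn L)
    (h : BadLoc V L η m L) {A0 : ℝ} (hV : ∀ n ∈ Wn L, |V n| ≤ A0) :
    ∃ E : ℝ, |E| ≤ A0 + 2 ∧ pp (fun j => V ((j:ℤ) - L)) E (2 * L + 2) = 0 ∧
      η * (∑ k ∈ Finset.range (2 * L + 1), pp (fun j => V ((j:ℤ) - L)) E (k+1) ^ 2) ≤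
        |pp (fun j => V ((j:ℤ) - L)) E ((m + L).toNat+1) * pp (fun j => V ((j:ℤ) - L)) E (2 * L + 1)| := by
  obtain ⟨E, φ, h1, h2, h3⟩ := h
  rw [Finset.mem_Icc] at hm
  have hp := Ev_pp h1
  set P := pp (fun j => V ((j:ℤ) - L)) E with hP
  have hsum : dot L φ φ = φ (-(L:ℤ)) ^ 2 * ∑ k ∈ Finset.range (2 * L + 1), P (k+1) ^ 2 := by
    unfold dot
    rw [Finset.mul_sum]
    symm
    apply Finset.sum_bij (fun (k : ℕ) (_ : k ∈ Finset.range (2 * L + 1)) => -(L:ℤ) + k)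
    · intro k hk
      rw [Finset.mem_range] at hk
      rw [Finset.mem_Icc]; omega
    · intro a _ b _ hab
      have : (a:ℤ) = b := by linarith
      exact_mod_cast this
    · intro b hb
      rw [Finset.mem_Icc] at hb
      refine ⟨(b + L).toNat, ?_, ?_⟩
      · rw [Finset.mem_range]; omega
      · rw [Int.toNat_of_nonneg (by omega)]; ring
    · intro k hk
      rw [Finset.mem_range] at hk
      have := hp (k+1) (by omega)
      have e : -(L:ℤ) - 1 + ((k+1:ℕ):ℤ) = -(L:ℤ) + k := by push_cast; ring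
      rw [e] at this
      rw [this]; ring
  have hne : φ (-(L:ℤ)) ≠ 0 := by
    intro h0
    rw [hsum, h0] at h2
    norm_num at h2
  refine ⟨E, Ev_energy h1 h2 hV, ?_, ?_⟩
  · have := hp (2 * L + 2) le_rfl
    rw [h1.1 _ (by rw [Finset.mem_Icc]; push_cast; omega)] at this
    rcases mul_eq_zero.1 this.symm with h | h
    · exact absurd h hne
    · exact h
  · have e1 : φ m = φ (-(L:ℤ)) * P ((m + L).toNat + 1) := by
      rw [← hp _ (by omega)]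
      congr 1
      push_cast
      rw [Int.toNat_of_nonneg (by omega)]; ring
    have e2 : φ L = φ (-(L:ℤ)) * P (2 * L + 1) := by
      rw [← hp _ (by omega)]
      congr 1
      push_cast; ring
    rw [e1, e2] at h3
    rw [hsum] at h2
    set S := ∑ k ∈ Finset.range (2 * L + 1), P (k+1) ^ 2 with hS
    have hS0 : 0 ≤ S := Finset.sum_nonneg fun _ _ => sq_nonneg _
    have e3 : |φ (-(L:ℤ)) * P ((m + L).toNat + 1) * (φ (-(L:ℤ)) * P (2 * L + 1))|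
        = φ (-(L:ℤ)) ^ 2 * |P ((m + L).toNat + 1) * P (2 * L + 1)| := by
      have : φ (-(L:ℤ)) * P ((m + L).toNat + 1) * (φ (-(L:ℤ)) * P (2 * L + 1))
        = φ (-(L:ℤ)) ^ 2 * (P ((m + L).toNat + 1) * P (2 * L + 1)) := by ring
      rw [this, abs_mul, abs_of_nonneg (sq_nonneg _)]
    rw [e3] at h3
    calc η * S ≤ (φ (-(L:ℤ)) ^ 2 * |P ((m + L).toNat + 1) * P (2 * L + 1)|) * S := by gcongr
      _ = (φ (-(L:ℤ)) ^ 2 * S) * |P ((m + L).toNat + 1) * P (2 * L + 1)| := by ring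
      _ = _ := by rw [h2, one_mul]

/-- localization estimate for the window `[-2h, 2h]`, right end. -/
theorem ksR {δ : ℝ} (hδ : 0 < δ) {A0 : ℝ} (hA0 : 0 ≤ A0) : ∃ ρ C : ℝ, 0 < ρ ∧ ρ < 1 ∧ 0 < C ∧
    ∀ (h : ℕ), 1 ≤ h → ∀ (U b : ℤ → Xi → ℝ) (κ : ℤ → ℕ × ℕ), IndZ δ (2*h) U b κ →
    (∀ n ∈ Wn (2*h), ∀ Z, |U n Z| ≤ A0) →
    ∀ (m : ℤ), |m| ≤ h → ∀ (η : ℝ), 0 < η → ∀ B : Set Xi, MeasurableSet B →
    (∀ Z ∈ B, BadLoc (fun n => U n Z) (2*h) η m (2*h:ℕ)) → PP B ≤ ENNReal.ofReal (C * η⁻¹ * ρ ^ h) := by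
  obtain ⟨ρ, hρ0, hρ1, hKS⟩ := KS hδ
  refine ⟨ρ, δ⁻¹ * (2 * (A0 + 2)) * (Real.sqrt (2 * (2 * A0 + 2) / δ) * ρ⁻¹ * ρ⁻¹), hρ0, hρ1, by positivity, ?_⟩
  intro h hh U b κ hI hUb m hm η hη B hB hbad
  have hm' := abs_le.1 hm
  obtain ⟨M, hM⟩ : ∃ M, M + 2 = 2 * (2 * h) + 1 := ⟨2 * (2 * h) - 1, by omega⟩
  have hmW : m ∈ Wn (2*h) := by rw [Finset.mem_Icc]; push_cast; omega
  have hInd := hI.toInd M hM
  have hq : (m + (2*h:ℕ)).toNat ≤ M := by omega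
  have key := hKS A0 hA0 M (m + (2*h:ℕ)).toNat _ _ _ hInd hq η hη B hB (by
    intro Z hZ
    obtain ⟨E, g1, g2, g3⟩ := BadLoc_pp (by omega) hmW (hbad Z hZ) (A0 := A0) (fun n hn => hUb n hn Z)
    have hM2 : M + 3 = 2 * (2 * h) + 2 := by omega
    refine ⟨?_, E, g1, ?_, ?_⟩
    · exact hUb _ (by rw [Finset.mem_Icc]; push_cast; omega) Z
    · rw [hM2]; exact g2
    · rw [hM]; exact g3)
  refine key.trans (ENNReal.ofReal_le_ofReal ?_)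
  have hexp : h - 1 ≤ M - (m + (2*h:ℕ)).toNat := by omega
  have h1 : ρ ^ (M - (m + (2*h:ℕ)).toNat) ≤ ρ⁻¹ * ρ ^ h := by
    calc ρ ^ (M - (m + (2*h:ℕ)).toNat) ≤ ρ ^ (h - 1) := pow_le_pow_of_le_one hρ0.le hρ1.le hexp
      _ = ρ⁻¹ * ρ ^ h := by
        obtain ⟨h', rfl⟩ : ∃ h', h = h' + 1 := ⟨h - 1, by omega⟩
        rw [Nat.add_sub_cancel, pow_succ]; field_simp
  calc δ⁻¹ * η⁻¹ * (2 * (A0 + 2)) * (Real.sqrt (2 * (2 * A0 + 2) / δ) * ρ⁻¹ * ρ ^ (M - (m + (2*h:ℕ)).toNat))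
      ≤ δ⁻¹ * η⁻¹ * (2 * (A0 + 2)) * (Real.sqrt (2 * (2 * A0 + 2) / δ) * ρ⁻¹ * (ρ⁻¹ * ρ ^ h)) := by
        gcongr
    _ = _ := by ring

lemma Ev_refl {V : ℤ → ℝ} {L : ℕ} {E : ℝ} {φ : ℤ → ℝ} (h : Ev V L E φ) :
    Ev (fun n => V (-n)) L E (fun n => φ (-n)) := by
  refine ⟨fun n hn => h.1 _ (by rw [Finset.mem_Icc] at *; omega), fun n hn => ?_⟩
  have := h.2 (-n) (by rw [Finset.mem_Icc] at *; omega)
  have e1 : -(n+1) = -n - 1 := by ring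
  have e2 : -(n-1) = -n + 1 := by ring
  simp only [e1, e2]
  linarith

lemma dot_refl (L : ℕ) (x y : ℤ → ℝ) : dot L (fun n => x (-n)) (fun n => y (-n)) = dot L x y := by
  unfold dot
  apply Finset.sum_bij (fun (n : ℤ) (_ : n ∈ Wn L) => -n)
  · intro n hn; rw [Finset.mem_Icc] at *; omega
  · intro a _ b _ hab; omega
  · intro b hb; exact ⟨-b, by rw [Finset.mem_Icc] at *; omega, by ring⟩
  · intro n _; rfl

lemma BadLoc_refl {V : ℤ → ℝ} {L : ℕ} {η : ℝ} {m m' : ℤ} (h : BadLoc V L η m m') :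
    BadLoc (fun n => V (-n)) L η (-m) (-m') := by
  obtain ⟨E, φ, h1, h2, h3⟩ := h
  refine ⟨E, fun n => φ (-n), Ev_refl h1, by rw [dot_refl]; exact h2, ?_⟩
  simpa using h3

/-- localization estimate for the window `[-2h, 2h]`, left end. -/
theorem ksL {δ : ℝ} (hδ : 0 < δ) {A0 : ℝ} (hA0 : 0 ≤ A0) : ∃ ρ C : ℝ, 0 < ρ ∧ ρ < 1 ∧ 0 < C ∧
    ∀ (h : ℕ), 1 ≤ h → ∀ (U b : ℤ → Xi → ℝ) (κ : ℤ → ℕ × ℕ), IndZ δ (2*h) U b κ →
    (∀ n ∈ Wn (2*h), ∀ Z, |U n Z| ≤ A0) →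
    ∀ (m : ℤ), |m| ≤ h → ∀ (η : ℝ), 0 < η → ∀ B : Set Xi, MeasurableSet B →
    (∀ Z ∈ B, BadLoc (fun n => U n Z) (2*h) η m (2*h:ℕ) ∨ BadLoc (fun n => U n Z) (2*h) η m (-(2*h:ℕ))) →
    (MeasurableSet {Z | BadLoc (fun n => U n Z) (2*h) η m (2*h:ℕ)}) →
    (MeasurableSet {Z | BadLoc (fun n => U n Z) (2*h) η m (-(2*h:ℕ))}) →
    PP B ≤ ENNReal.ofReal (C * η⁻¹ * ρ ^ h) := by
  obtain ⟨ρ, C, hρ0, hρ1, hC, hR⟩ := ksR hδ hA0
  refine ⟨ρ, 2 * C, hρ0, hρ1, by positivity, ?_⟩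
  intro h hh U b κ hI hUb m hm η hη B hB hbad m1 m2
  have h1 := hR h hh U b κ hI hUb m hm η hη _ m1 (fun Z hZ => hZ)
  have h2 := hR h hh _ _ _ hI.refl (fun n hn Z => hUb (-n) (by rw [Finset.mem_Icc] at *; omega) Z) (-m)
    (by rw [abs_neg]; exact hm) η hη _ m2 (fun Z hZ => by
      have := BadLoc_refl hZ
      rwa [neg_neg] at this)
  calc PP B ≤ PP ({Z | BadLoc (fun n => U n Z) (2*h) η m (2*h:ℕ)} ∪
        {Z | BadLoc (fun n => U n Z) (2*h) η m (-(2*h:ℕ))}) := measure_mono hbad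
    _ ≤ _ := measure_union_le _ _
    _ ≤ ENNReal.ofReal (C * η⁻¹ * ρ ^ h) + ENNReal.ofReal (C * η⁻¹ * ρ ^ h) := add_le_add h1 h2
    _ = _ := by
      rw [← ENNReal.ofReal_add (by positivity) (by positivity)]
      congr 1; ring

lemma closed_proj {X Y : Type*} [TopologicalSpace X] [TopologicalSpace Y] (K : Set Y) (hK : IsCompact K)
    (R : Set (X × Y)) (hR : IsClosed R) : IsClosed {x | ∃ y ∈ K, (x, y) ∈ R} := by
  have : CompactSpace K := isCompact_iff_compactSpace.1 hK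
  have h1 : IsClosed ((fun p : X × K => (p.1, (p.2 : Y))) ⁻¹' R) := hR.preimage (by fun_prop)
  have h2 := (isClosedMap_fst_of_compactSpace (X := X) (Y := K)) _ h1
  convert h2 using 1
  ext x
  constructor
  · rintro ⟨y, hy, h⟩; exact ⟨(x, ⟨y, hy⟩), h, rfl⟩
  · rintro ⟨⟨x', y⟩, h, rfl⟩; exact ⟨y, y.2, h⟩

def Kset (A1 : ℝ) : Set ((ℤ → ℝ) × ℝ) := (Set.pi univ fun _ => Icc (-1) 1) ×ˢ Icc (-A1) A1

lemma Kset_compact (A1 : ℝ) : IsCompact (Kset A1) :=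
  (isCompact_univ_pi fun _ => isCompact_Icc).prod isCompact_Icc

lemma closed_Ev (L : ℕ) {X : Type*} [TopologicalSpace X] (V : X → ℤ → ℝ) (E : X → ℝ) (φ : X → ℤ → ℝ)
    (hV : ∀ n, Continuous fun x => V x n) (hE : Continuous E) (hφ : ∀ n, Continuous fun x => φ x n) :
    IsClosed {x | Ev (V x) L (E x) (φ x)} := by
  have h1 : IsClosed {x | ∀ n, n ∉ Wn L → φ x n = 0} := by
    simp only [ofPred_forall]
    exact isClosed_iInter fun n => isClosed_iInter fun _ => isClosed_eq (hφ n) continuous_const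
  have h2 : IsClosed {x | ∀ n ∈ Wn L, φ x (n+1) + φ x (n-1) + V x n * φ x n = E x * φ x n} := by
    simp only [ofPred_forall]
    refine isClosed_iInter fun n => isClosed_iInter fun _ => isClosed_eq ?_ ?_
    · exact ((hφ _).add (hφ _)).add ((hV n).mul (hφ n))
    · exact hE.mul (hφ n)
  exact h1.inter h2

lemma cont_dot (L : ℕ) {X : Type*} [TopologicalSpace X] (φ ψ : X → ℤ → ℝ)
    (hφ : ∀ n, Continuous fun x => φ x n) (hψ : ∀ n, Continuous fun x => ψ x n) :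
    Continuous fun x => dot L (φ x) (ψ x) := by
  unfold dot
  exact continuous_finsetSum _ fun n _ => (hφ n).mul (hψ n)

lemma abs_le_one_of_dot {L : ℕ} {φ : ℤ → ℝ} (h : ∀ n, n ∉ Wn L → φ n = 0) (h1 : dot L φ φ = 1) (n : ℤ) :
    φ n ∈ Icc (-1:ℝ) 1 := by
  by_cases hn : n ∈ Wn L
  · have h2 : φ n * φ n ≤ dot L φ φ :=
      Finset.single_le_sum (f := fun n => φ n * φ n) (fun i _ => mul_self_nonneg _) hn
    rw [h1] at h2
    have : |φ n| ≤ 1 := by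
      rw [← abs_one]; exact sq_le_sq.1 (by rw [sq, one_pow]; exact h2)
    exact abs_le.1 this
  · rw [h n hn]; constructor <;> norm_num

lemma closed_bdd (L : ℕ) (A0 : ℝ) : IsClosed {V : ℤ → ℝ | ∀ n ∈ Wn L, |V n| ≤ A0} := by
  simp only [ofPred_forall]
  exact isClosed_iInter fun n => isClosed_iInter fun _ => isClosed_le (by fun_prop) continuous_const

lemma closed_BadLoc (L : ℕ) (η : ℝ) (m m' : ℤ) (A0 : ℝ) :
    IsClosed {V : ℤ → ℝ | (∀ n ∈ Wn L, |V n| ≤ A0) ∧ BadLoc V L η m m'} := by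
  set R : Set ((ℤ → ℝ) × ((ℤ → ℝ) × ℝ)) := {p | Ev p.1 L p.2.2 p.2.1 ∧ dot L p.2.1 p.2.1 = 1 ∧
    η ≤ |p.2.1 m * p.2.1 m'|} with hR
  have hRc : IsClosed R := by
    have h1 : IsClosed {p : (ℤ → ℝ) × ((ℤ → ℝ) × ℝ) | Ev p.1 L p.2.2 p.2.1} :=
      closed_Ev L _ _ _ (by fun_prop) (by fun_prop) (by fun_prop)
    have h2 : IsClosed {p : (ℤ → ℝ) × ((ℤ → ℝ) × ℝ) | dot L p.2.1 p.2.1 = 1} :=
      isClosed_eq (cont_dot L _ _ (by fun_prop) (by fun_prop)) continuous_const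
    have h3 : IsClosed {p : (ℤ → ℝ) × ((ℤ → ℝ) × ℝ) | η ≤ |p.2.1 m * p.2.1 m'|} :=
      isClosed_le continuous_const (by fun_prop)
    exact h1.inter (h2.inter h3)
  have h1 := (closed_bdd L A0).inter (closed_proj (Kset (A0+2)) (Kset_compact _) R hRc)
  convert h1 using 1
  ext V
  constructor
  · rintro ⟨hV, E, φ, g1, g2, g3⟩
    refine ⟨hV, (φ, E), ⟨fun n _ => abs_le_one_of_dot g1.1 g2 n, abs_le.1 (Ev_energy g1 g2 hV)⟩, g1, g2, g3⟩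
  · rintro ⟨hV, ⟨φ, E⟩, _, g1, g2, g3⟩
    exact ⟨hV, E, φ, g1, g2, g3⟩

lemma closed_BadPair (L : ℕ) (s : ℝ) (m0 : ℤ) (A0 : ℝ) :
    IsClosed {V : ℤ → ℝ | (∀ n ∈ Wn L, |V n| ≤ A0) ∧ BadPair V L s m0} := by
  set R : Set ((ℤ → ℝ) × (((ℤ → ℝ) × ℝ) × ((ℤ → ℝ) × ℝ))) :=
    {p | Ev p.1 L p.2.1.2 p.2.1.1 ∧ Ev p.1 L p.2.2.2 p.2.2.1 ∧ dot L p.2.1.1 p.2.1.1 = 1 ∧
      dot L p.2.2.1 p.2.2.1 = 1 ∧ dot L p.2.1.1 p.2.2.1 = 0 ∧ |p.2.1.2 - p.2.2.2| ≤ s ∧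
      1 / (2 * L + 1 : ℝ) ≤ p.2.1.1 m0 ^ 2} with hR
  have hRc : IsClosed R := by
    have h1 : IsClosed {p : (ℤ → ℝ) × (((ℤ → ℝ) × ℝ) × ((ℤ → ℝ) × ℝ)) | Ev p.1 L p.2.1.2 p.2.1.1} :=
      closed_Ev L _ _ _ (by fun_prop) (by fun_prop) (by fun_prop)
    have h2 : IsClosed {p : (ℤ → ℝ) × (((ℤ → ℝ) × ℝ) × ((ℤ → ℝ) × ℝ)) | Ev p.1 L p.2.2.2 p.2.2.1} :=
      closed_Ev L _ _ _ (by fun_prop) (by fun_prop) (by fun_prop)
    have h3 : IsClosed {p : (ℤ → ℝ) × (((ℤ → ℝ) × ℝ) × ((ℤ → ℝ) × ℝ)) | dot L p.2.1.1 p.2.1.1 = 1} :=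
      isClosed_eq (cont_dot L _ _ (by fun_prop) (by fun_prop)) continuous_const
    have h4 : IsClosed {p : (ℤ → ℝ) × (((ℤ → ℝ) × ℝ) × ((ℤ → ℝ) × ℝ)) | dot L p.2.2.1 p.2.2.1 = 1} :=
      isClosed_eq (cont_dot L _ _ (by fun_prop) (by fun_prop)) continuous_const
    have h5 : IsClosed {p : (ℤ → ℝ) × (((ℤ → ℝ) × ℝ) × ((ℤ → ℝ) × ℝ)) | dot L p.2.1.1 p.2.2.1 = 0} :=
      isClosed_eq (cont_dot L _ _ (by fun_prop) (by fun_prop)) continuous_const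
    have h6 : IsClosed {p : (ℤ → ℝ) × (((ℤ → ℝ) × ℝ) × ((ℤ → ℝ) × ℝ)) | |p.2.1.2 - p.2.2.2| ≤ s} :=
      isClosed_le (by fun_prop) continuous_const
    have h7 : IsClosed {p : (ℤ → ℝ) × (((ℤ → ℝ) × ℝ) × ((ℤ → ℝ) × ℝ)) |
        1 / (2 * L + 1 : ℝ) ≤ p.2.1.1 m0 ^ 2} :=
      isClosed_le continuous_const (by fun_prop)
    exact h1.inter (h2.inter (h3.inter (h4.inter (h5.inter (h6.inter h7)))))
  have h1 := (closed_bdd L A0).inter (closed_proj (Kset (A0+2) ×ˢ Kset (A0+2))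
    ((Kset_compact _).prod (Kset_compact _)) R hRc)
  convert h1 using 1
  ext V
  constructor
  · rintro ⟨hV, E, E', φ, φ', g1, g2, g3, g4, g5, g6, g7⟩
    refine ⟨hV, ((φ, E), (φ', E')), ⟨⟨fun n _ => abs_le_one_of_dot g1.1 g3 n, abs_le.1 (Ev_energy g1 g3 hV)⟩,
      ⟨fun n _ => abs_le_one_of_dot g2.1 g4 n, abs_le.1 (Ev_energy g2 g4 hV)⟩⟩, g1, g2, g3, g4, g5, g6, g7⟩
  · rintro ⟨hV, ⟨⟨φ, E⟩, ⟨φ', E'⟩⟩, _, g1, g2, g3, g4, g5, g6, g7⟩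
    exact ⟨hV, E, E', φ, φ', g1, g2, g3, g4, g5, g6, g7⟩

lemma meas_BadLoc {X : Type*} [MeasurableSpace X] (V : X → ℤ → ℝ) (hV : ∀ n, Measurable fun x => V x n)
    (L : ℕ) (η : ℝ) (m m' : ℤ) (A0 : ℝ) (hb : ∀ x, ∀ n ∈ Wn L, |V x n| ≤ A0) :
    MeasurableSet {x | BadLoc (V x) L η m m'} := by
  have h := (measurable_pi_lambda V hV) (closed_BadLoc L η m m' A0).measurableSet
  convert h using 1
  ext x
  exact ⟨fun hx => ⟨hb x, hx⟩, fun hx => hx.2⟩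

lemma meas_BadPair {X : Type*} [MeasurableSpace X] (V : X → ℤ → ℝ) (hV : ∀ n, Measurable fun x => V x n)
    (L : ℕ) (s : ℝ) (m0 : ℤ) (A0 : ℝ) (hb : ∀ x, ∀ n ∈ Wn L, |V x n| ≤ A0) :
    MeasurableSet {x | BadPair (V x) L s m0} := by
  have h := (measurable_pi_lambda V hV) (closed_BadPair L s m0 A0).measurableSet
  convert h using 1
  ext x
  exact ⟨fun hx => ⟨hb x, hx⟩, fun hx => hx.2⟩

end Pool.Agent.K9h46.LP
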